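import Pool.Agent.Lib.MP_bb37eb_nt.SCH.SurfP

/-!
# Preimages of the charts of the projective line
-/

open AlgebraicGeometry CategoryTheory Polynomial Limits

namespace BB37

/-- the chart with the same coordinate `b` over the other chart of the projective line -/
def surfc_sw : Fin 4 → Fin 4 := ![2, 3, 0, 1]

theorem surfc_tau (i : Fin 4) : tau (surfc_sw i) = 1 - tau i := by
  fin_cases i <;> rfl

theorem surfc_gen (i : Fin 4) :
    gen i (qa i ℚ[X] X) = fg (fs (surfc_sw i)) / fg (fs i) := by
  have hx := fx_ne_zero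
  have ht := ft_ne_zero
  rw [gen_qa]
  fin_cases i <;> simp [fg, fs, fa, surfc_sw] <;> field_simp

theorem surfc_ov (S : Surf) (i : Fin 4) (y : Sp (Ch i))
    (hX : (X : ℚ[X]) ∉ (spMap (algebraMap ℚ[X] (Ch i)) y).asIdeal) :
    ∃ z, S.c (surfc_sw i) z = S.c i y := by
  refine S.ov i (surfc_sw i) (qa i ℚ[X] X) (surfc_gen i) y ?_
  intro hq
  exact hX hq

/-- TASK `Surf.chart_of_p`: the preimage of the chart `j` of the projective line is the union of
two charts. PROOF: let `x = S.c i y`. If `tau i = j` then `i` works. Otherwise let `i'` be the chart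
with `tau i' = j` and the same coordinate `b` (`0 ↔ 2`, `1 ↔ 3`). Since
`kap (tau i) (comap y) = S.p x` is in the range of `kap j`, `X ∉ comap y` by `kap_overlap`, that is
`qa ∉ y`. As `gen i qa = fg (fs i') / fg (fs i)`, `S.ov` gives the claim. -/
theorem Surf.chart_of_p (S : Surf) (j : Fin 2) (x : S.X) (z : Sp ℚ[X]) (h : kap j z = S.p x) :
    ∃ i, tau i = j ∧ ∃ y, S.c i y = x := by
  obtain ⟨i, y, hy⟩ := S.cov x
  by_cases hij : tau i = j
  · exact ⟨i, hij, y, hy⟩
  · have hj : j = 1 - tau i := by
      generalize tau i = k at hij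
      revert hij
      revert j k
      intro j _ k
      fin_cases j <;> fin_cases k <;> simp
    subst hj
    have e : kap (tau i) (spMap (algebraMap ℚ[X] (Ch i)) y) = S.p x := by
      have e1 : (S.c i ≫ S.p) y = S.p (S.c i y) := by simp
      have e2 : (spMap (algebraMap ℚ[X] (Ch i)) ≫ kap (tau i)) y =
          kap (tau i) (spMap (algebraMap ℚ[X] (Ch i)) y) := by simp
      rw [← e2, ← S.c_p i, e1, hy]
    have hX := (kap_overlap (tau i) (spMap (algebraMap ℚ[X] (Ch i)) y)).1 ⟨z, h.trans e.symm⟩
    obtain ⟨w, hw⟩ := surfc_ov S i y hX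
    exact ⟨surfc_sw i, surfc_tau i, w, hw.trans hy⟩

/-- TASK `Surf.p_proper` (`S.emb` composed with the structure morphism of `PP 9` is proper, and the
structure morphism of `PP 1` is separated: `IsProper.of_comp` or similar). -/
theorem Surf.p_proper (S : Surf) : IsProper S.p := by
  obtain ⟨s, hs⟩ := PP_proper 9
  obtain ⟨s1, hs1⟩ := PP_proper 1
  have e : S.p ≫ s1 = S.emb ≫ s := toSpQ_unique _ _
  have h : IsProper (S.p ≫ s1) := by
    rw [e]
    infer_instance
  exact IsProper.of_comp S.p s1

end BB37
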