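import Pool.Agent.Lib.MP_bb37eb_nt.SCH.Defs

/-!
# Morphisms to the spectrum of the rational numbers, points of affine charts
-/

open AlgebraicGeometry CategoryTheory Polynomial

namespace BB37

/-- there is at most one morphism to `Spec ℚ` -/
theorem gen_toSpQ_unique {Y : Scheme.{0}} (f g : Y ⟶ Sp ℚ) : f = g := by
  refine ext_to_Spec ?_
  ext x
  exact RingHom.congr_fun (Subsingleton.elim (α := ℚ →+* Γ(Y, ⊤)) _ _) x

/-- a point in the range of an open immersion of an affine scheme lifts -/
theorem gen_exists_lift_point {R : Type} [CommRing R] {Y : Scheme.{0}} (c : Sp R ⟶ Y)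
    [IsOpenImmersion c] {K : Type} [Field K] (P : Sp K ⟶ Y) (x : Sp K) (z : Sp R)
    (h : c z = P x) : ∃ φ : R →+* K, P = spMap φ ≫ c := by
  have hr : Set.range P ⊆ Set.range c := by
    rintro _ ⟨y, rfl⟩
    have : y = x := Subsingleton.elim (α := PrimeSpectrum K) _ _
    exact ⟨z, by rw [h, this]⟩
  refine ⟨(Spec.preimage (IsOpenImmersion.lift c P hr)).hom, ?_⟩
  have h1 : spMap (Spec.preimage (IsOpenImmersion.lift c P hr)).hom =
      IsOpenImmersion.lift c P hr := by
    show Spec.map (CommRingCat.ofHom (Spec.preimage (IsOpenImmersion.lift c P hr)).hom) = _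
    rw [CommRingCat.ofHom_hom, Spec.map_preimage]
  rw [h1, IsOpenImmersion.lift_fac]

/-- an open immersion of an affine scheme is a monomorphism -/
theorem gen_spMap_comp_injective {R B : Type} [CommRing R] [CommRing B] {Y : Scheme.{0}}
    (c : Sp R ⟶ Y) [IsOpenImmersion c] {φ ψ : R →+* B} (h : spMap φ ≫ c = spMap ψ ≫ c) :
    φ = ψ := by
  have h1 : spMap φ = spMap ψ := (cancel_mono c).1 h
  have h2 := Spec.map_injective h1
  exact congrArg CommRingCat.Hom.hom h2

end BB37
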