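import Pool.Agent.Lib.MP_bb37eb_nt.SCH.Defs

/-!
# Two charts with a common field of functions
-/

open AlgebraicGeometry CategoryTheory

namespace BB37

/-- the global sections of `W` given by a morphism to an affine scheme -/
noncomputable def gen_pull {R : Type} [CommRing R] {W : Scheme.{0}} (g : W ⟶ Sp R) :
    R →+* Γ(W, ⊤) :=
  ((Scheme.ΓSpecIso (.of R)).inv ≫ g.appTop).hom

/-- the values of the global sections at a point with values in a ring -/
noncomputable def gen_val {R : Type} [CommRing R] {W : Scheme.{0}} (f : Sp R ⟶ W) :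
    Γ(W, ⊤) →+* R :=
  (f.appTop ≫ (Scheme.ΓSpecIso (.of R)).hom).hom

theorem gen_val_pull {R S : Type} [CommRing R] [CommRing S] {W : Scheme.{0}} (f : Sp S ⟶ W)
    (g : W ⟶ Sp R) (θ : R →+* S) (h : f ≫ g = spMap θ) (x : R) :
    gen_val f (gen_pull g x) = θ x := by
  have h1 : ((Scheme.ΓSpecIso (.of R)).inv ≫ g.appTop) ≫ f.appTop ≫
      (Scheme.ΓSpecIso (.of S)).hom = CommRingCat.ofHom θ := by
    rw [Category.assoc, ← Category.assoc g.appTop, ← Scheme.Hom.comp_appTop, h,
      Scheme.ΓSpecIso_naturality, Iso.inv_hom_id_assoc]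
  have h2 := congrArg (fun k => (CommRingCat.Hom.hom k) x) h1
  exact h2

/-- a global section of `W`, an open subscheme of the spectrum of a domain, vanishes if its value
at the generic point is zero -/
theorem gen_eq_zero {Q L : Type} [CommRing Q] [IsDomain Q] [Field L] {W : Scheme.{0}}
    (g : W ⟶ Sp Q) [IsOpenImmersion g] (w : Sp L ⟶ W) (γ : Q →+* L)
    (hγ : Function.Injective γ) (h : w ≫ g = spMap γ) (s : Γ(W, ⊤)) (hs : gen_val w s = 0) :
    s = 0 := by
  have : IsReduced W := isReduced_of_isOpenImmersion g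
  rw [← basicOpen_eq_bot_iff]
  by_contra hne
  have hex : ∃ y : W, y ∈ W.basicOpen s := by
    by_contra hcon
    push Not at hcon
    exact hne (TopologicalSpace.Opens.ext (Set.eq_empty_of_forall_notMem hcon))
  obtain ⟨y, hy⟩ := hex
  have h0 : w.appTop s = 0 := by
    have : (Scheme.ΓSpecIso (.of L)).hom (w.appTop s) = 0 := hs
    exact (ConcreteCategory.bijective_of_isIso (Scheme.ΓSpecIso (.of L)).hom).1
      (this.trans (map_zero _).symm)
  -- the generic point
  obtain ⟨x⟩ : Nonempty (Sp L) := inferInstance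
  have hx : g (w x) = (⊥ : PrimeSpectrum Q) := by
    have h1 : g (w x) = (w ≫ g) x := rfl
    rw [h1, h]
    apply PrimeSpectrum.ext
    have h3 : ((spMap γ) x).asIdeal = Ideal.comap γ x.asIdeal := rfl
    have h4 : x.asIdeal = ⊥ := by
      rcases Ideal.eq_bot_or_top x.asIdeal with h5 | h5
      · exact h5
      · exact absurd h5 x.2.ne_top
    rw [h3, h4]
    exact (RingHom.injective_iff_ker_eq_bot γ).1 hγ
  have hx' : w x ∈ W.basicOpen s := by
    have hop : IsOpen (g '' (W.basicOpen s : Set W)) :=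
      g.isOpenEmbedding.isOpenMap _ (W.basicOpen s).2
    have hsp : ((⊥ : PrimeSpectrum Q)) ⤳ (g y : PrimeSpectrum Q) :=
      (PrimeSpectrum.le_iff_specializes _ _).1 bot_le
    obtain ⟨z, hz, hz'⟩ := hsp.mem_open hop ⟨y, hy, rfl⟩
    have hzw : z = w x := g.isOpenEmbedding.injective (hz'.trans hx.symm)
    rwa [← hzw]
  have h2 : x ∈ w ⁻¹ᵁ W.basicOpen s := hx'
  rw [Scheme.preimage_basicOpen_top, h0] at h2
  simp at h2

/-- two charts of an integral scheme with a common field of functions -/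
theorem gen_transition {X : Scheme.{0}} {Q Q' L : Type} [CommRing Q] [IsDomain Q] [CommRing Q']
    [Field L] (c : Sp Q ⟶ X) (c' : Sp Q' ⟶ X) [IsOpenImmersion c] [IsOpenImmersion c']
    (γ : Q →+* L) (γ' : Q' →+* L) (hγ : Function.Injective γ)
    (hc : spMap γ ≫ c = spMap γ' ≫ c') {B : Type} [CommRing B] (φ : Q →+* B) (ψ : Q' →+* B)
    (h : spMap φ ≫ c = spMap ψ ≫ c') {m : ℕ} (q : Fin m → Q) (r : Fin m → Q')
    (hqr : ∑ k, γ (q k) * γ' (r k) = 0) : ∑ k, φ (q k) * ψ (r k) = 0 := by
  let g := Limits.pullback.fst c c'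
  let g' := Limits.pullback.snd c c'
  let w := Limits.pullback.lift (spMap γ) (spMap γ') hc
  let u := Limits.pullback.lift (spMap φ) (spMap ψ) h
  have hw : w ≫ g = spMap γ := Limits.pullback.lift_fst _ _ _
  have hw' : w ≫ g' = spMap γ' := Limits.pullback.lift_snd _ _ _
  have hu : u ≫ g = spMap φ := Limits.pullback.lift_fst _ _ _
  have hu' : u ≫ g' = spMap ψ := Limits.pullback.lift_snd _ _ _
  have hs : ∑ k, gen_pull g (q k) * gen_pull g' (r k) = 0 := by
    apply gen_eq_zero g w γ hγ hw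
    rw [map_sum, ← hqr]
    refine Finset.sum_congr rfl fun k _ => ?_
    rw [map_mul, gen_val_pull w g γ hw, gen_val_pull w g' γ' hw']
  have h2 := congrArg (gen_val u) hs
  rw [map_sum, map_zero] at h2
  rw [← h2]
  refine Finset.sum_congr rfl fun k _ => ?_
  rw [map_mul, gen_val_pull u g φ hu, gen_val_pull u g' ψ hu']

end BB37
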