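import Pool.Agent.Lib.MP_bb37eb_nt.SCH.Defs
import Pool.Agent.Lib.MP_bb37eb_nt.SCH.GenA
import Pool.Agent.Lib.MP_bb37eb_nt.SCH.GenB

/-!
# General lemmas on schemes
-/

open AlgebraicGeometry CategoryTheory Polynomial

namespace BB37

/-- TASK `toSpQ_unique`: there is at most one morphism to `Spec ℚ`. PROOF: morphisms to an affine
scheme correspond to ring homomorphisms from `ℚ` to the global sections (`ΓSpec.adjunction`,
`ext_to_Spec`), and ring homomorphisms from `ℚ` to a ring are unique
(`RingHom.ext_rat`, or `Subsingleton (ℚ →+* R)`). -/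
theorem toSpQ_unique {Y : Scheme.{0}} (f g : Y ⟶ Sp ℚ) : f = g :=
  gen_toSpQ_unique f g

/-- TASK `exists_lift_point`: a point of `Y` with values in a field whose image lies in the range of
an open immersion of an affine scheme is given by a ring homomorphism
(`IsOpenImmersion.lift`; `Spec` is fully faithful: `Spec.preimage`). -/
theorem exists_lift_point {R : Type} [CommRing R] {Y : Scheme.{0}} (c : Sp R ⟶ Y)
    [IsOpenImmersion c] {K : Type} [Field K] (P : Sp K ⟶ Y) (x : Sp K) (z : Sp R)
    (h : c z = P x) : ∃ φ : R →+* K, P = spMap φ ≫ c :=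
  gen_exists_lift_point c P x z h

/-- TASK `spMap_comp_injective` -/
theorem spMap_comp_injective {R B : Type} [CommRing R] [CommRing B] {Y : Scheme.{0}}
    (c : Sp R ⟶ Y) [IsOpenImmersion c] {φ ψ : R →+* B} (h : spMap φ ≫ c = spMap ψ ≫ c) :
    φ = ψ :=
  gen_spMap_comp_injective c h

/-- TASK `transition`: two charts of an integral scheme with a common field of functions.
PROOF: let `W` be the pullback of `c` and `c'`, an open subscheme of `Sp Q`, so reduced. The two
morphisms `Sp L ⟶ Sp Q`, `Sp L ⟶ Sp Q'` give `w : Sp L ⟶ W`, which is dominant: its composition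
with the open immersion `W ⟶ Sp Q` is dominant because `γ` is injective and `Q` is a domain. The
section `s = ∑ k, fst^*(q k) * snd^*(r k)` of `W` has zero pullback to `Sp L`, hence `s = 0`
(`W` reduced, `w` dominant; or use `ext_of_isDominant` for the two morphisms from `W` to
`Spec ℤ[X]` given by `s` and `0`). The two ring homomorphisms `φ`, `ψ` give `Sp B ⟶ W`, and the
pullback of `s` to `Sp B` is `∑ k, φ (q k) * ψ (r k)`. -/
theorem transition {X : Scheme.{0}} {Q Q' L : Type} [CommRing Q] [IsDomain Q] [CommRing Q']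
    [Field L] (c : Sp Q ⟶ X) (c' : Sp Q' ⟶ X) [IsOpenImmersion c] [IsOpenImmersion c']
    (γ : Q →+* L) (γ' : Q' →+* L) (hγ : Function.Injective γ)
    (hc : spMap γ ≫ c = spMap γ' ≫ c') {B : Type} [CommRing B] (φ : Q →+* B) (ψ : Q' →+* B)
    (h : spMap φ ≫ c = spMap ψ ≫ c') {m : ℕ} (q : Fin m → Q) (r : Fin m → Q')
    (hqr : ∑ k, γ (q k) * γ' (r k) = 0) : ∑ k, φ (q k) * ψ (r k) = 0 :=
  gen_transition c c' γ γ' hγ hc φ ψ h q r hqr

end BB37
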