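import Pool.Agent.Lib.MP_bb37eb_nt.SCH.Defs

/-!
# Projective space is proper over the rational numbers
-/

open AlgebraicGeometry CategoryTheory Polynomial HomogeneousLocalization

namespace BB37

attribute [local instance] MvPolynomial.gradedAlgebra

/-- the homogeneous polynomials of degree zero are the constants -/
theorem p1_bij (n : ℕ) : Function.Bijective
    (algebraMap ℚ (MvPolynomial.homogeneousSubmodule (Fin (n + 1)) ℚ 0)) := by
  refine ⟨fun a b hab => MvPolynomial.C_injective (Fin (n + 1)) ℚ (congrArg Subtype.val hab), ?_⟩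
  rintro ⟨p, hp⟩
  have hp' : p.IsHomogeneous 0 := hp
  have h0 : p.totalDegree = 0 := Nat.le_zero.1 hp'.totalDegree_le
  refine ⟨MvPolynomial.coeff 0 p, ?_⟩
  apply Subtype.ext
  exact (MvPolynomial.totalDegree_eq_zero_iff_eq_C.1 h0).symm

theorem p1_finiteType (n : ℕ) :
    Algebra.FiniteType (MvPolynomial.homogeneousSubmodule (Fin (n + 1)) ℚ 0)
      (MvPolynomial (Fin (n + 1)) ℚ) := by
  have h : IsScalarTower ℚ (MvPolynomial.homogeneousSubmodule (Fin (n + 1)) ℚ 0)
      (MvPolynomial (Fin (n + 1)) ℚ) := by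
    refine ⟨fun a b c => ?_⟩
    exact smul_assoc a (b : MvPolynomial (Fin (n + 1)) ℚ) c
  exact Algebra.FiniteType.of_restrictScalars_finiteType ℚ _ _

/-- TASK `PP_proper`. PROOF: `Proj.toSpecZero` is proper
(`Mathlib/AlgebraicGeometry/ProjectiveSpectrum/Proper`; instance `Algebra.FiniteType (𝒜 0) A`, since
`MvPolynomial (Fin (n+1)) ℚ` is of finite type over `ℚ`), and `ℚ → 𝒜 0` is an isomorphism
(homogeneous polynomials of degree 0 are constants). -/
theorem PP_proper (n : ℕ) : ∃ s : PP n ⟶ Sp ℚ, IsProper s := by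
  have := p1_finiteType n
  have : IsIso (CommRingCat.ofHom
      (algebraMap ℚ (MvPolynomial.homogeneousSubmodule (Fin (n + 1)) ℚ 0))) :=
    (ConcreteCategory.isIso_iff_bijective _).2 (p1_bij n)
  exact ⟨Proj.toSpecZero (MvPolynomial.homogeneousSubmodule (Fin (n + 1)) ℚ) ≫
    Spec.map (CommRingCat.ofHom
      (algebraMap ℚ (MvPolynomial.homogeneousSubmodule (Fin (n + 1)) ℚ 0))), inferInstance⟩

end BB37
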