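import Pool.Agent.Lib.MP_bb37eb_nt.SCH.Defs

/-!
# The two affine charts of the projective line
-/

open AlgebraicGeometry CategoryTheory Polynomial HomogeneousLocalization

namespace BB37

attribute [local instance] MvPolynomial.gradedAlgebra

/-- evaluation of rational polynomials -/
noncomputable def evQ {B : Type} [CommRing B] [Algebra ℚ B] (a : B) : ℚ[X] →+* B :=
  eval₂RingHom (algebraMap ℚ B) a

theorem evQ_X {B : Type} [CommRing B] [Algebra ℚ B] (a : B) : evQ a X = a := by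
  rw [evQ, coe_eval₂RingHom, eval₂_X]

/-- the grading of the polynomial ring in two variables -/
noncomputable abbrev p1_A : ℕ → Submodule ℚ (MvPolynomial (Fin 2) ℚ) :=
  MvPolynomial.homogeneousSubmodule (Fin 2) ℚ

/-- dehomogenisation of polynomials -/
noncomputable def p1_g (j : Fin 2) : MvPolynomial (Fin 2) ℚ →ₐ[ℚ] ℚ[X] :=
  MvPolynomial.aeval fun i => if i = j then 1 else X

theorem p1_deg (j : Fin 2) : (MvPolynomial.X j : MvPolynomial (Fin 2) ℚ) ∈ p1_A 1 :=
  MvPolynomial.isHomogeneous_X ℚ j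

theorem p1_g_self (j : Fin 2) : p1_g j (MvPolynomial.X j) = 1 := by
  rw [p1_g, MvPolynomial.aeval_X, if_pos rfl]

theorem p1_ne (j : Fin 2) : 1 - j ≠ j := by
  fin_cases j <;> decide

theorem p1_g_other (j : Fin 2) : p1_g j (MvPolynomial.X (1 - j)) = X := by
  rw [p1_g, MvPolynomial.aeval_X, if_neg (p1_ne j)]

theorem p1_g_monomial (j : Fin 2) (m : Fin 2 →₀ ℕ) (c : ℚ) :
    p1_g j (MvPolynomial.monomial m c) = monomial (m (1 - j)) c := by
  rw [p1_g, MvPolynomial.aeval_monomial, Finsupp.prod_fintype _ _ (by simp), Fin.prod_univ_two,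
    ← C_mul_X_pow_eq_monomial]
  fin_cases j
  · simp
  · simp

/-- the dehomogenisation on the degree zero part of the localisation -/
noncomputable def p1_e (j : Fin 2) : Away p1_A (MvPolynomial.X j) →+* ℚ[X] :=
  (Localization.awayLift (p1_g j).toRingHom (MvPolynomial.X j)
    (by
      have h : (p1_g j).toRingHom (MvPolynomial.X j) = 1 := p1_g_self j
      rw [h]
      exact isUnit_one)).comp
    (algebraMap (Away p1_A (MvPolynomial.X j)) (Localization.Away (MvPolynomial.X j)))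

theorem p1_lift_mk {S B : Type} [CommRing S] [CommRing B] (g : S →+* B) (f : S)
    (hf : IsUnit (g f)) (n : ℕ) (x : S) (w : B) (hw : g f * w = 1) (h : f ^ n ∈ Submonoid.powers f) :
    Localization.awayLift g f hf (Localization.mk x ⟨f ^ n, h⟩) = g x * w ^ n := by
  have h1 : Localization.mk x ⟨f ^ n, h⟩ * algebraMap S (Localization.Away f) (f ^ n) =
      algebraMap S (Localization.Away f) x := by
    rw [Localization.mk_eq_mk']
    exact IsLocalization.mk'_spec _ x ⟨f ^ n, h⟩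
  have h2 := congrArg (Localization.awayLift g f hf) h1
  have h3 : ∀ y, Localization.awayLift g f hf (algebraMap S (Localization.Away f) y) = g y :=
    fun y => IsLocalization.Away.lift_eq f hf y
  rw [map_mul, h3, h3, map_pow] at h2
  calc Localization.awayLift g f hf (Localization.mk x ⟨f ^ n, h⟩)
      = Localization.awayLift g f hf (Localization.mk x ⟨f ^ n, h⟩) * (g f ^ n * w ^ n) := by
        rw [← mul_pow, hw, one_pow, mul_one]
    _ = g x * w ^ n := by rw [← mul_assoc, h2]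

theorem p1_e_mk (j : Fin 2) (n : ℕ) (x : MvPolynomial (Fin 2) ℚ) (hx : x ∈ p1_A (n • 1)) :
    p1_e j (Away.mk p1_A (p1_deg j) n x hx) = p1_g j x := by
  have h : p1_e j (Away.mk p1_A (p1_deg j) n x hx) = (p1_g j).toRingHom x * 1 ^ n := by
    refine Eq.trans ?_ (p1_lift_mk (p1_g j).toRingHom (MvPolynomial.X j) ?_ n x 1 ?_ ⟨n, rfl⟩)
    · rfl
    · have h : (p1_g j).toRingHom (MvPolynomial.X j) = 1 := p1_g_self j
      rw [h]
      exact isUnit_one
    · have h : (p1_g j).toRingHom (MvPolynomial.X j) = 1 := p1_g_self j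
      rw [h, mul_one]
  rw [h, one_pow, mul_one]
  rfl

/-- a homogeneous polynomial is determined by its dehomogenisation -/
theorem p1_g_inj (j : Fin 2) (n : ℕ) (x : MvPolynomial (Fin 2) ℚ) (hx : x.IsHomogeneous n)
    (h : p1_g j x = 0) : x = 0 := by
  by_contra hne
  obtain ⟨m₀, hm₀⟩ := MvPolynomial.ne_zero_iff.1 hne
  have h1 : p1_g j x = ∑ m ∈ x.support, monomial (m (1 - j)) (MvPolynomial.coeff m x) := by
    conv_lhs => rw [← MvPolynomial.support_sum_monomial_coeff x, map_sum]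
    refine Finset.sum_congr rfl fun m _ => ?_
    rw [p1_g_monomial]
  have h2 : (p1_g j x).coeff (m₀ (1 - j)) = MvPolynomial.coeff m₀ x := by
    rw [h1, finsetSum_coeff, Finset.sum_eq_single m₀]
    · rw [coeff_monomial, if_pos rfl]
    · intro m hm hmne
      rw [coeff_monomial, if_neg]
      intro he
      apply hmne
      have k1 : m 0 + m 1 = n := by
        have h3 := hx (MvPolynomial.mem_support_iff.1 hm)
        rw [Finsupp.weight_apply, Finsupp.sum_fintype _ _ (by simp)] at h3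
        simpa [Fin.sum_univ_two] using h3
      have k2 : m₀ 0 + m₀ 1 = n := by
        have h3 := hx hm₀
        rw [Finsupp.weight_apply, Finsupp.sum_fintype _ _ (by simp)] at h3
        simpa [Fin.sum_univ_two] using h3
      ext i
      fin_cases j <;> fin_cases i <;> simp at he ⊢ <;> omega
    · intro hm
      rw [coeff_monomial, if_pos rfl]
      exact MvPolynomial.notMem_support_iff.1 hm
  rw [h, coeff_zero] at h2
  exact hm₀ h2.symm

/-- the coordinate of the chart `j` -/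
noncomputable def p1_t (j : Fin 2) : Away p1_A (MvPolynomial.X j) :=
  Away.mk p1_A (p1_deg j) 1 (MvPolynomial.X (1 - j)) (p1_deg (1 - j))

theorem p1_e_t (j : Fin 2) : p1_e j (p1_t j) = X := by
  rw [p1_t, p1_e_mk, p1_g_other]

theorem p1_e_bij (j : Fin 2) : Function.Bijective (p1_e j) := by
  constructor
  · rw [injective_iff_map_eq_zero]
    intro z hz
    obtain ⟨n, x, hx, rfl⟩ := Away.mk_surjective p1_A (p1_deg j) z
    rw [p1_e_mk] at hz
    have hx' : x.IsHomogeneous n := by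
      have h : x.IsHomogeneous (n • 1) := hx
      rwa [smul_eq_mul, mul_one] at h
    have h0 := p1_g_inj j n x hx' hz
    subst h0
    exact mk_eq_zero_of_num _ rfl
  · intro p
    induction p using Polynomial.induction_on' with
    | add p q hp hq =>
      obtain ⟨a, rfl⟩ := hp
      obtain ⟨b, rfl⟩ := hq
      exact ⟨a + b, map_add _ _ _⟩
    | monomial n c =>
      have hc : (MvPolynomial.C c : MvPolynomial (Fin 2) ℚ) ∈ p1_A (0 • 1) := by
        rw [zero_smul]
        exact MvPolynomial.isHomogeneous_C _ _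
      refine ⟨Away.mk p1_A (p1_deg j) 0 (MvPolynomial.C c) hc * p1_t j ^ n, ?_⟩
      rw [map_mul, map_pow, p1_e_t, p1_e_mk, ← C_mul_X_pow_eq_monomial]
      congr 1
      rw [p1_g, MvPolynomial.aeval_C]
      rfl

theorem p1_ext (j : Fin 2) {B : Type} [CommRing B] (φ ψ : Away p1_A (MvPolynomial.X j) →+* B)
    (h : φ (p1_t j) = ψ (p1_t j)) : φ = ψ := by
  let E := RingEquiv.ofBijective (p1_e j) (p1_e_bij j)
  have hE : E.symm X = p1_t j := by
    rw [RingEquiv.symm_apply_eq]
    exact (p1_e_t j).symm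
  have h1 : φ.comp E.symm.toRingHom = ψ.comp E.symm.toRingHom := by
    apply Polynomial.ringHom_ext
    · intro q
      have e : (φ.comp E.symm.toRingHom).comp Polynomial.C =
          (ψ.comp E.symm.toRingHom).comp Polynomial.C := Subsingleton.elim _ _
      exact DFunLike.congr_fun e q
    · change φ (E.symm X) = ψ (E.symm X)
      rw [hE, h]
  ext z
  have h2 := DFunLike.congr_fun h1 (E z)
  change φ (E.symm (E z)) = ψ (E.symm (E z)) at h2
  rwa [RingEquiv.symm_apply_apply] at h2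

/-- the charts -/
noncomputable def p1_kappa (j : Fin 2) : Sp ℚ[X] ⟶ PP 1 :=
  Spec.map (CommRingCat.ofHom (p1_e j)) ≫
    Proj.awayι p1_A (MvPolynomial.X j) (p1_deg j) one_pos

instance p1_iso (j : Fin 2) : IsIso (Spec.map (CommRingCat.ofHom (p1_e j))) := by
  have : IsIso (CommRingCat.ofHom (p1_e j)) :=
    (ConcreteCategory.isIso_iff_bijective _).2 (p1_e_bij j)
  infer_instance

instance p1_open (j : Fin 2) : IsOpenImmersion (p1_kappa j) := by
  unfold p1_kappa
  infer_instance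

theorem p1_range (j : Fin 2) (y : PP 1) :
    (∃ z, p1_kappa j z = y) ↔ y ∈ Proj.basicOpen p1_A (MvPolynomial.X j) := by
  rw [← Proj.opensRange_awayι p1_A (MvPolynomial.X j) (p1_deg j) one_pos]
  constructor
  · rintro ⟨z, rfl⟩
    refine ⟨Spec.map (CommRingCat.ofHom (p1_e j)) z, ?_⟩
    rfl
  · rintro ⟨w, rfl⟩
    have hs : Function.Surjective (Spec.map (CommRingCat.ofHom (p1_e j))) :=
      (Spec.map (CommRingCat.ofHom (p1_e j))).homeomorph.surjective
    obtain ⟨z, rfl⟩ := hs w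
    exact ⟨z, rfl⟩

theorem p1_cover (y : PP 1) : ∃ j, ∃ z, p1_kappa j z = y := by
  have h : ⨆ i, Proj.basicOpen p1_A (MvPolynomial.X i : MvPolynomial (Fin 2) ℚ) = ⊤ := by
    apply Proj.iSup_basicOpen_eq_top' p1_A (fun i => MvPolynomial.X i) fun i => ⟨1, p1_deg i⟩
    rw [eq_top_iff]
    intro x _
    induction x using MvPolynomial.induction_on with
    | C a =>
      have ha : (MvPolynomial.C a : MvPolynomial (Fin 2) ℚ) ∈ p1_A 0 :=
        MvPolynomial.isHomogeneous_C _ _
      exact Subalgebra.algebraMap_mem _ (⟨_, ha⟩ : p1_A 0)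
    | add p q hp hq => exact Subalgebra.add_mem _ (hp trivial) (hq trivial)
    | mul_X p i hp =>
      exact Subalgebra.mul_mem _ (hp trivial) (Algebra.subset_adjoin ⟨i, rfl⟩)
  have hy : y ∈ ⨆ i, Proj.basicOpen p1_A (MvPolynomial.X i : MvPolynomial (Fin 2) ℚ) := by
    rw [h]
    trivial
  obtain ⟨j, hj⟩ := TopologicalSpace.Opens.mem_iSup.1 hy
  exact ⟨j, (p1_range j y).2 hj⟩

/-- the evaluation on the intersection of the charts -/
noncomputable def p1_G {B : Type} [CommRing B] [Algebra ℚ B] (u : B) :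
    MvPolynomial (Fin 2) ℚ →ₐ[ℚ] B := MvPolynomial.aeval ![1, u]

theorem p1_G0 {B : Type} [CommRing B] [Algebra ℚ B] (u : B) :
    p1_G u (MvPolynomial.X 0) = 1 := by
  rw [p1_G, MvPolynomial.aeval_X]
  rfl

theorem p1_G1 {B : Type} [CommRing B] [Algebra ℚ B] (u : B) :
    p1_G u (MvPolynomial.X 1) = u := by
  rw [p1_G, MvPolynomial.aeval_X]
  rfl

theorem p1_swap (B : Type) [CommRing B] [Algebra ℚ B] (u v : B) (huv : u * v = 1) :
    spMap (evQ u) ≫ p1_kappa 0 = spMap (evQ v) ≫ p1_kappa 1 := by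
  have hG : (p1_G u).toRingHom (MvPolynomial.X 0 * MvPolynomial.X 1) = u := by
    rw [map_mul]
    change p1_G u (MvPolynomial.X 0) * p1_G u (MvPolynomial.X 1) = u
    rw [p1_G0, p1_G1, one_mul]
  have hu : IsUnit ((p1_G u).toRingHom (MvPolynomial.X 0 * MvPolynomial.X 1)) := by
    rw [hG]
    exact IsUnit.of_mul_eq_one v huv
  let ψ : Away p1_A (MvPolynomial.X 0 * MvPolynomial.X 1) →+* B :=
    (Localization.awayLift (p1_G u).toRingHom (MvPolynomial.X 0 * MvPolynomial.X 1) hu).comp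
      (algebraMap (Away p1_A (MvPolynomial.X 0 * MvPolynomial.X 1))
        (Localization.Away (MvPolynomial.X 0 * MvPolynomial.X 1)))
  have e0 : (evQ u).comp (p1_e 0) = ψ.comp (awayMap p1_A (p1_deg 1) rfl) := by
    apply p1_ext 0
    rw [RingHom.comp_apply, p1_e_t, evQ_X, RingHom.comp_apply, p1_t, awayMap_mk]
    have h := p1_lift_mk (p1_G u).toRingHom (MvPolynomial.X 0 * MvPolynomial.X 1) hu 1
      (MvPolynomial.X (1 - 0) * MvPolynomial.X 1 ^ 1) v (by rw [hG, huv]) ⟨1, rfl⟩
    refine Eq.symm (Eq.trans ?_ (h.trans ?_))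
    · rfl
    · rw [map_mul, map_pow]
      change p1_G u (MvPolynomial.X 1) * p1_G u (MvPolynomial.X 1) ^ 1 * v ^ 1 = u
      rw [p1_G1, pow_one, pow_one, mul_assoc, huv, mul_one]
  have e1 : (evQ v).comp (p1_e 1) = ψ.comp (awayMap p1_A (p1_deg 0) (mul_comm _ _)) := by
    apply p1_ext 1
    rw [RingHom.comp_apply, p1_e_t, evQ_X, RingHom.comp_apply, p1_t, awayMap_mk]
    have h := p1_lift_mk (p1_G u).toRingHom (MvPolynomial.X 0 * MvPolynomial.X 1) hu 1
      (MvPolynomial.X (1 - 1) * MvPolynomial.X 0 ^ 1) v (by rw [hG, huv]) ⟨1, rfl⟩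
    refine Eq.symm (Eq.trans ?_ (h.trans ?_))
    · rfl
    · rw [map_mul, map_pow]
      change p1_G u (MvPolynomial.X 0) * p1_G u (MvPolynomial.X 0) ^ 1 * v ^ 1 = v
      rw [p1_G0, pow_one, pow_one, one_mul, one_mul]
  have k0 : spMap (evQ u) ≫ p1_kappa 0 = Spec.map (CommRingCat.ofHom ψ) ≫
      Proj.awayι p1_A (MvPolynomial.X 0 * MvPolynomial.X 1)
        (SetLike.mul_mem_graded (p1_deg 0) (p1_deg 1)) (by norm_num) := by
    rw [← Proj.SpecMap_awayMap_awayι p1_A (p1_deg 0) one_pos (p1_deg 1) rfl, p1_kappa,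
      ← Category.assoc, ← Category.assoc, ← Spec.map_comp, ← Spec.map_comp,
      ← CommRingCat.ofHom_comp, ← CommRingCat.ofHom_comp, e0]
  have k1 : spMap (evQ v) ≫ p1_kappa 1 = Spec.map (CommRingCat.ofHom ψ) ≫
      Proj.awayι p1_A (MvPolynomial.X 0 * MvPolynomial.X 1)
        (SetLike.mul_mem_graded (p1_deg 0) (p1_deg 1)) (by norm_num) := by
    rw [← Proj.SpecMap_awayMap_awayι p1_A (p1_deg 1) one_pos (p1_deg 0) (mul_comm _ _), p1_kappa,
      ← Category.assoc, ← Category.assoc, ← Spec.map_comp, ← Spec.map_comp,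
      ← CommRingCat.ofHom_comp, ← CommRingCat.ofHom_comp, e1]
  rw [k0, k1]

theorem p1_overlap (j : Fin 2) (z : Sp ℚ[X]) :
    (∃ z', p1_kappa (1 - j) z' = p1_kappa j z) ↔ (X : ℚ[X]) ∉ z.asIdeal := by
  rw [p1_range]
  have h := Proj.awayι_preimage_basicOpen p1_A (p1_deg j) one_pos (p1_deg (1 - j)) one_pos
  have h1 : p1_kappa j z ∈ Proj.basicOpen p1_A (MvPolynomial.X (1 - j)) ↔
      Spec.map (CommRingCat.ofHom (p1_e j)) z ∈
        Proj.awayι p1_A (MvPolynomial.X j) (p1_deg j) one_pos ⁻¹ᵁ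
          Proj.basicOpen p1_A (MvPolynomial.X (1 - j)) := Iff.rfl
  rw [h1, h]
  have h2 : Spec.map (CommRingCat.ofHom (p1_e j)) z ∈
      PrimeSpectrum.basicOpen (Away.isLocalizationElem (p1_deg j) (p1_deg (1 - j))) ↔
      p1_e j (Away.isLocalizationElem (p1_deg j) (p1_deg (1 - j))) ∉ z.asIdeal := Iff.rfl
  have h3 : p1_e j (Away.isLocalizationElem (p1_deg j) (p1_deg (1 - j))) = X := by
    rw [Away.isLocalizationElem, p1_e_mk, pow_one, p1_g_other]
  rw [h3] at h2
  exact h2

/-- the two affine charts of the projective line -/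
theorem exists_kappa : ∃ κ : Fin 2 → (Sp ℚ[X] ⟶ PP 1),
    (∀ j, IsOpenImmersion (κ j)) ∧ (∀ y : PP 1, ∃ j, ∃ z, κ j z = y) ∧
    (∀ (B : Type) [CommRing B] [Algebra ℚ B] (u v : B), u * v = 1 →
      spMap (evQ u) ≫ κ 0 = spMap (evQ v) ≫ κ 1) ∧
    ∀ (j : Fin 2) (z : Sp ℚ[X]), (∃ z', κ (1 - j) z' = κ j z) ↔ (X : ℚ[X]) ∉ z.asIdeal :=
  ⟨p1_kappa, p1_open, p1_cover, p1_swap, p1_overlap⟩

end BB37
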