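import Pool.Agent.Lib.MP_bb37eb_nt.SCH.Gen
import Pool.Agent.Lib.MP_bb37eb_nt.SCH.P1A
import Pool.Agent.Lib.MP_bb37eb_nt.SCH.P1B

/-!
# The projective line and projective space
-/

open AlgebraicGeometry CategoryTheory Polynomial HomogeneousLocalization

namespace BB37

attribute [local instance] MvPolynomial.gradedAlgebra

/-- the charts of the projective line -/
noncomputable def kap (j : Fin 2) : Sp ℚ[X] ⟶ PP 1 := exists_kappa.choose j

instance (j : Fin 2) : IsOpenImmersion (kap j) := exists_kappa.choose_spec.1 j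

theorem kap_cover (y : PP 1) : ∃ j, ∃ z, kap j z = y := exists_kappa.choose_spec.2.1 y

theorem kap_swap {B : Type} [CommRing B] [Algebra ℚ B] (u v : B) (h : u * v = 1) :
    spMap (evQ u) ≫ kap 0 = spMap (evQ v) ≫ kap 1 := exists_kappa.choose_spec.2.2.1 B u v h

theorem kap_overlap (j : Fin 2) (z : Sp ℚ[X]) :
    (∃ z', kap (1 - j) z' = kap j z) ↔ (X : ℚ[X]) ∉ z.asIdeal :=
  exists_kappa.choose_spec.2.2.2 j z

/-- TASK `P1_point`: the points of the projective line with values in a field (from `kap_cover` and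
`exists_lift_point`; a ring homomorphism `ℚ[X] →+* K` is `evQ a` with `a` the image of `X`). -/
theorem P1_point {K : Type} [Field K] [Algebra ℚ K] (P : Sp K ⟶ PP 1) :
    ∃ j, ∃ a : K, P = spMap (evQ a) ≫ kap j := by
  let x : Sp K := IsLocalRing.closedPoint K
  obtain ⟨j, z, hz⟩ := kap_cover (P x)
  obtain ⟨φ, hφ⟩ := exists_lift_point (kap j) P x z hz
  refine ⟨j, φ X, ?_⟩
  have : φ = evQ (φ X) := by
    apply Polynomial.ringHom_ext
    · intro q
      have e : φ.comp Polynomial.C = (evQ (φ X)).comp Polynomial.C := Subsingleton.elim _ _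
      exact DFunLike.congr_fun e q
    · rw [evQ_X]
  rw [← this]
  exact hφ

/-- TASK `kap_eq_iff`: when do the points of the two charts agree? PROOF: if
`spMap (evQ a) ≫ kap 0 = spMap (evQ b) ≫ kap 1`, then the prime `z` of `ℚ[X]`, the kernel of
`evQ a`, is mapped by `kap 0` into the range of `kap 1`, so `a ≠ 0` by `kap_overlap`; by `kap_swap`
the left side is `spMap (evQ a⁻¹) ≫ kap 1`, and `b = a⁻¹` by `spMap_comp_injective`. -/
theorem kap_eq_iff {K : Type} [Field K] [Algebra ℚ K] (a b : K)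
    (h : spMap (evQ a) ≫ kap 0 = spMap (evQ b) ≫ kap 1) : a * b = 1 := by
  let x : Sp K := IsLocalRing.closedPoint K
  have ha : a ≠ 0 := by
    intro h0
    have h1 : kap 1 (spMap (evQ b) x) = kap 0 (spMap (evQ a) x) := by
      have e1 : (spMap (evQ a) ≫ kap 0) x = kap 0 (spMap (evQ a) x) := by
        simp
      have e2 : (spMap (evQ b) ≫ kap 1) x = kap 1 (spMap (evQ b) x) := by
        simp
      rw [← e1, ← e2, h]
    have h2 := (kap_overlap 0 (spMap (evQ a) x)).1 ⟨spMap (evQ b) x, h1⟩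
    apply h2
    change evQ a X ∈ x.asIdeal
    rw [evQ_X, h0]
    exact zero_mem _
  have h3 := kap_swap a a⁻¹ (mul_inv_cancel₀ ha)
  rw [h] at h3
  have h4 := spMap_comp_injective (kap 1) h3
  have h5 : b = a⁻¹ := by
    have := congrArg (fun f : ℚ[X] →+* K => f X) h4
    simpa only [evQ_X] using this
  rw [h5, mul_inv_cancel₀ ha]

/-- the rational point `t = 0` -/
noncomputable def P0 : Sp ℚ ⟶ PP 1 := spMap (evQ (0 : ℚ)) ≫ kap 0

/-- TASK `P1_point_ne`: a rational point other than `t = 0` lies in the chart `1`. From `P1_point`,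
`kap_swap`. -/
theorem P1_point_ne (P : Sp ℚ ⟶ PP 1) (h : P ≠ P0) :
    ∃ a : ℚ, P = spMap (evQ a) ≫ kap 1 := by
  obtain ⟨j, a, ha⟩ := P1_point P
  fin_cases j
  · have ha0 : a ≠ 0 := by
      rintro rfl
      exact h ha
    refine ⟨a⁻¹, ?_⟩
    rw [← kap_swap a a⁻¹ (mul_inv_cancel₀ ha0)]
    exact ha
  · exact ⟨a, ha⟩

/-- TASK `PP1_separated`, from `PP_proper` -/
theorem PP1_separated : Scheme.IsSeparated (PP 1) := inferInstance

end BB37
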