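import Pool.Agent.Lib.MP_bb37eb_nt.SCH.Dom
import Pool.Agent.Lib.MP_bb37eb_nt.SCH.P1

/-!
# Base change of the charts
-/

open AlgebraicGeometry CategoryTheory Polynomial

namespace BB37

/-- the homomorphism of the chart to its fibre over `a` -/
noncomputable def toQr (i : Fin 4) {B : Type} [CommRing B] [Algebra ℚ B] (a : B) :
    Ch i →+* Qr i B a :=
  Qr.lift (evQ (algebraMap B (Qr i B a) a)) (qb i B a) (qc i B a) (qd i B a) (qc_sq i B a)
    (by rw [evQ_X]; exact qd_sq i B a)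

theorem toQr_qa (i : Fin 4) {B : Type} [CommRing B] [Algebra ℚ B] (a : B) :
    toQr i a (qa i ℚ[X] X) = qa i B a := by rw [toQr, Qr.lift_qa, evQ_X]; rfl

theorem toQr_qb (i : Fin 4) {B : Type} [CommRing B] [Algebra ℚ B] (a : B) :
    toQr i a (qb i ℚ[X] X) = qb i B a := by rw [toQr, Qr.lift_qb]

theorem toQr_qc (i : Fin 4) {B : Type} [CommRing B] [Algebra ℚ B] (a : B) :
    toQr i a (qc i ℚ[X] X) = qc i B a := by rw [toQr, Qr.lift_qc]

theorem toQr_qd (i : Fin 4) {B : Type} [CommRing B] [Algebra ℚ B] (a : B) :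
    toQr i a (qd i ℚ[X] X) = qd i B a := by rw [toQr, Qr.lift_qd]

/-- the square commutes -/
theorem tens_comm (i : Fin 4) {B : Type} [CommRing B] [Algebra ℚ B] (a : B) :
    (toQr i a).comp (algebraMap ℚ[X] (Ch i)) = (algebraMap B (Qr i B a)).comp (evQ a) := by
  refine Polynomial.ringHom_ext' (Subsingleton.elim _ _) ?_
  rw [RingHom.comp_apply, RingHom.comp_apply, evQ_X]
  exact toQr_qa i a

/-- the homomorphism given by a cocone -/
noncomputable def tens_desc (i : Fin 4) {B : Type} [CommRing B] [Algebra ℚ B] (a : B) {R : Type}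
    [CommRing R] (φ : Ch i →+* R) (ψ : B →+* R)
    (h : φ.comp (algebraMap ℚ[X] (Ch i)) = ψ.comp (evQ a)) : Qr i B a →+* R :=
  Qr.lift ψ (φ (qb i ℚ[X] X)) (φ (qc i ℚ[X] X)) (φ (qd i ℚ[X] X))
    (by rw [← map_pow, qc_sq, map_add, map_pow])
    (by
      have h1 : ψ a = φ (qa i ℚ[X] X) := by
        have h2 := congrArg (fun k : ℚ[X] →+* R => k X) h
        simp only [RingHom.comp_apply, evQ_X] at h2
        exact h2.symm
      rw [← map_pow, qd_sq, map_Gf, h1])

section desc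

variable (i : Fin 4) {B : Type} [CommRing B] [Algebra ℚ B] (a : B) {R : Type}
    [CommRing R] (φ : Ch i →+* R) (ψ : B →+* R)
    (h : φ.comp (algebraMap ℚ[X] (Ch i)) = ψ.comp (evQ a))

theorem tens_desc_alg : (tens_desc i a φ ψ h).comp (algebraMap B (Qr i B a)) = ψ := by
  ext r
  rw [RingHom.comp_apply, tens_desc, Qr.lift_algebraMap]

theorem tens_desc_toQr : (tens_desc i a φ ψ h).comp (toQr i a) = φ := by
  refine Ch.hom_ext ?_ ?_ ?_ ?_
  · rw [RingHom.comp_apply, toQr_qa, tens_desc, Qr.lift_qa]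
    have h2 := congrArg (fun k : ℚ[X] →+* R => k X) h
    simp only [RingHom.comp_apply, evQ_X] at h2
    exact h2.symm
  · rw [RingHom.comp_apply, toQr_qb, tens_desc, Qr.lift_qb]
  · rw [RingHom.comp_apply, toQr_qc, tens_desc, Qr.lift_qc]
  · rw [RingHom.comp_apply, toQr_qd, tens_desc, Qr.lift_qd]

theorem tens_desc_unique (m : Qr i B a →+* R) (h1 : m.comp (toQr i a) = φ)
    (h2 : m.comp (algebraMap B (Qr i B a)) = ψ) : m = tens_desc i a φ ψ h := by
  refine Qr.hom_ext (fun r => ?_) ?_ ?_ ?_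
  · rw [tens_desc, Qr.lift_algebraMap, ← h2, RingHom.comp_apply]
  · rw [tens_desc, Qr.lift_qb, ← h1, RingHom.comp_apply, toQr_qb]
  · rw [tens_desc, Qr.lift_qc, ← h1, RingHom.comp_apply, toQr_qc]
  · rw [tens_desc, Qr.lift_qd, ← h1, RingHom.comp_apply, toQr_qd]

end desc

theorem tens_cond {i : Fin 4} {B : Type} [CommRing B] [Algebra ℚ B] {a : B} {R : CommRingCat.{0}}
    {u : CommRingCat.of (Ch i) ⟶ R} {v : CommRingCat.of B ⟶ R}
    (h : CommRingCat.ofHom (algebraMap ℚ[X] (Ch i)) ≫ u = CommRingCat.ofHom (evQ a) ≫ v) :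
    u.hom.comp (algebraMap ℚ[X] (Ch i)) = v.hom.comp (evQ a) :=
  congrArg CommRingCat.Hom.hom h

/-- TASK `isPushout_Qr`: the universal property of `Qr i B a`. PROOF: a cocone to a ring `R` is
`φ : Ch i →+* R` and `ψ : B →+* R` with `φ ∘ algebraMap = ψ ∘ evQ a`; the homomorphism
`Qr i B a →+* R` is `Qr.lift ψ (φ qb) (φ qc) (φ qd)`, unique by `Qr.hom_ext` and `Qr.hom_ext` for
`Ch i` (`CommRingCat`: `IsPushout.of_isColimit`, `PushoutCocone.IsColimit.mk`, or
`CommRingCat.isPushout_of_isPushout` from `Algebra.IsPushout`). -/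
theorem isPushout_Qr (i : Fin 4) {B : Type} [CommRing B] [Algebra ℚ B] (a : B) :
    IsPushout (CommRingCat.ofHom (algebraMap ℚ[X] (Ch i))) (CommRingCat.ofHom (evQ a))
      (CommRingCat.ofHom (toQr i a)) (CommRingCat.ofHom (algebraMap B (Qr i B a))) := by
  have hw : CommRingCat.ofHom (algebraMap ℚ[X] (Ch i)) ≫ CommRingCat.ofHom (toQr i a) =
      CommRingCat.ofHom (evQ a) ≫ CommRingCat.ofHom (algebraMap B (Qr i B a)) := by
    rw [← CommRingCat.ofHom_comp, ← CommRingCat.ofHom_comp, tens_comm]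
  refine ⟨⟨hw⟩, ⟨Limits.PushoutCocone.IsColimit.mk hw
    (fun s => CommRingCat.ofHom (tens_desc i a s.inl.hom s.inr.hom (tens_cond s.condition)))
    (fun s => ?_) (fun s => ?_) (fun s m h1 h2 => ?_)⟩⟩
  · ext1
    exact tens_desc_toQr i a s.inl.hom s.inr.hom (tens_cond s.condition)
  · ext1
    exact tens_desc_alg i a s.inl.hom s.inr.hom (tens_cond s.condition)
  · ext1
    exact tens_desc_unique i a s.inl.hom s.inr.hom (tens_cond s.condition) m.hom
      (congrArg CommRingCat.Hom.hom h1) (congrArg CommRingCat.Hom.hom h2)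

/-- TASK `isPullback_Qr`: `Spec` of a pushout square is a pullback square
(`AlgebraicGeometry.isPullback_SpecMap_of_isPushout` or similar). -/
theorem isPullback_Qr (i : Fin 4) {B : Type} [CommRing B] [Algebra ℚ B] (a : B) :
    IsPullback (spMap (toQr i a)) (spMap (algebraMap B (Qr i B a)))
      (spMap (algebraMap ℚ[X] (Ch i))) (spMap (evQ a)) :=
  isPullback_SpecMap_of_isPushout _ _ _ _ (isPushout_Qr i a)

end BB37
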