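import Pool.Agent.Lib.MP_bb37eb_nt.SCH.Fld
import Pool.Agent.Lib.MP_bb37eb_nt.SCH.Tens

/-!
# The surface and its projection to the projective line
-/

open AlgebraicGeometry CategoryTheory Polynomial Limits

namespace BB37

/-- the surface with its charts -/
structure Surf where
  /-- the scheme -/
  X : Scheme.{0}
  /-- the charts -/
  c : ∀ i, Sp (Ch i) ⟶ X
  op : ∀ i, IsOpenImmersion (c i)
  cov : ∀ x : X, ∃ i, ∃ y, c i y = x
  gen_eq : ∀ i j, spMap (gen i) ≫ c i = spMap (gen j) ≫ c j
  ov : ∀ i j (q : Ch i), gen i q = fg (fs j) / fg (fs i) → ∀ y : Sp (Ch i), q ∉ y.asIdeal →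
    ∃ z, c j z = c i y
  /-- the embedding in projective space -/
  emb : X ⟶ PP 9
  closed : IsClosedImmersion emb

theorem nonempty_surf : Nonempty Surf := by
  obtain ⟨X, c, h1, h2, h3, h4, e, h5⟩ := exists_surface
  exact ⟨⟨X, c, h1, h2, h3, h4, e, h5⟩⟩

instance (S : Surf) (i : Fin 4) : IsOpenImmersion (S.c i) := S.op i

instance (S : Surf) : IsClosedImmersion S.emb := S.closed

/-- the chart of the projective line below the chart `i` -/
def tau : Fin 4 → Fin 2 := ![0, 0, 1, 1]

end BB37
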