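import Pool.Agent.Lib.MP_bb37eb_nt.ST.Base
import Pool.Agent.Lib.MP_bb37eb_nt.Core.Places

/-!
# The Brauer-Manin set of a scheme over the rational numbers: definitions

These are the definitions of `ST/Statement.lean` with the adelic points written as families indexed
by `Place`; `ST/Transfer.lean` shows that nothing changes.
-/

open CategoryTheory AlgebraicGeometry TensorProduct

namespace BB37

/-- the topology of the completions -/
noncomputable instance (v : Place) : TopologicalSpace (Kv v) :=
  match v with
  | none => inferInstanceAs (TopologicalSpace ℝ)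
  | some p => inferInstanceAs (TopologicalSpace ℚ_[(p : ℕ)])

/-- the adelic points of a proper scheme -/
abbrev Adelic (Y : Scheme.{0}) : Type := ∀ v : Place, Sp (Kv v) ⟶ Y

/-- the product topology on the adelic points -/
@[reducible] noncomputable def adTop (Y : Scheme.{0}) : TopologicalSpace (Adelic Y) :=
  @Pi.topologicalSpace _ _ fun v => ptTop Y (Kv v)

/-- the rational points, embedded diagonally -/
noncomputable def ratPts (Y : Scheme.{0}) : Set (Adelic Y) :=
  Set.range fun (P : Sp ℚ ⟶ Y) (v : Place) => spMap (algebraMap ℚ (Kv v)) ≫ P

/-- the Brauer-Manin set: the values of every Brauer class come from a single class over `ℚ`;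
by the theorem of Albert, Brauer, Hasse and Noether this means that the sum of the local
invariants is zero -/
def BMset (Y : Scheme.{0}) : Set (Adelic Y) :=
  {M | ∀ α : BrClass Y, ∃ B : CSA.{0, 0} ℚ, ∀ v : Place,
    IsClassOf (Kv v) (Kv v ⊗[ℚ] B) (α.ev (Kv v) (M v))}

/-- the closure of the rational points is the Brauer-Manin set: `Y(ℚ) = Y(A)^Br` -/
def BMOnly (Y : Scheme.{0}) : Prop := @closure _ (adTop Y) (ratPts Y) = BMset Y

/-- the statement of the disproof -/
def Disproof : Prop :=
  ∃ (X : Scheme.{0}) (f : X ⟶ Sp ℚ) (p : X ⟶ PP 1),
    -- `X` is projective, smooth and geometrically integral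
    (∃ (n : ℕ) (i : X ⟶ PP n), IsClosedImmersion i) ∧ IsProper f ∧ Smooth f ∧
    GeometricallyIntegral f ∧
    -- `p` is proper and surjective, all fibres are geometrically integral, the generic fibre is
    -- smooth
    IsProper p ∧ Surjective p ∧ GeometricallyIntegral p ∧
    (∀ y : PP 1, IsGenericPoint y Set.univ → Smooth (p.fiberToSpecResidueField y)) ∧
    -- almost all fibres over rational points are smooth (they are also proper and geometrically
    -- integral)
    {P : Sp ℚ ⟶ PP 1 | ¬ Smooth (Limits.pullback.snd p P)}.Finite ∧
    -- almost all fibres over rational points satisfy `X_P(ℚ) = X_P(A)^Br`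
    {P : Sp ℚ ⟶ PP 1 | ¬ BMOnly (Limits.pullback p P)}.Finite ∧
    -- but the closure of `X(ℚ)` is strictly smaller than `X(A)^Br`
    @closure _ (adTop X) (ratPts X) ⊂ BMset X

end BB37
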