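import Pool.Agent.Lib.MP_bb37eb_nt.SCH.Nf

/-!
# The coordinate ring of the curve: it is a domain, and a statement on squares
-/

open Polynomial

namespace BB37

section

variable (K : Type) [Field K]

theorem dom_monic : (X ^ 2 - C (X ^ 3 + X) : K[X][X]).Monic :=
  monic_X_pow_sub_C _ two_ne_zero

theorem dom_degree : (X ^ 2 - C (X ^ 3 + X) : K[X][X]).degree = 2 :=
  degree_X_pow_sub_C two_pos _

theorem dom_mk_aux (f : K[X][X]) (p q : K[X]) :
    AdjoinRoot.mk f (C q * X + C p) =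
      AdjoinRoot.of f p + AdjoinRoot.of f q * AdjoinRoot.root f := by
  rw [map_add, map_mul, AdjoinRoot.mk_C, AdjoinRoot.mk_C, AdjoinRoot.mk_X, add_comm]

theorem dom_mk (p q : K[X]) :
    AdjoinRoot.mk (X ^ 2 - C (X ^ 3 + X) : K[X][X]) (C q * X + C p) =
      (Er.of K p + Er.of K q * ec K : Er K) := dom_mk_aux K _ p q

theorem dom_rep (z : Er K) : ∃ p q : K[X], z = Er.of K p + Er.of K q * ec K := by
  obtain ⟨g, hg⟩ := AdjoinRoot.mk_surjective (g := (X ^ 2 - C (X ^ 3 + X) : K[X][X])) z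
  have hdeg : (g %ₘ (X ^ 2 - C (X ^ 3 + X) : K[X][X])).degree ≤ 1 := by
    have h := degree_modByMonic_lt g (dom_monic K)
    rw [dom_degree] at h
    exact Order.le_of_lt_succ h
  have he := eq_X_add_C_of_degree_le_one hdeg
  refine ⟨(g %ₘ (X ^ 2 - C (X ^ 3 + X) : K[X][X])).coeff 0,
    (g %ₘ (X ^ 2 - C (X ^ 3 + X) : K[X][X])).coeff 1, ?_⟩
  rw [← dom_mk, ← he, ← hg]
  refine AdjoinRoot.mk_eq_mk.mpr ?_
  have h2 := modByMonic_add_div g (X ^ 2 - C (X ^ 3 + X) : K[X][X])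
  refine ⟨g /ₘ (X ^ 2 - C (X ^ 3 + X) : K[X][X]), ?_⟩
  linear_combination -h2

theorem dom_uniq (p q : K[X]) (h : Er.of K p + Er.of K q * ec K = 0) : p = 0 ∧ q = 0 := by
  rw [← dom_mk] at h
  have hd : (X ^ 2 - C (X ^ 3 + X) : K[X][X]) ∣ (C q * X + C p) := AdjoinRoot.mk_eq_zero.mp h
  have hz : (C q * X + C p : K[X][X]) = 0 := by
    by_contra hne
    refine (dom_monic K).not_dvd_of_degree_lt hne ?_ hd
    rw [dom_degree]
    exact degree_linear_lt
  constructor
  · have := congrArg (fun f : K[X][X] => f.coeff 0) hz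
    simpa using this
  · have := congrArg (fun f : K[X][X] => f.coeff 1) hz
    simpa using this

theorem dom_of_injective : Function.Injective (Er.of K) := by
  rw [injective_iff_map_eq_zero]
  intro p hp
  exact (dom_uniq K p 0 (by rw [hp, map_zero, zero_mul, add_zero])).1

theorem dom_ec_sq : ec K ^ 2 = Er.of K (X ^ 3 + X) := by
  rw [ec_sq, eb, map_add, map_pow]

theorem dom_h_degree : (X ^ 3 + X : K[X]).natDegree = 3 := by
  compute_degree!

theorem dom_h_ne : (X ^ 3 + X : K[X]) ≠ 0 := by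
  intro h
  have := dom_h_degree K
  rw [h, natDegree_zero] at this
  omega

theorem dom_parity (p q : K[X]) (h : p ^ 2 = q ^ 2 * (X ^ 3 + X)) : q = 0 := by
  by_contra hq
  have h1 := congrArg natDegree h
  rw [natDegree_pow, natDegree_mul (pow_ne_zero 2 hq) (dom_h_ne K), natDegree_pow,
    dom_h_degree] at h1
  omega

theorem dom_mul (p q p' q' : K[X]) :
    (Er.of K p + Er.of K q * ec K) * (Er.of K p' + Er.of K q' * ec K) =
      Er.of K (p * p' + q * q' * (X ^ 3 + X)) + Er.of K (p * q' + q * p') * ec K := by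
  have h := dom_ec_sq K
  rw [map_add (Er.of K) (p * p'), map_mul, map_mul, ← h, map_mul, map_add, map_mul, map_mul]
  ring

theorem dom_isDomain : IsDomain (Er K) := by
  have hnt : Nontrivial (Er K) := (dom_of_injective K).nontrivial
  have hnz : NoZeroDivisors (Er K) := by
    constructor
    intro z w hzw
    obtain ⟨p, q, rfl⟩ := dom_rep K z
    obtain ⟨p', q', rfl⟩ := dom_rep K w
    rw [dom_mul] at hzw
    obtain ⟨h1, h2⟩ := dom_uniq K _ _ hzw
    by_cases hq : q = 0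
    · subst hq
      by_cases hp : p = 0
      · left
        simp [hp]
      · right
        have h3 : p' = 0 := by
          have : p * p' = 0 := by linear_combination h1
          exact (mul_eq_zero.mp this).resolve_left hp
        have h4 : q' = 0 := by
          have : p * q' = 0 := by linear_combination h2
          exact (mul_eq_zero.mp this).resolve_left hp
        simp [h3, h4]
    · right
      have h3 : q' * (p ^ 2 - q ^ 2 * (X ^ 3 + X)) = 0 := by
        linear_combination p * h2 - q * h1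
      rcases mul_eq_zero.mp h3 with h4 | h4
      · have h5 : p' = 0 := by
          have : q * p' = 0 := by
            rw [h4] at h2
            linear_combination h2
          exact (mul_eq_zero.mp this).resolve_left hq
        simp [h4, h5]
      · exact absurd (dom_parity K p q (sub_eq_zero.mp h4)) hq
  exact NoZeroDivisors.to_isDomain _

end

section

variable (K : Type) [Field K] [CharZero K]

theorem dom_h_squarefree : Squarefree (X ^ 3 + X : K[X]) := by
  apply Separable.squarefree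
  rw [separable_def]
  have hd : derivative (X ^ 3 + X : K[X]) = C 3 * X ^ 2 + 1 := by
    simp only [derivative_add, derivative_X_pow, derivative_X]
    norm_num
  rw [hd]
  refine ⟨-(C (9 / 2) * X), 1 + C (3 / 2) * X ^ 2, ?_⟩
  have e1 : (C (9 / 2 : K) : K[X]) = 3 * C (3 / 2 : K) := by
    rw [show (3 : K[X]) = C 3 from rfl, ← C_mul]
    congr 1
    norm_num
  have e2 : (C (3 : K) : K[X]) = 2 * C (3 / 2 : K) := by
    rw [show (2 : K[X]) = C 2 from rfl, ← C_mul]
    congr 1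
    norm_num
  have e3 : 2 * C (3 / 2 : K) = (3 : K[X]) := by
    rw [show (2 : K[X]) = C 2 from rfl, ← C_mul]
    rw [show (3 : K[X]) = C 3 from rfl]
    congr 1
    norm_num
  rw [e1, e2]
  linear_combination C (3 / 2 : K) * X ^ 4 * e3

theorem dom_div (N : K[X]) : N ≠ 0 → ∀ P Q : K[X], N ^ 2 ∣ P ^ 2 + Q ^ 2 * (X ^ 3 + X) →
    N ^ 2 ∣ P * Q → N ∣ P ∧ N ∣ Q := by
  induction N using UniqueFactorizationMonoid.induction_on_prime with
  | h₁ => intro h; exact absurd rfl h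
  | h₂ u hu => intro _ P Q _ _; exact ⟨hu.dvd, hu.dvd⟩
  | h₃ N π hN hπ ih =>
    intro _ P Q h1 h2
    have hsq : π ^ 2 ∣ (π * N) ^ 2 := ⟨N ^ 2, by ring⟩
    have h1' : π ^ 2 ∣ P ^ 2 + Q ^ 2 * (X ^ 3 + X) := hsq.trans h1
    have h2' : π ^ 2 ∣ P * Q := hsq.trans h2
    have hP : π ∣ P := by
      by_contra hP
      have h3 : π ^ 2 ∣ Q := hπ.pow_dvd_of_dvd_mul_left 2 hP h2'
      have h4 : π ^ 2 ∣ P ^ 2 := by
        have h5 : π ^ 2 ∣ Q ^ 2 * (X ^ 3 + X) :=
          (h3.trans (Dvd.intro _ (by ring : Q * (Q * (X ^ 3 + X)) = Q ^ 2 * (X ^ 3 + X))))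
        exact (dvd_add_left h5).mp h1'
      have h5 : π ∣ P ^ 2 := (dvd_pow_self π two_ne_zero).trans h4
      exact hP (hπ.dvd_of_dvd_pow h5)
    have hQ : π ∣ Q := by
      by_contra hQ
      have h3 : π ^ 2 ∣ P ^ 2 := pow_dvd_pow_of_dvd hP 2
      have h4 : π ^ 2 ∣ Q ^ 2 * (X ^ 3 + X) := (dvd_add_right h3).mp h1'
      have h5 : ¬ π ∣ Q ^ 2 := fun h => hQ (hπ.dvd_of_dvd_pow h)
      have h6 : π ^ 2 ∣ (X ^ 3 + X) := hπ.pow_dvd_of_dvd_mul_left 2 h5 h4
      rw [pow_two] at h6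
      exact hπ.not_isUnit (dom_h_squarefree K π h6)
    obtain ⟨P', rfl⟩ := hP
    obtain ⟨Q', rfl⟩ := hQ
    have hπ2 : π ^ 2 ≠ 0 := pow_ne_zero 2 hπ.ne_zero
    have h3 : N ^ 2 ∣ P' ^ 2 + Q' ^ 2 * (X ^ 3 + X) := by
      refine (mul_dvd_mul_iff_left hπ2).mp ?_
      refine (dvd_of_eq (by ring)).trans (h1.trans (dvd_of_eq (by ring)))
    have h4 : N ^ 2 ∣ P' * Q' := by
      refine (mul_dvd_mul_iff_left hπ2).mp ?_
      refine (dvd_of_eq (by ring)).trans (h2.trans (dvd_of_eq (by ring)))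
    obtain ⟨h5, h6⟩ := ih hN P' Q' h3 h4
    exact ⟨mul_dvd_mul_left π h5, mul_dvd_mul_left π h6⟩

omit [CharZero K] in
theorem dom_sum (p q α : K[X]) (hα : α.natDegree ≤ 2) (h : p ^ 2 + q ^ 2 * (X ^ 3 + X) = α) :
    q = 0 := by
  by_contra hq
  have h1 : (p ^ 2).natDegree = 2 * p.natDegree := natDegree_pow _ _
  have h2 : (q ^ 2 * (X ^ 3 + X)).natDegree = 2 * q.natDegree + 3 := by
    rw [natDegree_mul (pow_ne_zero 2 hq) (dom_h_ne K), natDegree_pow, dom_h_degree]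
  rcases lt_trichotomy (p ^ 2).natDegree (q ^ 2 * (X ^ 3 + X)).natDegree with h3 | h3 | h3
  · have h4 := natDegree_add_eq_right_of_natDegree_lt h3
    rw [h] at h4
    omega
  · omega
  · have h4 := natDegree_add_eq_left_of_natDegree_lt h3
    rw [h] at h4
    omega

theorem dom_sq (u v : Er K) (hv : v ≠ 0) (α : K[X]) (β : K)
    (hα : α.natDegree ≤ 2)
    (h : u ^ 2 = v ^ 2 * (Er.of K α + algebraMap K (Er K) β * ec K)) :
    β = 0 ∧ ∃ p : K[X], α = p ^ 2 := by
  have hdom := dom_isDomain K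
  obtain ⟨v₁, v₂, rfl⟩ := dom_rep K v
  obtain ⟨P, Q, hPQ⟩ := dom_rep K (u * (Er.of K v₁ + Er.of K (-v₂) * ec K))
  have hN : (Er.of K v₁ + Er.of K v₂ * ec K) * (Er.of K v₁ + Er.of K (-v₂) * ec K) =
      Er.of K (v₁ ^ 2 - v₂ ^ 2 * (X ^ 3 + X)) := by
    rw [dom_mul]
    have e1 : v₁ * v₁ + v₂ * -v₂ * (X ^ 3 + X) = v₁ ^ 2 - v₂ ^ 2 * (X ^ 3 + X) := by ring
    have e2 : v₁ * -v₂ + v₂ * v₁ = 0 := by ring
    rw [e1, e2, map_zero, zero_mul, add_zero]
  have hN0 : v₁ ^ 2 - v₂ ^ 2 * (X ^ 3 + X) ≠ 0 := by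
    intro h0
    have h2 := dom_parity K v₁ v₂ (sub_eq_zero.mp h0)
    subst h2
    have h3 : v₁ = 0 := by
      have : v₁ ^ 2 = 0 := by linear_combination h0
      exact pow_eq_zero_iff two_ne_zero |>.mp this
    subst h3
    apply hv
    simp
  have hβ : algebraMap K (Er K) β = Er.of K (C β) := rfl
  set N : K[X] := v₁ ^ 2 - v₂ ^ 2 * (X ^ 3 + X) with hNdef
  have key : (Er.of K P + Er.of K Q * ec K) * (Er.of K P + Er.of K Q * ec K) =
      Er.of K (N ^ 2 * α) + Er.of K (N ^ 2 * C β) * ec K := by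
    rw [← hPQ]
    have : u * (Er.of K v₁ + Er.of K (-v₂) * ec K) * (u * (Er.of K v₁ + Er.of K (-v₂) * ec K)) =
      u ^ 2 * (Er.of K v₁ + Er.of K (-v₂) * ec K) ^ 2 := by ring
    rw [this, h, hβ]
    have h3 : (Er.of K v₁ + Er.of K v₂ * ec K) ^ 2 * (Er.of K v₁ + Er.of K (-v₂) * ec K) ^ 2 =
        Er.of K N ^ 2 := by rw [← mul_pow, hN]
    rw [map_mul, map_mul, map_pow, ← h3]
    ring
  rw [dom_mul, ← sub_eq_zero] at key
  have key2 : Er.of K (P * P + Q * Q * (X ^ 3 + X) - N ^ 2 * α) +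
      Er.of K (P * Q + Q * P - N ^ 2 * C β) * ec K = 0 := by
    rw [map_sub, map_sub]
    linear_combination key
  obtain ⟨k1, k2⟩ := dom_uniq K _ _ key2
  have h2C : (2 : K[X]) = C 2 := rfl
  have d1 : N ^ 2 ∣ P ^ 2 + Q ^ 2 * (X ^ 3 + X) := ⟨α, by linear_combination k1⟩
  have d2 : N ^ 2 ∣ P * Q := by
    refine ⟨C (2⁻¹ : K) * C β, ?_⟩
    have e : (C (2⁻¹ : K) : K[X]) * 2 = 1 := by
      rw [h2C, ← C_mul, inv_mul_cancel₀ two_ne_zero, C_1]
    linear_combination (C (2⁻¹ : K) : K[X]) * k2 - (P * Q) * e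
  obtain ⟨⟨p, rfl⟩, ⟨q, rfl⟩⟩ := dom_div K N hN0 P Q d1 d2
  have hN2 : N ^ 2 ≠ 0 := pow_ne_zero 2 hN0
  have s1 : p ^ 2 + q ^ 2 * (X ^ 3 + X) = α := by
    refine mul_left_cancel₀ hN2 ?_
    linear_combination k1
  have hq := dom_sum K p q α hα s1
  subst hq
  refine ⟨?_, p, ?_⟩
  · have : N ^ 2 * C β = 0 := by linear_combination -k2
    have := (mul_eq_zero.mp this).resolve_left hN2
    exact C_eq_zero.mp this
  · linear_combination -s1

end

end BB37
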