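import Pool.Agent.Lib.MP_bb37eb_nt.SCH.Nf
import Pool.Agent.Lib.MP_bb37eb_nt.SCH.DomA

/-!
# The rings `Qr i A a` are domains
-/

open Polynomial

namespace BB37

/-- TASK `Er_isDomain`: `K[b,c]/(c^2 = b^3+b)` is a domain: `X^3 + X` is not a square in the
fraction field of `K[X]` (odd degree), so `Y^2 - (X^3+X)` is irreducible over it, and `Er K` embeds
in the field `AdjoinRoot` over `FractionRing K[X]` (or `RatFunc K`) because it is free with basis
`1, c`. Alternatively directly: if `(p + q c)(p' + q' c) = 0` take norms: `(p^2 - q^2 h)(p'^2 -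
q'^2 h) = 0` in `K[X]`, `h = X^3+X`, so one factor, say `p^2 = q^2 h`, vanishes, and then
`p = q = 0` since degrees have different parity. -/
theorem Er_isDomain (K : Type) [Field K] : IsDomain (Er K) := dom_isDomain K

/-- TASK `Er_sq`: the main step. If `u` and `v ≠ 0` in `Er K` satisfy `u^2 = v^2 * (α(b) + β c)`
with `α ∈ K[X]` of degree at most 2 and `β ∈ K`, then `β = 0` and `α` is a square in `K[X]`.
PROOF: Norm and trace over `K[X]`, `h = X^3 + X` (squarefree: coprime to its derivative in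
characteristic zero), `Er K` a domain. Put `g = u / v` in the fraction field of `Er K`; `g^2 = α + β
c` is integral over `K[X]`, so `g` is. Write `g = p + q c` with `p, q` in `K(X)`; `2 p` (trace) and
`p^2 - q^2 h` (norm) are integral over `K[X]`, hence in `K[X]`, so `p ∈ K[X]`, `q^2 h ∈ K[X]`, and
`q ∈ K[X]` because `h` is squarefree. Now `p^2 + q^2 h + 2 p q c = α + β c` gives
`p^2 + q^2 h = α`, `2 p q = C β`. The degrees of `p^2` and `q^2 h` have different parity, so
`deg (q^2 h) ≤ 2`, and `q = 0` since `deg h = 3`. Hence `β = 0` and `α = p^2`. (To avoid fraction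
fields one may multiply by the conjugate of `v`: `u v̄ = P + Q c`, `N = v v̄ ∈ K[X]` nonzero,
`(P + Q c)^2 = N^2 (α + β c)`; then `N ∣ P` and `N ∣ Q`: compare `P^2 + Q^2 h = N^2 α`,
`2PQ = N^2 β`; for a prime power `π^e` exactly dividing `N`: `π^(2e) ∣ P Q` and
`π^(2e) ∣ P^2 + Q^2 h` imply `π^e ∣ P` and `π^e ∣ Q` since `π^2 ∤ h`. So `P = N p`, `Q = N q`.) -/
theorem Er_sq (K : Type) [Field K] [CharZero K] (u v : Er K) (hv : v ≠ 0) (α : K[X]) (β : K)
    (hα : α.natDegree ≤ 2)
    (h : u ^ 2 = v ^ 2 * (Er.of K α + algebraMap K (Er K) β * ec K)) :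
    β = 0 ∧ ∃ p : K[X], α = p ^ 2 := dom_sq K u v hv α β hα h

theorem dom_not_sq (K : Type) [Field K] [CharZero K] (p : K[X]) : (2 * X ^ 2 + 2 : K[X]) ≠ p ^ 2 := by
  intro h
  have h2 : (2 : K) ≠ 0 := two_ne_zero
  have hdeg : (2 * X ^ 2 + 2 : K[X]).natDegree = 2 := by
    have e : (2 * X ^ 2 + 2 : K[X]) = C 2 * X ^ 2 + C 0 * X + C 2 := by
      rw [C_0, zero_mul, add_zero]
      rfl
    rw [e]
    exact natDegree_quadratic h2
  have hp : p.natDegree ≤ 1 := by
    rw [h, natDegree_pow] at hdeg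
    omega
  obtain ⟨r, t, rfl⟩ := exists_eq_X_add_C_of_natDegree_le_one hp
  have e0 := congrArg (eval 0) h
  have e1 := congrArg (eval 1) h
  have e2 := congrArg (eval (-1)) h
  simp at e0 e1 e2
  have h3 : (4 : K) = 0 := by
    have h4 : r ^ 2 = 2 := by linear_combination (-1 / 2 : K) * e1 - (1 / 2 : K) * e2 + e0
    have h5 : r * t = 0 := by linear_combination (-1 / 4 : K) * e1 + (1 / 4 : K) * e2
    calc (4 : K) = r ^ 2 * t ^ 2 := by rw [h4, ← e0]; norm_num
      _ = (r * t) ^ 2 := by ring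
      _ = 0 := by rw [h5]; ring
  norm_num at h3

theorem dom_natDegree {K : Type} [Field K] (r t : K) :
    (C r * X ^ 2 + C t : K[X]).natDegree ≤ 2 := by
  have e : (C r * X ^ 2 + C t : K[X]) = C r * X ^ 2 + C 0 * X + C t := by
    rw [C_0, zero_mul, add_zero]
  rw [e]
  exact natDegree_quadratic_le

theorem dom_Gf (i : Fin 4) (K : Type) [Field K] (a : K) : ∃ (r t β : K),
    Gf i (algebraMap K (Er K) a) (eb K) (ec K) =
      Er.of K (C r * X ^ 2 + C t) + algebraMap K (Er K) β * ec K ∧
    (β = 0 → a = 0 ∧ r = 2 ∧ t = 2) := by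
  have hof : ∀ r t : K, Er.of K (C r * X ^ 2 + C t) =
      algebraMap K (Er K) r * eb K ^ 2 + algebraMap K (Er K) t := by
    intro r t
    rw [map_add, map_mul, map_pow]
    rfl
  fin_cases i
  · refine ⟨2 * a ^ 2, 2 * a ^ 2 + 2 * a + 2, 1, ?_, fun h => absurd h one_ne_zero⟩
    rw [hof]
    simp only [Gf, map_add, map_mul, map_pow, map_ofNat, map_one]
    ring
  · refine ⟨2 * a ^ 2 + 2 * a + 2, 2 * a ^ 2, 1, ?_, fun h => absurd h one_ne_zero⟩
    rw [hof]
    simp only [Gf, map_add, map_mul, map_pow, map_ofNat, map_one]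
    ring
  · refine ⟨2, 2 + 2 * a + 2 * a ^ 2, a ^ 2, ?_, fun h => ?_⟩
    · rw [hof]
      simp only [Gf, map_add, map_mul, map_pow, map_ofNat]
      ring
    · have h1 : a = 0 := pow_eq_zero_iff two_ne_zero |>.1 h
      subst h1
      refine ⟨rfl, rfl, by ring⟩
  · refine ⟨2 + 2 * a + 2 * a ^ 2, 2, a ^ 2, ?_, fun h => ?_⟩
    · rw [hof]
      simp only [Gf, map_add, map_mul, map_pow, map_ofNat]
      ring
    · have h1 : a = 0 := pow_eq_zero_iff two_ne_zero |>.1 h
      subst h1
      refine ⟨rfl, by ring, rfl⟩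

theorem dom_form (i : Fin 4) (K : Type) [CommRing K] (a : K) (z : Qr i K a) :
    ∃ u v : Er K, z = Qr.of i K a u + Qr.of i K a v * qd i K a := by
  obtain ⟨p, hp⟩ := Qr.exists_nf i K a z
  refine ⟨Er.of K (p 0) + Er.of K (p 1) * ec K, Er.of K (p 2) + Er.of K (p 3) * ec K, ?_⟩
  rw [hp, Qr.nf, map_add, map_add, map_mul, map_mul]
  have e1 : ∀ q : K[X], Qr.of i K a (Er.of K q) = Qr.poly i K a q := fun q => rfl
  have e2 : Qr.of i K a (ec K) = qc i K a := rfl
  rw [e1, e1, e1, e1, e2]
  ring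

theorem dom_indep (i : Fin 4) (K : Type) [CommRing K] (a : K) (u v : Er K)
    (h : Qr.of i K a u + Qr.of i K a v * qd i K a = 0) : u = 0 ∧ v = 0 := by
  rcases subsingleton_or_nontrivial (Er K) with hs | hn
  · exact ⟨Subsingleton.elim _ _, Subsingleton.elim _ _⟩
  have h1 : AdjoinRoot.mk (X ^ 2 - C (Gf i (algebraMap K (Er K) a) (eb K) (ec K)) : (Er K)[X])
      (C v * X + C u) = 0 := by
    rw [map_add, map_mul, AdjoinRoot.mk_X, AdjoinRoot.mk_C, AdjoinRoot.mk_C, add_comm]
    exact h
  rw [AdjoinRoot.mk_eq_zero] at h1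
  have hm : (X ^ 2 - C (Gf i (algebraMap K (Er K) a) (eb K) (ec K)) : (Er K)[X]).Monic :=
    monic_X_pow_sub_C _ two_ne_zero
  have hd : (X ^ 2 - C (Gf i (algebraMap K (Er K) a) (eb K) (ec K)) : (Er K)[X]).natDegree = 2 :=
    natDegree_X_pow_sub_C
  have h2 : (C v * X + C u : (Er K)[X]) = 0 := by
    by_contra hne
    refine hm.not_dvd_of_natDegree_lt hne ?_ h1
    rw [hd]
    exact (natDegree_linear_le).trans_lt (by norm_num)
  constructor
  · have := congrArg (fun q => coeff q 0) h2
    simpa using this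
  · have := congrArg (fun q => coeff q 1) h2
    simpa using this

theorem dom_norm (i : Fin 4) (K : Type) [CommRing K] (a : K) (u v : Er K) :
    (Qr.of i K a u + Qr.of i K a v * qd i K a) * (Qr.of i K a u - Qr.of i K a v * qd i K a) =
      Qr.of i K a (u ^ 2 - v ^ 2 * Gf i (algebraMap K (Er K) a) (eb K) (ec K)) := by
  have h1 : Qr.of i K a (Gf i (algebraMap K (Er K) a) (eb K) (ec K)) = qd i K a ^ 2 := by
    rw [qd_sq, map_Gf]
    rfl
  rw [map_sub, map_mul, map_pow, map_pow, h1]
  ring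

/-- TASK `Gf_not_square`: the right hand sides are not squares in the fraction field of `Er K`.
PROOF: `Er_sq` with `α`, `β` read off from `Gf`: `β = 1` for `i = 0, 1` and `β = a^2` for
`i = 2, 3`. So `i = 2` or `3` and `a = 0`, where `α = 2 X^2 + 2` is not a square in `K[X]`
(derivative: a square of a polynomial of degree 1 has its root in common with its derivative). -/
theorem Gf_not_square (i : Fin 4) (K : Type) [Field K] [CharZero K] (a : K) (u v : Er K)
    (hv : v ≠ 0) : u ^ 2 ≠ v ^ 2 * Gf i (algebraMap K (Er K) a) (eb K) (ec K) := by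
  intro h
  obtain ⟨r, t, β, h1, h2⟩ := dom_Gf i K a
  rw [h1] at h
  obtain ⟨hβ, p, hp⟩ := Er_sq K u v hv _ β (dom_natDegree r t) h
  obtain ⟨-, rfl, rfl⟩ := h2 hβ
  exact dom_not_sq K p hp

/-- TASK `Qr_isDomain_field`. PROOF: an element of `Qr i K a` is `u + v d` with `u, v ∈ Er K`
unique. If `(u + v d)(u' + v' d) = 0` then multiplying by conjugates
`(u^2 - v^2 G)(u'^2 - v'^2 G) = 0` in the domain `Er K`, so `u^2 = v^2 G`, hence `v = 0` by
`Gf_not_square` and `u = 0`. (Or: `AdjoinRoot` of an irreducible polynomial over the fraction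
field.) -/
theorem Qr_isDomain_field (i : Fin 4) (K : Type) [Field K] [CharZero K] (a : K) :
    IsDomain (Qr i K a) := by
  have hE : IsDomain (Er K) := Er_isDomain K
  have hnt : Nontrivial (Qr i K a) := by
    refine ⟨1, 0, fun h => ?_⟩
    have h1 := dom_indep i K a 1 0 (by rw [map_one, map_zero, zero_mul, add_zero, h])
    exact one_ne_zero h1.1
  have hz : ∀ u v : Er K, u ^ 2 - v ^ 2 * Gf i (algebraMap K (Er K) a) (eb K) (ec K) = 0 →
      Qr.of i K a u + Qr.of i K a v * qd i K a = 0 := by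
    intro u v h
    have hv : v = 0 := by
      by_contra hv
      exact Gf_not_square i K a u v hv (sub_eq_zero.1 h)
    subst hv
    have hu : u = 0 := by
      rw [zero_pow two_ne_zero, zero_mul, sub_zero] at h
      exact pow_eq_zero_iff two_ne_zero |>.1 h
    subst hu
    rw [map_zero, zero_mul, add_zero]
  have hnz : NoZeroDivisors (Qr i K a) := by
    refine ⟨fun {z z'} h => ?_⟩
    obtain ⟨u, v, rfl⟩ := dom_form i K a z
    obtain ⟨u', v', rfl⟩ := dom_form i K a z'
    have h1 : Qr.of i K a ((u ^ 2 - v ^ 2 * Gf i (algebraMap K (Er K) a) (eb K) (ec K)) *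
        (u' ^ 2 - v' ^ 2 * Gf i (algebraMap K (Er K) a) (eb K) (ec K))) = 0 := by
      rw [map_mul, ← dom_norm, ← dom_norm]
      calc _ = ((Qr.of i K a u + Qr.of i K a v * qd i K a) *
            (Qr.of i K a u' + Qr.of i K a v' * qd i K a)) *
            ((Qr.of i K a u - Qr.of i K a v * qd i K a) *
            (Qr.of i K a u' - Qr.of i K a v' * qd i K a)) := by ring
        _ = 0 := by rw [h, zero_mul]
    have h2 := (dom_indep i K a _ 0 (by rw [h1, map_zero, zero_mul, add_zero])).1
    rcases mul_eq_zero.1 h2 with h3 | h3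
    · exact Or.inl (hz u v h3)
    · exact Or.inr (hz u' v' h3)
  exact NoZeroDivisors.to_isDomain _

/-- TASK `Qr_isDomain`: from the case of the fraction field by `Qr.map_injective`. -/
theorem Qr_isDomain (i : Fin 4) (A : Type) [CommRing A] [IsDomain A] [CharZero A] (a : A) :
    IsDomain (Qr i A a) := by
  have hinj : Function.Injective (algebraMap A (FractionRing A)) := IsFractionRing.injective A _
  have hc : CharZero (FractionRing A) := by
    refine ⟨fun m n h => ?_⟩
    have h1 : algebraMap A (FractionRing A) (m : A) = algebraMap A (FractionRing A) (n : A) := by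
      rw [map_natCast, map_natCast, h]
    exact Nat.cast_injective (hinj h1)
  have hd := Qr_isDomain_field i (FractionRing A) (algebraMap A (FractionRing A) a)
  exact (Qr.map_injective i A a (algebraMap A (FractionRing A)) hinj).isDomain _

instance (i : Fin 4) : IsDomain (Ch i) := Qr_isDomain i ℚ[X] X

theorem qb_ne_zero (i : Fin 4) (A : Type) [CommRing A] [Nontrivial A] (a : A) :
    qb i A a ≠ 0 := by
  intro h
  have h1 := Qr.poly_injective i A a (a₁ := X) (a₂ := 0) (by rw [Qr.poly_X, h, map_zero])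
  exact X_ne_zero h1

theorem qa_ne_zero (i : Fin 4) : qa i ℚ[X] X ≠ 0 := by
  intro h
  have h1 := Qr.poly_injective i ℚ[X] X (a₁ := C X) (a₂ := 0) (by
    rw [Qr.poly_C, map_zero]; exact h)
  rw [C_eq_zero] at h1
  exact X_ne_zero h1

end BB37
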