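import Pool.Agent.Lib.MP_bb37eb_nt.SCH.SurfC

/-!
# The projection is flat and of finite presentation
-/

open AlgebraicGeometry CategoryTheory Polynomial Limits

namespace BB37

/-- TASK: `Ch i` is a torsion-free module over the principal ideal domain `ℚ[X]` (a domain in which
`ℚ[X]` embeds: `Qr.poly_injective`, `Qr.poly_C`), or free with the normal form as a basis over
`ℚ[X][X]`, hence flat. -/
theorem flat_Ch (i : Fin 4) : (algebraMap ℚ[X] (Ch i)).Flat := by
  rw [RingHom.flat_algebraMap_iff]
  have hinj : Function.Injective (algebraMap ℚ[X] (Ch i)) := by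
    have h : ((Qr.poly i ℚ[X] X).comp C : ℚ[X] →+* Ch i) = algebraMap ℚ[X] (Ch i) := rfl
    rw [← h]
    exact (Qr.poly_injective i ℚ[X] X).comp C_injective
  have : FaithfulSMul ℚ[X] (Ch i) := (faithfulSMul_iff_algebraMap_injective _ _).2 hinj
  have : Module.IsTorsionFree ℚ[X] (Ch i) := inferInstance
  infer_instance

/-- TASK: `Ch i` is of finite presentation over `ℚ[X]` (`ℚ[X]` is noetherian and `Ch i` is generated
by `qb, qc, qd`: `Algebra.FinitePresentation.of_finiteType`). -/
theorem fp_Ch (i : Fin 4) : (algebraMap ℚ[X] (Ch i)).FinitePresentation := by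
  rw [RingHom.finitePresentation_algebraMap]
  have : Algebra.FinitePresentation ℚ[X] (Er ℚ[X]) :=
    inferInstanceAs (Algebra.FinitePresentation ℚ[X]
      (AdjoinRoot (X ^ 2 - C (X ^ 3 + X) : ℚ[X][X][X])))
  exact inferInstanceAs (Algebra.FinitePresentation ℚ[X]
    (AdjoinRoot (X ^ 2 - C (Gf i (algebraMap ℚ[X] (Er ℚ[X]) X) (eb ℚ[X]) (ec ℚ[X])) :
      (Er ℚ[X])[X])))

/-- the cover of the surface by its charts -/
noncomputable def flatp_cover (S : Surf) : S.X.OpenCover :=
  .mkOfCovers (Fin 4) (fun i => Sp (Ch i)) S.c S.cov S.op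

/-- TASK: the property is local at the source (`HasRingHomProperty`, the open cover by the charts)
and stable under composition with the open immersion `kap (tau i)`; `Surf.c_p`. -/
theorem Surf.flat_p (S : Surf) : Flat S.p := by
  have hloc : IsZariskiLocalAtSource @Flat :=
    AlgebraicGeometry.HasRingHomProperty.instIsZariskiLocalAtSource (Q := RingHom.Flat)
  rw [IsZariskiLocalAtSource.iff_of_openCover (P := @Flat) (flatp_cover S)]
  intro (i : Fin 4)
  change Flat (S.c i ≫ S.p)
  rw [S.c_p]
  have : Flat (spMap (algebraMap ℚ[X] (Ch i))) := Flat.SpecMap_iff.2 (flat_Ch i)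
  infer_instance

/-- TASK: likewise. -/
theorem Surf.lfp_p (S : Surf) : LocallyOfFinitePresentation S.p := by
  have hloc : IsZariskiLocalAtSource @LocallyOfFinitePresentation :=
    AlgebraicGeometry.HasRingHomProperty.instIsZariskiLocalAtSource
      (Q := RingHom.FinitePresentation)
  rw [IsZariskiLocalAtSource.iff_of_openCover (P := @LocallyOfFinitePresentation) (flatp_cover S)]
  intro (i : Fin 4)
  change LocallyOfFinitePresentation (S.c i ≫ S.p)
  rw [S.c_p]
  have : LocallyOfFinitePresentation (spMap (algebraMap ℚ[X] (Ch i))) :=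
    (LocallyOfFinitePresentation.SpecMap_iff _).2 (fp_Ch i)
  infer_instance

/-- TASK: flat and locally of finite presentation implies universally open (Mathlib). -/
theorem Surf.uo_p (S : Surf) : UniversallyOpen S.p := by
  have := S.flat_p
  have := S.lfp_p
  infer_instance

end BB37
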