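import Pool.Agent.Lib.MP_bb37eb_nt.SCH.GIp
import Pool.Agent.Lib.MP_bb37eb_nt.SCH.FlatP

/-!
# The surface is geometrically integral
-/

open AlgebraicGeometry CategoryTheory Polynomial Limits

namespace BB37

/-- the universal property of the polynomial ring -/
theorem gif_isPushout {K : Type} [Field K] [Algebra ℚ K] :
    IsPushout (CommRingCat.ofHom (C : ℚ →+* ℚ[X])) (CommRingCat.ofHom (algebraMap ℚ K))
      (CommRingCat.ofHom (evQ (X : K[X]))) (CommRingCat.ofHom (C : K →+* K[X])) := by
  have hw : CommRingCat.ofHom (C : ℚ →+* ℚ[X]) ≫ CommRingCat.ofHom (evQ (X : K[X])) =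
      CommRingCat.ofHom (algebraMap ℚ K) ≫ CommRingCat.ofHom (C : K →+* K[X]) := by
    rw [← CommRingCat.ofHom_comp, ← CommRingCat.ofHom_comp]
    congr 1
    exact Subsingleton.elim _ _
  refine ⟨⟨hw⟩, ⟨Limits.PushoutCocone.IsColimit.mk hw
    (fun s => CommRingCat.ofHom (eval₂RingHom s.inr.hom (s.inl.hom X)))
    (fun s => ?_) (fun s => ?_) (fun s m h1 h2 => ?_)⟩⟩
  · ext1
    refine Polynomial.ringHom_ext' (Subsingleton.elim _ _) ?_
    change eval₂RingHom s.inr.hom (s.inl.hom X) (evQ (X : K[X]) X) = s.inl.hom X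
    rw [evQ_X, coe_eval₂RingHom, eval₂_X]
  · ext1
    refine RingHom.ext fun r => ?_
    change eval₂RingHom s.inr.hom (s.inl.hom X) (C r) = s.inr.hom r
    rw [coe_eval₂RingHom, eval₂_C]
  · ext1
    have h1' : m.hom.comp (evQ (X : K[X])) = s.inl.hom := congrArg CommRingCat.Hom.hom h1
    have h2' : m.hom.comp (C : K →+* K[X]) = s.inr.hom := congrArg CommRingCat.Hom.hom h2
    refine Polynomial.ringHom_ext' ?_ ?_
    · rw [h2']
      refine RingHom.ext fun r => ?_
      change s.inr.hom r = eval₂RingHom s.inr.hom (s.inl.hom X) (C r)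
      rw [coe_eval₂RingHom, eval₂_C]
    · change m.hom X = eval₂RingHom s.inr.hom (s.inl.hom X) X
      rw [coe_eval₂RingHom, eval₂_X, ← h1', RingHom.comp_apply, evQ_X]

/-- the chart `j` of the projective line over a field -/
theorem gif_isPullback (s : PP 1 ⟶ Sp ℚ) (j : Fin 2) {K : Type} [Field K] [Algebra ℚ K]
    (y : Sp K ⟶ Sp ℚ) :
    IsPullback (spMap (evQ (X : K[X]))) (spMap (C : K →+* K[X])) (kap j ≫ s) y := by
  rw [toSpQ_unique (kap j ≫ s) (spMap (C : ℚ →+* ℚ[X])), toSpQ_unique y (spMap (algebraMap ℚ K))]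
  exact isPullback_SpecMap_of_isPushout _ _ _ _ gif_isPushout

/-- the charts of the projective line over a field -/
theorem gif_chart (s : PP 1 ⟶ Sp ℚ) (j : Fin 2) {K : Type} [Field K] [Algebra ℚ K]
    (y : Sp K ⟶ Sp ℚ) :
    ∃ d : Sp K[X] ⟶ pullback s y, IsOpenImmersion d ∧
      d ≫ pullback.fst _ _ = spMap (evQ (X : K[X])) ≫ kap j ∧
      ∀ x z, kap j z = (pullback.fst s y) x → ∃ w, d w = x := by
  have h1 := gif_isPullback s j y
  have h2 : (spMap (evQ (X : K[X])) ≫ kap j) ≫ s = spMap (C : K →+* K[X]) ≫ y :=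
    toSpQ_unique _ _
  have h3 : spMap (evQ (X : K[X])) ≫ kap j =
      pullback.lift (f := s) (g := y) (spMap (evQ (X : K[X])) ≫ kap j)
        (spMap (C : K →+* K[X])) h2 ≫ pullback.fst _ _ := by
    rw [pullback.lift_fst]
  have h4 : pullback.lift (f := s) (g := y) (spMap (evQ (X : K[X])) ≫ kap j)
        (spMap (C : K →+* K[X])) h2 ≫ pullback.snd _ _ = spMap (C : K →+* K[X]) := by
    rw [pullback.lift_snd]
  have h5 : IsPullback (spMap (evQ (X : K[X]))) (pullback.lift (f := s) (g := y)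
      (spMap (evQ (X : K[X])) ≫ kap j) (spMap (C : K →+* K[X])) h2) (kap j)
      (pullback.fst s y) := by
    refine IsPullback.of_bot (v₂₁ := pullback.snd _ _) (v₂₂ := s)
      (h₃₁ := y) ?_ h3 (IsPullback.of_hasPullback _ _)
    rw [h4]
    exact h1
  refine ⟨pullback.lift (f := s) (g := y) (spMap (evQ (X : K[X])) ≫ kap j)
        (spMap (C : K →+* K[X])) h2, ?_, h3.symm, ?_⟩
  · exact MorphismProperty.of_isPullback (P := @IsOpenImmersion) h5 inferInstance
  · intro x z hxz
    obtain ⟨w, -, hw⟩ := Scheme.Pullback.exists_preimage_pullback (f := kap j)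
      (g := pullback.fst s y) z x hxz
    refine ⟨h5.isoPullback.inv w, ?_⟩
    rw [← hw, ← Scheme.Hom.comp_apply, h5.isoPullback_inv_snd]

/-- TASK `PP1_geom`: the projective line over a field `K` is integral and locally noetherian. PROOF:
the base changes of the two charts `kap 0`, `kap 1` are `Spec` of
`K ⊗[ℚ] ℚ[X] ≅ K[X]`, a noetherian domain; they cover, and they meet (in the zero ideal of `K[X]`,
`kap_overlap`); use `isIntegral_of_two`. Locally noetherian: locally of finite type over a field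
(`LocallyOfFiniteType` is stable under base change), or from the two charts. -/
theorem PP1_geom (s : PP 1 ⟶ Sp ℚ) {K : Type} [Field K] (y : Sp K ⟶ Sp ℚ) :
    IsIntegral (pullback s y) ∧ IsLocallyNoetherian (pullback s y) := by
  constructor
  · obtain ⟨φ, hφ⟩ := Spec.map_surjective y
    let : Algebra ℚ K := φ.hom.toAlgebra
    obtain ⟨d, hd1, hd2, hd3⟩ := gif_chart s 0 y
    obtain ⟨e, he1, he2, he3⟩ := gif_chart s 1 y
    refine isIntegral_of_two d e (fun x => ?_) ?_
    · obtain ⟨j, z, hz⟩ := kap_cover (pullback.fst s y x)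
      fin_cases j
      · exact Or.inl (hd3 x z hz)
      · exact Or.inr (he3 x z hz)
    · let g : Sp K[X] := (⊥ : PrimeSpectrum K[X])
      have h1 : (pullback.fst s y) (d g) = kap 0 (spMap (evQ (X : K[X])) g) := by
        rw [← Scheme.Hom.comp_apply, hd2, Scheme.Hom.comp_apply]
      have h2 : (X : ℚ[X]) ∉ (spMap (evQ (X : K[X])) g).asIdeal := by
        intro h
        have h3 : evQ (X : K[X]) X ∈ (⊥ : Ideal K[X]) := h
        rw [evQ_X, Ideal.mem_bot] at h3
        exact X_ne_zero h3
      obtain ⟨z', hz'⟩ := (kap_overlap 0 _).2 h2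
      obtain ⟨w, hw⟩ := he3 (d g) z' (hz'.trans h1.symm)
      exact ⟨g, w, hw.symm⟩
  · obtain ⟨s', hs'⟩ := PP_proper 1
    have h : IsProper s := by rw [toSpQ_unique s s']; exact hs'
    infer_instance

/-- TASK `geomInt_f`. PROOF: let `s : PP 1 ⟶ Sp ℚ` be the structure morphism (`PP_proper`),
`f = S.p ≫ s` by `toSpQ_unique`. For a field `K` the pullback of `f` along `y : Sp K ⟶ Sp ℚ` is the
pullback of `S.p` along `pullback.fst s y` (`pullbackRightPullbackFstIso` or
`IsPullback.paste_vert`). It is integral by the Mathlib instance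
`[GeometricallyIntegral f] [Flat f] [UniversallyOpen f] [IsIntegral Y] [IsLocallyNoetherian Y] :
IsIntegral (pullback f g)` and `PP1_geom`. -/
theorem Surf.geomInt_f (S : Surf) (f : S.X ⟶ Sp ℚ) : GeometricallyIntegral f := by
  obtain ⟨s, hs⟩ := PP_proper 1
  obtain rfl : f = S.p ≫ s := toSpQ_unique _ _
  rw [geometricallyIntegral_iff]
  intro K _ y Z fst snd h
  obtain ⟨hi, hn⟩ := PP1_geom s y
  have := S.geomInt_p
  have := S.flat_p
  have := S.uo_p
  have h1 : IsIntegral (pullback S.p (pullback.fst s y)) := inferInstance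
  have h2 : IsPullback (pullback.fst S.p (pullback.fst s y))
      (pullback.snd S.p (pullback.fst s y) ≫ pullback.snd s y) (S.p ≫ s) y :=
    IsPullback.paste_vert (IsPullback.of_hasPullback _ _) (IsPullback.of_hasPullback _ _)
  exact IsIntegral.of_isIso (h.isoIsPullback _ _ h2).inv

/-- TASK `proper_f`: `f` is `S.emb` composed with a proper morphism (`PP_proper`,
`toSpQ_unique`). -/
theorem Surf.proper_f (S : Surf) (f : S.X ⟶ Sp ℚ) : IsProper f := by
  obtain ⟨s, hs⟩ := PP_proper 9
  obtain rfl : f = S.emb ≫ s := toSpQ_unique _ _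
  infer_instance

end BB37
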