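import Pool.Agent.Lib.MP_bb37eb_nt.SCH.SmF
import Pool.Agent.Lib.MP_bb37eb_nt.SCH.GIf
import Pool.Agent.Lib.MP_bb37eb_nt.BRX.Strict

/-!
# Assembly of the statement
-/

open AlgebraicGeometry CategoryTheory Limits

namespace BB37

/-- the statement follows from the two arithmetic facts -/
theorem disproof_of (S : Surf)
    (h1 : ∀ P : Sp ℚ ⟶ PP 1, P ≠ P0 → BMOnly (pullback S.p P))
    (h2 : @closure _ (adTop S.X) (ratPts S.X) ⊂ BMset S.X) : Disproof := by
  obtain ⟨s, hs⟩ := PP_proper 1
  have hg : GeometricallyIntegral S.p := S.geomInt_p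
  refine ⟨S.X, S.p ≫ s, S.p, ⟨9, S.emb, S.closed⟩, S.proper_f _, S.smooth_f _, S.geomInt_f _,
    S.p_proper, inferInstance, hg, S.smooth_gen, S.smooth_rat_finite, ?_, h2⟩
  refine Set.Finite.subset (Set.finite_singleton P0) fun P hP => ?_
  by_contra hne
  exact hP (h1 P hne)

/-- the disproof -/
theorem disproof : Disproof := by
  obtain ⟨S⟩ := nonempty_surf
  exact disproof_of S S.fibre_BMOnly S.closure_ssubset

end BB37
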