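import Pool.Agent.Lib.MP_bb37eb_nt.SCH.ReesC

/-!
# Gluing rings with the same field of functions
-/

open Polynomial AlgebraicGeometry CategoryTheory HomogeneousLocalization

namespace BB37

/-- two injective homomorphisms with the same image -/
theorem reesd_equiv {A B L : Type} [CommRing A] [CommRing B] [CommRing L] (φ : A →+* L)
    (γ : B →+* L) (hφ : Function.Injective φ) (hγ : Function.Injective γ)
    (h : ∀ z, z ∈ Set.range φ ↔ z ∈ Set.range γ) :
    ∃ (e : A →+* B) (e' : B →+* A), IsIso (Spec.map (CommRingCat.ofHom e)) ∧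
      (∀ q, e (e' q) = q) ∧ ∀ z, γ (e z) = φ z := by
  have hr : φ.range = γ.range := by
    ext z
    exact h z
  let e1 : A ≃+* φ.range := RingEquiv.ofBijective φ.rangeRestrict
    ⟨fun a b hab => hφ (congrArg Subtype.val hab), φ.rangeRestrict_surjective⟩
  let e2 : B ≃+* γ.range := RingEquiv.ofBijective γ.rangeRestrict
    ⟨fun a b hab => hγ (congrArg Subtype.val hab), γ.rangeRestrict_surjective⟩
  let e3 : A ≃+* B := (e1.trans (RingEquiv.subringCongr hr)).trans e2.symm
  refine ⟨e3, e3.symm, ?_, fun q => e3.apply_symm_apply q, fun z => ?_⟩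
  · have : IsIso (CommRingCat.ofHom (e3 : A →+* B)) := e3.toCommRingCatIso.isIso_hom
    infer_instance
  · have h2 : e2 (e3 z) = RingEquiv.subringCongr hr (e1 z) := by
      simp [e3]
    exact congrArg Subtype.val h2

/-- TASK `rees_charts`: assembly of the results of `ReesA`, `ReesB`, `ReesC`.
PROOF: `X = Proj (reesGr g)`. For every `i` the ring homomorphism `γ i` is an isomorphism of `Q i`
onto its image, which is the image of `reesVal (s i) _` (`reesVal_range`); hence there is a ring
isomorphism `e i : Away (reesGr g) (reesGen g (s i)) ≃+* Q i` with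
`γ i (e i z) = reesVal (s i) _ z`. Put `c i = Spec.map (e i) ≫ reesChart g (s i)`. The four
properties are `rees_cover`, `rees_pt`, `rees_overlap` and `rees_closed`. -/
theorem rees_charts {L : Type} [Field L] [Algebra ℚ L] {n : ℕ} (g : Fin (n + 1) → L)
    {ι : Type} (s : ι → Fin (n + 1)) (hs : ∀ i, g (s i) ≠ 0)
    (hcov : ∀ j : Fin (n + 1), ∃ N : ℕ,
      reesGen g j ^ N ∈ Ideal.span (Set.range fun i => reesGen g (s i)))
    (Q : ι → Type) [∀ i, CommRing (Q i)] (γ : ∀ i, Q i →+* L)
    (hγ : ∀ i, Function.Injective (γ i))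
    (hr : ∀ i z, z ∈ Set.range (γ i) ↔
      z ∈ Algebra.adjoin ℚ (Set.range fun j => g j / g (s i))) :
    ∃ (X : Scheme.{0}) (c : ∀ i, Sp (Q i) ⟶ X), (∀ i, IsOpenImmersion (c i)) ∧
      (∀ x : X, ∃ i, ∃ y, c i y = x) ∧
      (∀ i j, spMap (γ i) ≫ c i = spMap (γ j) ≫ c j) ∧
      (∀ i j (q : Q i), γ i q = g (s j) / g (s i) → ∀ y : Sp (Q i), q ∉ y.asIdeal →
        ∃ z, c j z = c i y) ∧
      ∃ j : X ⟶ PP n, IsClosedImmersion j := by
  have he := fun i =>
    reesd_equiv (reesVal (s i) (hs i)) (γ i) (reesVal_injective (s i) (hs i)) (hγ i)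
      fun z => (reesVal_range (s i) (hs i) z).trans (hr i z).symm
  choose e e' hiso hinv he using he
  have hsurj : ∀ i (y : Spec (.of (Away (reesGr g) (reesGen g (s i))))),
      ∃ z, (Spec.map (CommRingCat.ofHom (e i))) z = y := by
    intro i y
    have := hiso i
    exact (Spec.map (CommRingCat.ofHom (e i))).surjective y
  refine ⟨Proj (reesGr g),
    fun i => Spec.map (CommRingCat.ofHom (e i)) ≫ reesChart g (s i),
    fun i => ?_, fun x => ?_, fun i j => ?_, fun i j q hq y hy => ?_, rees_closed g⟩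
  · have := hiso i
    infer_instance
  · obtain ⟨i, y, hy⟩ := rees_cover g s hcov x
    obtain ⟨z, rfl⟩ := hsurj i y
    exact ⟨i, z, by rw [← hy]; rfl⟩
  · have h1 : ∀ i, spMap (γ i) ≫ Spec.map (CommRingCat.ofHom (e i)) =
        Spec.map (CommRingCat.ofHom (reesVal (s i) (hs i))) := by
      intro i
      rw [← Spec.map_comp]
      congr 1
      ext z
      exact he i z
    rw [← Category.assoc, ← Category.assoc, h1 i, h1 j]
    exact rees_pt g (s i) (s j) (hs i) (hs j)
  · obtain ⟨z, hz⟩ := rees_overlap g (s i) (s j) (hs i) (e' i q)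
      (by rw [← he i, hinv, hq])
      ((Spec.map (CommRingCat.ofHom (e i))) y) (by
        intro hmem
        apply hy
        have h2 : e i (e' i q) ∈ y.asIdeal := hmem
        rwa [hinv] at h2)
    obtain ⟨w, rfl⟩ := hsurj j z
    exact ⟨w, hz⟩

end BB37
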