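import Pool.Agent.Lib.MP_bb37eb_nt.SCH.Dom
import Pool.Agent.Lib.MP_bb37eb_nt.SCH.ReesD

/-!
# The surface
-/

open Polynomial AlgebraicGeometry CategoryTheory

namespace BB37

/-- a field which contains the function field of the surface -/
abbrev FL : Type := AlgebraicClosure (FractionRing (MvPolynomial (Fin 2) ℚ))

/-- the function `t` -/
noncomputable def ft : FL := algebraMap (FractionRing (MvPolynomial (Fin 2) ℚ)) FL
  (algebraMap (MvPolynomial (Fin 2) ℚ) _ (MvPolynomial.X 0))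

/-- the function `x` -/
noncomputable def fx : FL := algebraMap (FractionRing (MvPolynomial (Fin 2) ℚ)) FL
  (algebraMap (MvPolynomial (Fin 2) ℚ) _ (MvPolynomial.X 1))

theorem ftx_injective : Function.Injective ((algebraMap (FractionRing (MvPolynomial (Fin 2) ℚ))
    FL).comp (algebraMap (MvPolynomial (Fin 2) ℚ) _)) :=
  (algebraMap (FractionRing (MvPolynomial (Fin 2) ℚ)) FL).injective.comp
    (IsFractionRing.injective _ _)

theorem ft_ne_zero : ft ≠ 0 := fun h => MvPolynomial.X_ne_zero (0 : Fin 2)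
  (ftx_injective (a₁ := MvPolynomial.X 0) (a₂ := 0) (by rw [map_zero]; exact h))

theorem fx_ne_zero : fx ≠ 0 := fun h => MvPolynomial.X_ne_zero (1 : Fin 2)
  (ftx_injective (a₁ := MvPolynomial.X 1) (a₂ := 0) (by rw [map_zero]; exact h))

theorem exists_fy : ∃ y : FL, y ^ 2 = fx ^ 3 + fx := IsAlgClosed.exists_pow_nat_eq _ two_pos

/-- the function `y` -/
noncomputable def fy : FL := exists_fy.choose

theorem fy_sq : fy ^ 2 = fx ^ 3 + fx := exists_fy.choose_spec

theorem exists_fw : ∃ w : FL, w ^ 2 = Gf 0 ft fx fy := IsAlgClosed.exists_pow_nat_eq _ two_pos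

/-- the function `w` -/
noncomputable def fw : FL := exists_fw.choose

theorem fw_sq : fw ^ 2 = Gf 0 ft fx fy := exists_fw.choose_spec

/-- the coordinate `a` on the four charts -/
noncomputable def fa : Fin 4 → FL := ![ft, ft, ft⁻¹, ft⁻¹]

/-- the coordinate `b` on the four charts -/
noncomputable def fb : Fin 4 → FL := ![fx, fx⁻¹, fx, fx⁻¹]

/-- the coordinate `c` on the four charts -/
noncomputable def fc : Fin 4 → FL := ![fy, fy / fx ^ 2, fy, fy / fx ^ 2]

/-- the coordinate `d` on the four charts -/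
noncomputable def fd : Fin 4 → FL := ![fw, fw / fx, fw / ft, fw / (ft * fx)]

theorem fc_sq (i : Fin 4) : fc i ^ 2 = fb i ^ 3 + fb i := by
  have h := fy_sq
  have hx := fx_ne_zero
  fin_cases i <;> simp [fb, fc] <;> field_simp <;> rw [h]
  all_goals ring

theorem fd_sq (i : Fin 4) : fd i ^ 2 = Gf i (fa i) (fb i) (fc i) := by
  have h := fw_sq
  have hx := fx_ne_zero
  have ht := ft_ne_zero
  fin_cases i <;> simp [fa, fb, fc, fd, Gf] at h ⊢ <;> field_simp <;> rw [h]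
  all_goals ring

/-- the embedding of the ring of a chart -/
noncomputable def gen (i : Fin 4) : Ch i →+* FL :=
  Ch.lift (fa i) (fb i) (fc i) (fd i) (fc_sq i) (fd_sq i)

theorem gen_qa (i : Fin 4) : gen i (qa i ℚ[X] X) = fa i := Ch.lift_qa _ _ _ _ _ _

theorem gen_qb (i : Fin 4) : gen i (qb i ℚ[X] X) = fb i := Ch.lift_qb _ _ _ _ _ _

theorem gen_qc (i : Fin 4) : gen i (qc i ℚ[X] X) = fc i := Ch.lift_qc _ _ _ _ _ _

theorem gen_qd (i : Fin 4) : gen i (qd i ℚ[X] X) = fd i := Ch.lift_qd _ _ _ _ _ _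

theorem fld_aeval (x y : FL) (p : ℚ[X][X]) :
    aevalAeval x y p = eval₂ (eval₂RingHom (algebraMap ℚ FL) x) y p := by
  have h : (aevalAeval x y : ℚ[X][X] →ₐ[ℚ] FL).toRingHom =
      eval₂RingHom (eval₂RingHom (algebraMap ℚ FL) x) y := by
    refine Polynomial.ringHom_ext' (Polynomial.ringHom_ext' (Subsingleton.elim _ _) ?_) ?_
    · simp
    · simp
  exact congrArg (fun f : ℚ[X][X] →+* FL => f p) h

theorem fld_base : Function.Injective (aevalAeval ft fx : ℚ[X][X] →ₐ[ℚ] FL) := by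
  have h : (aevalAeval ft fx : ℚ[X][X] →ₐ[ℚ] FL).toRingHom =
      ((algebraMap (FractionRing (MvPolynomial (Fin 2) ℚ)) FL).comp
        (algebraMap (MvPolynomial (Fin 2) ℚ) _)).comp
        (Bivariate.equivMvPolynomial ℚ : ℚ[X][X] ≃ₐ[ℚ] _).toRingEquiv.toRingHom := by
    refine Polynomial.ringHom_ext' (Polynomial.ringHom_ext' (Subsingleton.elim _ _) ?_) ?_
    · simp [ft, Bivariate.equivMvPolynomial_C_X]
    · simp [fx, Bivariate.equivMvPolynomial_X]
  have h2 : Function.Injective (aevalAeval ft fx : ℚ[X][X] →ₐ[ℚ] FL).toRingHom := by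
    rw [h]
    exact ftx_injective.comp (Bivariate.equivMvPolynomial ℚ).injective
  exact h2

theorem fld_inv {x y : FL} (hy : y ≠ 0)
    (h : Function.Injective (aevalAeval x y : ℚ[X][X] →ₐ[ℚ] FL)) :
    Function.Injective (aevalAeval x y⁻¹ : ℚ[X][X] →ₐ[ℚ] FL) := by
  rw [injective_iff_map_eq_zero] at h ⊢
  intro p hp
  rw [fld_aeval] at hp
  let _ : Invertible y⁻¹ := ⟨y, mul_inv_cancel₀ hy, inv_mul_cancel₀ hy⟩
  have h1 := (eval₂_reverse_eq_zero_iff (eval₂RingHom (algebraMap ℚ FL) x) y⁻¹ p).2 hp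
  have h2 : (⅟(y⁻¹) : FL) = y := rfl
  rw [h2, ← fld_aeval] at h1
  exact reverse_eq_zero.1 (h _ h1)

theorem fld_swap {x y : FL} (h : Function.Injective (aevalAeval x y : ℚ[X][X] →ₐ[ℚ] FL)) :
    Function.Injective (aevalAeval y x : ℚ[X][X] →ₐ[ℚ] FL) := by
  intro p q hpq
  have h1 : aevalAeval x y (Bivariate.swap p) = aevalAeval x y (Bivariate.swap q) := by
    rw [Bivariate.aevalAeval_swap, Bivariate.aevalAeval_swap]
    exact hpq
  exact Bivariate.swap.injective (h h1)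

theorem fld_inj' (i : Fin 4) : Function.Injective (aevalAeval (fa i) (fb i) : ℚ[X][X] →ₐ[ℚ] FL) := by
  have h0 := fld_base
  have h1 := fld_inv fx_ne_zero h0
  have h2 := fld_swap (fld_inv ft_ne_zero (fld_swap h0))
  have h3 := fld_inv fx_ne_zero h2
  fin_cases i
  · exact h0
  · exact h1
  · exact h2
  · exact h3

theorem fld_inj (i : Fin 4) : Function.Injective
    (eval₂RingHom (eval₂RingHom (algebraMap ℚ FL) (fa i)) (fb i)) := by
  intro p q hpq
  apply fld_inj' i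
  rw [fld_aeval, fld_aeval]
  exact hpq

theorem fld_comp_poly (i : Fin 4) : (gen i).comp (Qr.poly i ℚ[X] X) =
    eval₂RingHom (eval₂RingHom (algebraMap ℚ FL) (fa i)) (fb i) := by
  refine Polynomial.ringHom_ext' (Polynomial.ringHom_ext' (Subsingleton.elim _ _) ?_) ?_
  · have h := gen_qa i
    simpa [Qr.poly_C, qa] using h
  · have h := gen_qb i
    simpa [Qr.poly_X] using h

/-- TASK `gen_injective`. PROOF: `Ch i` is a domain, integral over `ℚ[X][X]` through `Qr.poly`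
(`Qr.poly_isIntegral`). The kernel of `gen i` is a prime ideal; its preimage in `ℚ[X][X]` is zero
because `fa i`, `fb i` are algebraically independent over `ℚ` (they are `t^±1`, `x^±1`; a polynomial
relation for them gives one for `t, x` after multiplying by powers of `t` and `x`, and
`ftx_injective`). Hence the kernel is zero: `Ideal.eq_bot_of_comap_eq_bot` (with
`(Qr.poly i ℚ[X] X).toAlgebra`). -/
theorem gen_injective (i : Fin 4) : Function.Injective (gen i) := by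
  have hinj : Function.Injective ((gen i).comp (Qr.poly i ℚ[X] X)) := by
    rw [fld_comp_poly]
    exact fld_inj i
  have hker : RingHom.ker (gen i) = ⊥ := by
    let _ : Algebra ℚ[X][X] (Ch i) := (Qr.poly i ℚ[X] X).toAlgebra
    have _ : Algebra.IsIntegral ℚ[X][X] (Ch i) := ⟨Qr.poly_isIntegral i ℚ[X] X⟩
    refine Ideal.eq_bot_of_comap_eq_bot (R := ℚ[X][X]) ?_
    rw [eq_bot_iff]
    intro p hp
    rw [Ideal.mem_comap, RingHom.mem_ker] at hp
    have h1 : ((gen i).comp (Qr.poly i ℚ[X] X)) p = ((gen i).comp (Qr.poly i ℚ[X] X)) 0 := by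
      rw [map_zero]
      exact hp
    rw [hinj h1]
    exact Ideal.zero_mem _
  exact (RingHom.injective_iff_ker_eq_bot _).2 hker

/-- the generators of the graded algebra -/
noncomputable def fg : Fin 10 → FL :=
  ![1, fx, fx ^ 2, fy, ft, ft * fx, ft * fx ^ 2, ft * fy, fw, fw * fx]

/-- the generators whose charts cover -/
def fs : Fin 4 → Fin 10 := ![0, 2, 4, 6]

theorem fg_ne_zero (i : Fin 4) : fg (fs i) ≠ 0 := by
  have hx := fx_ne_zero
  have ht := ft_ne_zero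
  fin_cases i <;> simp [fg, fs, hx, ht]

/-- exponents of `fg j / fg (fs i)` in the coordinates of the chart `i` -/
def fld_e : Fin 4 → Fin 10 → Fin 4 → ℕ :=
  ![![![0, 0, 0, 0], ![0, 1, 0, 0], ![0, 2, 0, 0], ![0, 0, 1, 0], ![1, 0, 0, 0],
      ![1, 1, 0, 0], ![1, 2, 0, 0], ![1, 0, 1, 0], ![0, 0, 0, 1], ![0, 1, 0, 1]],
    ![![0, 2, 0, 0], ![0, 1, 0, 0], ![0, 0, 0, 0], ![0, 0, 1, 0], ![1, 2, 0, 0],
      ![1, 1, 0, 0], ![1, 0, 0, 0], ![1, 0, 1, 0], ![0, 1, 0, 1], ![0, 0, 0, 1]],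
    ![![1, 0, 0, 0], ![1, 1, 0, 0], ![1, 2, 0, 0], ![1, 0, 1, 0], ![0, 0, 0, 0],
      ![0, 1, 0, 0], ![0, 2, 0, 0], ![0, 0, 1, 0], ![0, 0, 0, 1], ![0, 1, 0, 1]],
    ![![1, 2, 0, 0], ![1, 1, 0, 0], ![1, 0, 0, 0], ![1, 0, 1, 0], ![0, 2, 0, 0],
      ![0, 1, 0, 0], ![0, 0, 0, 0], ![0, 0, 1, 0], ![0, 1, 0, 1], ![0, 0, 0, 1]]]

theorem fld_tab (i : Fin 4) (j : Fin 10) : fg j / fg (fs i) =
    fa i ^ fld_e i j 0 * fb i ^ fld_e i j 1 * fc i ^ fld_e i j 2 * fd i ^ fld_e i j 3 := by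
  have hx := fx_ne_zero
  have ht := ft_ne_zero
  fin_cases i <;> fin_cases j <;> simp [fg, fs, fa, fb, fc, fd, fld_e] <;>
    first | (field_simp; done) | exact hx | exact ht | exact ⟨ht, hx⟩

/-- the generators which give the coordinates `a, b, c, d` of the charts -/
def fld_k : Fin 4 → Fin 4 → Fin 10 := ![![4, 1, 3, 8], ![6, 1, 3, 9], ![0, 5, 7, 8], ![2, 5, 7, 9]]

theorem fld_abcd (i : Fin 4) : fa i = fg (fld_k i 0) / fg (fs i) ∧
    fb i = fg (fld_k i 1) / fg (fs i) ∧ fc i = fg (fld_k i 2) / fg (fs i) ∧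
    fd i = fg (fld_k i 3) / fg (fs i) := by
  simp only [fld_tab]
  fin_cases i <;> simp [fld_k, fld_e]

/-- the subalgebra of a chart -/
noncomputable def fld_A (i : Fin 4) : Subalgebra ℚ FL :=
  Algebra.adjoin ℚ (Set.range fun j => fg j / fg (fs i))

theorem fld_mem (i : Fin 4) (j : Fin 10) : fg j / fg (fs i) ∈ fld_A i :=
  Algebra.subset_adjoin ⟨j, rfl⟩

theorem fld_a (i : Fin 4) : fa i ∈ fld_A i := by
  rw [(fld_abcd i).1]
  exact fld_mem i _

theorem fld_b (i : Fin 4) : fb i ∈ fld_A i := by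
  rw [(fld_abcd i).2.1]
  exact fld_mem i _

theorem fld_c (i : Fin 4) : fc i ∈ fld_A i := by
  rw [(fld_abcd i).2.2.1]
  exact fld_mem i _

theorem fld_d (i : Fin 4) : fd i ∈ fld_A i := by
  rw [(fld_abcd i).2.2.2]
  exact fld_mem i _

/-- the embedding of the ring of a chart, with values in the subalgebra -/
noncomputable def fld_gen (i : Fin 4) : Ch i →+* fld_A i :=
  Ch.lift ⟨fa i, fld_a i⟩ ⟨fb i, fld_b i⟩ ⟨fc i, fld_c i⟩ ⟨fd i, fld_d i⟩
    (Subtype.ext (fc_sq i)) (Subtype.ext (by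
      have h := map_Gf i (fld_A i).val.toRingHom (⟨fa i, fld_a i⟩ : fld_A i) ⟨fb i, fld_b i⟩
        ⟨fc i, fld_c i⟩
      exact (fd_sq i).trans h.symm))

theorem fld_gen_eq (i : Fin 4) : ((fld_A i).val.toRingHom).comp (fld_gen i) = gen i := by
  refine Ch.hom_ext ?_ ?_ ?_ ?_
  · rw [gen_qa, RingHom.comp_apply, fld_gen, Ch.lift_qa]
    rfl
  · rw [gen_qb, RingHom.comp_apply, fld_gen, Ch.lift_qb]
    rfl
  · rw [gen_qc, RingHom.comp_apply, fld_gen, Ch.lift_qc]
    rfl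
  · rw [gen_qd, RingHom.comp_apply, fld_gen, Ch.lift_qd]
    rfl

/-- TASK `gen_range`. PROOF: `⊇`: the `fg j / fg (fs i)` are, in the coordinates `a, b, c, d` of the
chart (`j = 0..9`): `i = 0`: `1, b, b^2, c, a, ab, ab^2, ac, d, db`; `i = 1`:
`b^2, b, 1, c, ab^2, ab, a, ac, db, d`; `i = 2`: `a, ab, ab^2, ac, 1, b, b^2, c, d, db`; `i = 3`:
`ab^2, ab, a, ac, b^2, b, 1, c, db, d`. `⊆`: `a, b, c, d` are among these elements, and `Ch i` is
generated by them (normal form, or: the comap of the subalgebra is everything by `Ch.hom_ext`-like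
induction). -/
theorem gen_range (i : Fin 4) (z : FL) : z ∈ Set.range (gen i) ↔
    z ∈ Algebra.adjoin ℚ (Set.range fun j => fg j / fg (fs i)) := by
  constructor
  · rintro ⟨q, rfl⟩
    have h := congrArg (fun f : Ch i →+* FL => f q) (fld_gen_eq i)
    have h' : gen i q = ((fld_gen i q : fld_A i) : FL) := h.symm
    rw [h']
    exact (fld_gen i q).2
  · intro hz
    have hle : fld_A i ≤ (gen i).toRatAlgHom.range := by
      refine Algebra.adjoin_le ?_
      rintro _ ⟨j, rfl⟩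
      have ha : fa i ∈ (gen i).toRatAlgHom.range := ⟨qa i ℚ[X] X, gen_qa i⟩
      have hb : fb i ∈ (gen i).toRatAlgHom.range := ⟨qb i ℚ[X] X, gen_qb i⟩
      have hc : fc i ∈ (gen i).toRatAlgHom.range := ⟨qc i ℚ[X] X, gen_qc i⟩
      have hd : fd i ∈ (gen i).toRatAlgHom.range := ⟨qd i ℚ[X] X, gen_qd i⟩
      show fg j / fg (fs i) ∈ (gen i).toRatAlgHom.range
      rw [fld_tab]
      exact mul_mem (mul_mem (mul_mem (pow_mem ha _) (pow_mem hb _)) (pow_mem hc _))
        (pow_mem hd _)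
    obtain ⟨q, hq⟩ := hle hz
    exact ⟨q, hq⟩

/-- TASK `fg_cover`: the square of every generator lies in the ideal spanned by the generators
`0, 2, 4, 6`. PROOF: `(xT)^2 = (1T)(x^2T)`; `(yT)^2 = (xT)(x^2T) + (xT)(1T)`; `(txT)^2 =
(tT)(tx^2T)`; `(tyT)^2 = (tx T)(t x^2 T) + (txT)(tT)`; `(wT)^2 = 2 (txT)^2 + 2 (tT)^2 + 2 (tT)(1T) +
(yT)(1T) + 2 (1T)^2`; `(wxT)^2 = 2 (t x^2 T)^2 + 2 (t x T)^2 + 2 (t x T)(x T) + (yT)(x^2T) +
2 (xT)^2` (then take the power 4 instead of 2 where squares of `xT`, `txT` occur, or note that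
these squares are in the ideal as well). -/
theorem fg_cover (j : Fin 10) : ∃ N : ℕ,
    reesGen fg j ^ N ∈ Ideal.span (Set.range fun i => reesGen fg (fs i)) := by
  obtain ⟨I, hI⟩ : ∃ I, I = Ideal.span (Set.range fun i => reesGen fg (fs i)) := ⟨_, rfl⟩
  have h0 : reesGen fg 0 ∈ I := hI ▸ Ideal.subset_span ⟨0, rfl⟩
  have h2 : reesGen fg 2 ∈ I := hI ▸ Ideal.subset_span ⟨1, rfl⟩
  have h4 : reesGen fg 4 ∈ I := hI ▸ Ideal.subset_span ⟨2, rfl⟩
  have h6 : reesGen fg 6 ∈ I := hI ▸ Ideal.subset_span ⟨3, rfl⟩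
  rw [← hI]
  have hy : (C fy : FL[X]) ^ 2 = C fx ^ 3 + C fx := by
    rw [← map_pow, fy_sq, map_add, map_pow]
  have hw : (C fw : FL[X]) ^ 2 = C ft ^ 2 * (2 * C fx ^ 2 + 2) + 2 * C ft + (C fy + 2) := by
    rw [← map_pow, fw_sq, map_Gf]
    rfl
  have f0 : (fg 0 : FL) = 1 := rfl
  have f1 : (fg 1 : FL) = fx := rfl
  have f2 : (fg 2 : FL) = fx ^ 2 := rfl
  have f3 : (fg 3 : FL) = fy := rfl
  have f4 : (fg 4 : FL) = ft := rfl
  have f5 : (fg 5 : FL) = ft * fx := rfl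
  have f6 : (fg 6 : FL) = ft * fx ^ 2 := rfl
  have f7 : (fg 7 : FL) = ft * fy := rfl
  have f8 : (fg 8 : FL) = fw := rfl
  have f9 : (fg 9 : FL) = fw * fx := rfl
  have e1 : reesGen fg 1 ^ 2 = reesGen fg 0 * reesGen fg 2 := by
    apply Subtype.ext
    simp only [SubmonoidClass.coe_pow, MulMemClass.coe_mul, coe_reesGen, f0, f1, f2, map_one,
      map_pow]
    ring
  have e3 : reesGen fg 3 ^ 2 = reesGen fg 1 * reesGen fg 2 + reesGen fg 1 * reesGen fg 0 := by
    apply Subtype.ext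
    simp only [SubmonoidClass.coe_pow, MulMemClass.coe_mul, AddMemClass.coe_add, coe_reesGen, f0,
      f1, f2, f3, map_one, map_pow]
    linear_combination X ^ 2 * hy
  have e5 : reesGen fg 5 ^ 2 = reesGen fg 4 * reesGen fg 6 := by
    apply Subtype.ext
    simp only [SubmonoidClass.coe_pow, MulMemClass.coe_mul, coe_reesGen, f4, f5, f6, map_mul,
      map_pow]
    ring
  have e7 : reesGen fg 7 ^ 2 = reesGen fg 5 * reesGen fg 6 + reesGen fg 5 * reesGen fg 4 := by
    apply Subtype.ext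
    simp only [SubmonoidClass.coe_pow, MulMemClass.coe_mul, AddMemClass.coe_add, coe_reesGen, f4,
      f5, f6, f7, map_mul, map_pow]
    linear_combination C ft ^ 2 * X ^ 2 * hy
  have e8 : reesGen fg 8 ^ 2 = (reesGen fg 6 + reesGen fg 6) * reesGen fg 4 +
      (reesGen fg 4 + reesGen fg 4) * reesGen fg 4 + (reesGen fg 4 + reesGen fg 4) * reesGen fg 0 +
      reesGen fg 3 * reesGen fg 0 + (reesGen fg 0 + reesGen fg 0) * reesGen fg 0 := by
    apply Subtype.ext
    simp only [SubmonoidClass.coe_pow, MulMemClass.coe_mul, AddMemClass.coe_add, coe_reesGen, f0,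
      f3, f4, f6, f8, map_mul, map_pow, map_one]
    linear_combination X ^ 2 * hw
  have e9 : reesGen fg 9 ^ 2 = (reesGen fg 6 + reesGen fg 6) * reesGen fg 6 +
      (reesGen fg 4 + reesGen fg 4) * reesGen fg 6 + (reesGen fg 6 + reesGen fg 6) * reesGen fg 0 +
      reesGen fg 3 * reesGen fg 2 + (reesGen fg 2 + reesGen fg 2) * reesGen fg 0 := by
    apply Subtype.ext
    simp only [SubmonoidClass.coe_pow, MulMemClass.coe_mul, AddMemClass.coe_add, coe_reesGen, f0,
      f2, f3, f4, f6, f9, map_mul, map_pow, map_one]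
    linear_combination C fx ^ 2 * X ^ 2 * hw
  have m := fun (a : ReesA fg) {b : ReesA fg} (hb : b ∈ I) => I.mul_mem_left a hb
  fin_cases j
  · exact ⟨1, by simpa using h0⟩
  · exact ⟨2, by
      show reesGen fg 1 ^ 2 ∈ I
      rw [e1]
      exact m _ h2⟩
  · exact ⟨1, by simpa using h2⟩
  · exact ⟨2, by
      show reesGen fg 3 ^ 2 ∈ I
      rw [e3]
      exact I.add_mem (m _ h2) (m _ h0)⟩
  · exact ⟨1, by simpa using h4⟩
  · exact ⟨2, by
      show reesGen fg 5 ^ 2 ∈ I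
      rw [e5]
      exact m _ h6⟩
  · exact ⟨1, by simpa using h6⟩
  · exact ⟨2, by
      show reesGen fg 7 ^ 2 ∈ I
      rw [e7]
      exact I.add_mem (m _ h6) (m _ h4)⟩
  · exact ⟨2, by
      show reesGen fg 8 ^ 2 ∈ I
      rw [e8]
      exact I.add_mem (I.add_mem (I.add_mem (I.add_mem (m _ h4) (m _ h4)) (m _ h0)) (m _ h0))
        (m _ h0)⟩
  · exact ⟨2, by
      show reesGen fg 9 ^ 2 ∈ I
      rw [e9]
      exact I.add_mem (I.add_mem (I.add_mem (I.add_mem (m _ h6) (m _ h6)) (m _ h0)) (m _ h2))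
        (m _ h0)⟩

/-- the surface with its four charts -/
theorem exists_surface :
    ∃ (X : Scheme.{0}) (c : ∀ i, Sp (Ch i) ⟶ X), (∀ i, IsOpenImmersion (c i)) ∧
      (∀ x : X, ∃ i, ∃ y, c i y = x) ∧
      (∀ i j, spMap (gen i) ≫ c i = spMap (gen j) ≫ c j) ∧
      (∀ i j (q : Ch i), gen i q = fg (fs j) / fg (fs i) → ∀ y : Sp (Ch i), q ∉ y.asIdeal →
        ∃ z, c j z = c i y) ∧
      ∃ j : X ⟶ PP 9, IsClosedImmersion j :=
  rees_charts (n := 9) fg fs fg_ne_zero fg_cover (fun i => Ch i) gen gen_injective gen_range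

end BB37
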