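import Pool.Agent.Lib.MP_bb37eb_nt.SCH.Defs

/-!
# A scheme covered by two integral open subschemes which meet is integral
-/

open AlgebraicGeometry CategoryTheory

namespace BB37

private theorem gip_stalk {W U : Scheme.{0}} (d : U ⟶ W) [IsOpenImmersion d] [IsReduced U] (y : U) :
    _root_.IsReduced (W.presheaf.stalk (d y)) := by
  have h1 : Function.Injective (d.stalkMap y) :=
    (ConcreteCategory.bijective_of_isIso (d.stalkMap y)).1
  exact isReduced_of_injective (d.stalkMap y).hom h1

private theorem gip_preirr {W U : Scheme.{0}} (d : U ⟶ W) [IsIntegral U] :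
    IsPreirreducible (Set.range d) := by
  rw [← Set.image_univ]
  exact (PreirreducibleSpace.isPreirreducible_univ (X := U)).image _ d.continuous.continuousOn

/-- A scheme covered by two integral open subschemes which meet is
integral. PROOF: reducedness is local; irreducible: a nonempty open set meets one of the two, say
`U`, hence is dense in `U`, hence meets `U ∩ V`, hence is dense in `V` (so any two nonempty open
sets meet). Then `isIntegral_of_irreducibleSpace_of_isReduced`. -/
theorem isIntegral_of_two {W U V : Scheme.{0}} (d : U ⟶ W) (e : V ⟶ W) [IsOpenImmersion d]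
    [IsOpenImmersion e] [IsIntegral U] [IsIntegral V] (h : ∀ x : W, (∃ y, d y = x) ∨ ∃ y, e y = x)
    (hne : ∃ y z, d y = e z) : IsIntegral W := by
  have hred : ∀ x : W, _root_.IsReduced (W.presheaf.stalk x) := by
    intro x
    rcases h x with ⟨y, rfl⟩ | ⟨y, rfl⟩
    · exact gip_stalk d y
    · exact gip_stalk e y
  have hW : IsReduced W := isReduced_of_isReduced_stalk W
  obtain ⟨y, z, hyz⟩ := hne
  have hd := gip_preirr d
  have he := gip_preirr e
  have hdo : IsOpen (Set.range d) := d.isOpenEmbedding.isOpen_range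
  have heo : IsOpen (Set.range e) := e.isOpenEmbedding.isOpen_range
  have key : ∀ A : Set W, IsOpen A → A.Nonempty → (Set.range d ∩ A).Nonempty := by
    rintro A hA ⟨a, ha⟩
    rcases h a with ⟨b, hb⟩ | ⟨b, hb⟩
    · exact ⟨a, ⟨b, hb⟩, ha⟩
    · obtain ⟨c, hc1, hc2, hc3⟩ := he (Set.range d) A hdo hA ⟨e z, ⟨z, rfl⟩, ⟨y, hyz⟩⟩
        ⟨a, ⟨b, hb⟩, ha⟩
      exact ⟨c, hc2, hc3⟩
  have hirr : IrreducibleSpace W :=
    { isPreirreducible_univ := by
        rintro A B hA hB ⟨a, -, ha⟩ ⟨b, -, hb⟩
        obtain ⟨c, -, hc2, hc3⟩ := hd A B hA hB (key A hA ⟨a, ha⟩) (key B hB ⟨b, hb⟩)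
        exact ⟨c, Set.mem_univ _, hc2, hc3⟩
      toNonempty := ⟨d y⟩ }
  exact isIntegral_of_irreducibleSpace_of_isReduced W

end BB37
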