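import Pool.Agent.Lib.MP_bb37eb_nt.SCH.SurfF
import Pool.Agent.Lib.MP_bb37eb_nt.SCH.GIpA

/-!
# The fibres of the projection are geometrically integral
-/

open AlgebraicGeometry CategoryTheory Polynomial Limits

namespace BB37

/-- the chart `i` of a fibre, in terms of the chart of the projective line -/
theorem gip_chart (S : Surf) (i : Fin 4) (j : Fin 2) (hj : tau i = j) {B : Type} [CommRing B]
    [Algebra ℚ B] (a : B) :
    ∃ d : Sp (Qr i B a) ⟶ pullback S.p (spMap (evQ a) ≫ kap j), IsOpenImmersion d ∧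
      d ≫ pullback.fst _ _ = spMap (toQr i a) ≫ S.c i ∧
      ∀ x y, S.c i y = (pullback.fst S.p (spMap (evQ a) ≫ kap j)) x → ∃ z, d z = x := by
  subst hj
  obtain ⟨d, h1, h2, -, h3⟩ := exists_fibreChart S i a
  exact ⟨d, h1, h2, h3⟩

theorem gip_two (S : Surf) (i i' : Fin 4) (j : Fin 2) (hi : tau i = j) (hi' : tau i' = j)
    (hc : ∀ k, tau k = j → k = i ∨ k = i')
    (hq : gen i (qb i ℚ[X] X ^ 2) = fg (fs i') / fg (fs i)) {K : Type} [Field K] [Algebra ℚ K]
    (a : K) : IsIntegral (pullback S.p (spMap (evQ a) ≫ kap j)) := by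
  have hz : CharZero K := algebraRat.charZero K
  have hd := Qr_isDomain_field i K a
  have hd' := Qr_isDomain_field i' K a
  obtain ⟨d, h1, h2, h3⟩ := gip_chart S i j hi a
  obtain ⟨d', h1', h2', h3'⟩ := gip_chart S i' j hi' a
  refine isIntegral_of_two d d' (fun x => ?_) ?_
  · obtain ⟨k, hk, y, hy⟩ := fibre_cover S j a x
    rcases hc k hk with rfl | rfl
    · exact Or.inl (h3 x y hy)
    · exact Or.inr (h3' x y hy)
  · let y : Sp (Qr i K a) := (⊥ : PrimeSpectrum (Qr i K a))
    have hy : qb i ℚ[X] X ^ 2 ∉ (spMap (toQr i a) y).asIdeal := by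
      intro h
      have h4 : toQr i a (qb i ℚ[X] X ^ 2) ∈ (⊥ : Ideal (Qr i K a)) := h
      rw [map_pow, toQr_qb, Ideal.mem_bot] at h4
      exact qb_ne_zero i K a (pow_eq_zero_iff two_ne_zero |>.1 h4)
    obtain ⟨z, hz⟩ := S.ov i i' _ hq _ hy
    have h5 : S.c i' z = (pullback.fst S.p (spMap (evQ a) ≫ kap j)) (d y) := by
      rw [hz, ← Scheme.Hom.comp_apply, ← Scheme.Hom.comp_apply, h2]
    obtain ⟨z', hz'⟩ := h3' _ _ h5
    exact ⟨y, z', hz'.symm⟩

/-- TASK `fibre_integral`. PROOF: the two charts `i, i'` with `tau i = tau i' = j` (`exists_fibreChart`,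
`fibre_cover`) are spectra of domains (`Qr_isDomain_field`). They meet: the zero ideal of
`Qr i K a` is mapped to a point of `S.X` in the chart `i'`, by `S.ov` with `q = qb^2` (for `i = 0, 2`:
`fg 2 / fg 0 = fx^2`, `fg 6 / fg 4 = fx^2`), because `qb ≠ 0` in `Qr i K a` (`qb_ne_zero`,
`toQr_qb`). Use the last statement of `exists_fibreChart` for `i'`. Then `isIntegral_of_two`. -/
theorem fibre_integral (S : Surf) (j : Fin 2) {K : Type} [Field K] [Algebra ℚ K] (a : K) :
    IsIntegral (pullback S.p (spMap (evQ a) ≫ kap j)) := by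
  have hx := fx_ne_zero
  have ht := ft_ne_zero
  fin_cases j
  · refine gip_two S 0 1 0 rfl rfl (by decide) ?_ a
    rw [map_pow, gen_qb]
    simp [fb, fg, fs]
  · refine gip_two S 2 3 1 rfl rfl (by decide) ?_ a
    rw [map_pow, gen_qb]
    simp [fb, fg, fs]
    field_simp

theorem gip_alg {K : Type} [Field K] (y : Sp K ⟶ PP 1) : Nonempty (Algebra ℚ K) := by
  obtain ⟨s, -⟩ := PP_proper 1
  exact ⟨((Spec.preimage (y ≫ s)).hom : ℚ →+* K).toAlgebra⟩

/-- TASK `geomInt_p`. PROOF: `GeometricallyIntegral.eq_geometrically`,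
`geometrically_iff_of_isClosedUnderIsomorphisms`; a field `K` with a morphism
`Spec K ⟶ PP 1` is a `ℚ`-algebra (through `PP_proper`), and the morphism is
`spMap (evQ a) ≫ kap j` by `P1_point`. -/
theorem Surf.geomInt_p (S : Surf) : GeometricallyIntegral S.p := by
  refine ⟨fun K _ y Z fst snd h => ?_⟩
  obtain ⟨hK⟩ := gip_alg y
  obtain ⟨j, a, rfl⟩ := P1_point y
  have h1 := fibre_integral S j a
  obtain ⟨x⟩ := h1.nonempty
  have h3 : Nonempty Z := ⟨h.isoPullback.inv x⟩
  exact isIntegral_of_isOpenImmersion h.isoPullback.hom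

end BB37
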