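import Pool.Agent.Lib.MP_bb37eb_nt.SCH.Ring

/-!
# Normal forms in `Qr i A a`
-/

open Polynomial

namespace BB37

/-- every element of `R[X] / (X ^ 2 - g)` is `u + v * root` -/
theorem nf_exists_root {R : Type} [CommRing R] (g : R) (z : AdjoinRoot (X ^ 2 - C g : R[X])) :
    ∃ u v : R, z = AdjoinRoot.of (X ^ 2 - C g : R[X]) u +
      AdjoinRoot.of (X ^ 2 - C g : R[X]) v * AdjoinRoot.root (X ^ 2 - C g : R[X]) := by
  rcases subsingleton_or_nontrivial R with hR | hR
  · refine ⟨0, 0, ?_⟩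
    have h1 : (1 : AdjoinRoot (X ^ 2 - C g : R[X])) = 0 := by
      rw [← map_one (AdjoinRoot.of (X ^ 2 - C g : R[X])), Subsingleton.elim (1 : R) 0, map_zero]
    exact eq_of_zero_eq_one h1.symm _ _
  · have hm : (X ^ 2 - C g : R[X]).Monic := monic_X_pow_sub_C g two_ne_zero
    have hd : (X ^ 2 - C g : R[X]).natDegree = 2 := natDegree_X_pow_sub_C
    obtain ⟨p, rfl⟩ := AdjoinRoot.mk_surjective z
    have h1 : AdjoinRoot.mk (X ^ 2 - C g : R[X]) p =
        AdjoinRoot.mk (X ^ 2 - C g : R[X]) (p %ₘ (X ^ 2 - C g)) := by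
      conv_lhs => rw [← modByMonic_add_div p (X ^ 2 - C g : R[X])]
      rw [map_add, map_mul, AdjoinRoot.mk_self, zero_mul, add_zero]
    have h2 : (p %ₘ (X ^ 2 - C g)).natDegree ≤ 1 := by
      have h3 := natDegree_modByMonic_lt p hm (by
        intro h
        rw [h, natDegree_one] at hd
        exact absurd hd (by norm_num))
      rw [hd] at h3
      exact Nat.lt_succ_iff.1 h3
    obtain ⟨v, u, huv⟩ := exists_eq_X_add_C_of_natDegree_le_one h2
    refine ⟨u, v, ?_⟩
    rw [h1, huv, map_add, map_mul, AdjoinRoot.mk_C, AdjoinRoot.mk_C, AdjoinRoot.mk_X, add_comm]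

/-- `u + v * root = 0` only if `u = v = 0` -/
theorem nf_root_zero {R : Type} [CommRing R] (g : R) (u v : R)
    (h : AdjoinRoot.of (X ^ 2 - C g : R[X]) u +
      AdjoinRoot.of (X ^ 2 - C g : R[X]) v * AdjoinRoot.root (X ^ 2 - C g : R[X]) = 0) :
    u = 0 ∧ v = 0 := by
  rcases subsingleton_or_nontrivial R with hR | hR
  · exact ⟨Subsingleton.elim _ _, Subsingleton.elim _ _⟩
  · have hm : (X ^ 2 - C g : R[X]).Monic := monic_X_pow_sub_C g two_ne_zero
    have hd : (X ^ 2 - C g : R[X]).degree = 2 := by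
      exact_mod_cast degree_X_pow_sub_C (n := 2) (by norm_num) g
    have h1 : AdjoinRoot.mk (X ^ 2 - C g : R[X]) (C v * X + C u) = 0 := by
      rw [map_add, map_mul, AdjoinRoot.mk_C, AdjoinRoot.mk_C, AdjoinRoot.mk_X, add_comm]
      exact h
    rw [AdjoinRoot.mk_eq_zero] at h1
    have h2 : (C v * X + C u : R[X]) = 0 := by
      by_contra hne
      refine hm.not_dvd_of_degree_lt hne ?_ h1
      rw [hd]
      exact lt_of_le_of_lt degree_linear_le (by norm_num)
    constructor
    · have h3 := congrArg (fun q : R[X] => q.coeff 0) h2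
      simpa using h3
    · have h3 := congrArg (fun q : R[X] => q.coeff 1) h2
      simpa using h3

/-- `u + v * root` is integral -/
theorem nf_root_integral {R : Type} [CommRing R] (g : R) :
    (AdjoinRoot.of (X ^ 2 - C g : R[X])).IsIntegral := by
  intro z
  obtain ⟨u, v, rfl⟩ := nf_exists_root g z
  have hroot : (AdjoinRoot.of (X ^ 2 - C g : R[X])).IsIntegralElem
      (AdjoinRoot.root (X ^ 2 - C g : R[X])) :=
    ⟨X ^ 2 - C g, monic_X_pow_sub_C g two_ne_zero, AdjoinRoot.eval₂_root _⟩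
  exact ((AdjoinRoot.of (X ^ 2 - C g : R[X])).isIntegralElem_map).add _
    (((AdjoinRoot.of (X ^ 2 - C g : R[X])).isIntegralElem_map).mul _ hroot)

theorem nf_Er_exists (A : Type) [CommRing A] (z : Er A) :
    ∃ u v : A[X], z = Er.of A u + Er.of A v * ec A :=
  nf_exists_root (X ^ 3 + X : A[X]) z

theorem nf_Er_zero (A : Type) [CommRing A] (u v : A[X]) (h : Er.of A u + Er.of A v * ec A = 0) :
    u = 0 ∧ v = 0 :=
  nf_root_zero (X ^ 3 + X : A[X]) u v h

theorem nf_Er_integral (A : Type) [CommRing A] : (Er.of A).IsIntegral :=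
  nf_root_integral (X ^ 3 + X : A[X])

theorem nf_Qr_exists (i : Fin 4) (A : Type) [CommRing A] (a : A) (z : Qr i A a) :
    ∃ u v : Er A, z = Qr.of i A a u + Qr.of i A a v * qd i A a :=
  nf_exists_root (Gf i (algebraMap A (Er A) a) (eb A) (ec A)) z

theorem nf_Qr_zero (i : Fin 4) (A : Type) [CommRing A] (a : A) (u v : Er A)
    (h : Qr.of i A a u + Qr.of i A a v * qd i A a = 0) : u = 0 ∧ v = 0 :=
  nf_root_zero (Gf i (algebraMap A (Er A) a) (eb A) (ec A)) u v h

theorem nf_Qr_integral (i : Fin 4) (A : Type) [CommRing A] (a : A) :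
    (Qr.of i A a).IsIntegral :=
  nf_root_integral (Gf i (algebraMap A (Er A) a) (eb A) (ec A))

variable (i : Fin 4) (A : Type) [CommRing A] (a : A)

/-- the polynomials in `b` with coefficients in `A` -/
noncomputable def Qr.poly : A[X] →+* Qr i A a := (Qr.of i A a).comp (Er.of A)

theorem Qr.poly_C (r : A) : Qr.poly i A a (C r) = algebraMap A _ r := rfl

theorem Qr.poly_X : Qr.poly i A a X = qb i A a := rfl

/-- the element with given coordinates -/
noncomputable def Qr.nf (p : Fin 4 → A[X]) : Qr i A a :=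
  Qr.poly i A a (p 0) + Qr.poly i A a (p 1) * qc i A a + Qr.poly i A a (p 2) * qd i A a +
    Qr.poly i A a (p 3) * (qc i A a * qd i A a)

theorem nf_Qr_eq (p : Fin 4 → A[X]) : Qr.nf i A a p =
    Qr.of i A a (Er.of A (p 0) + Er.of A (p 1) * ec A) +
      Qr.of i A a (Er.of A (p 2) + Er.of A (p 3) * ec A) * qd i A a := by
  rw [Qr.nf, Qr.poly, map_add, map_add, map_mul, map_mul, qc]
  simp only [RingHom.comp_apply]
  ring

/-- TASK `Qr.exists_nf`. PROOF: `Er A` is `AdjoinRoot` of a monic polynomial of degree 2 over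
`A[X]`, so every element is `of p + of q * root` (`AdjoinRoot.powerBasis'`, or: the set of these
elements is closed under addition and multiplication because of `ec_sq`, and use
`AdjoinRoot.induction_on` / `AdjoinRoot.mk_surjective` with `Polynomial.modByMonic`). The same over
`Er A` for `Qr`. -/
theorem Qr.exists_nf (z : Qr i A a) : ∃ p : Fin 4 → A[X], z = Qr.nf i A a p := by
  obtain ⟨u, v, rfl⟩ := nf_Qr_exists i A a z
  obtain ⟨p0, p1, rfl⟩ := nf_Er_exists A u
  obtain ⟨p2, p3, rfl⟩ := nf_Er_exists A v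
  refine ⟨![p0, p1, p2, p3], ?_⟩
  rw [nf_Qr_eq]
  rfl

/-- TASK `Qr.nf_inj`: uniqueness of the normal form. PROOF: the same power bases: an element
`u + v * root` of `AdjoinRoot f` (`f` monic of degree 2) is zero iff `u = v = 0`
(`AdjoinRoot.mk_eq_zero`, `Polynomial.Monic.not_dvd_of_degree_lt`). -/
theorem Qr.nf_inj (p : Fin 4 → A[X]) (h : Qr.nf i A a p = 0) : p = 0 := by
  rw [nf_Qr_eq] at h
  obtain ⟨h1, h2⟩ := nf_Qr_zero i A a _ _ h
  obtain ⟨h3, h4⟩ := nf_Er_zero A _ _ h1
  obtain ⟨h5, h6⟩ := nf_Er_zero A _ _ h2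
  funext j
  fin_cases j
  · exact h3
  · exact h4
  · exact h5
  · exact h6

/-- TASK `Qr.poly_isIntegral`: `qc` and `qd` are integral, `Qr` is generated by them. -/
theorem Qr.poly_isIntegral : (Qr.poly i A a).IsIntegral :=
  (nf_Er_integral A).trans _ _ (nf_Qr_integral i A a)

theorem Qr.poly_injective : Function.Injective (Qr.poly i A a) := by
  rw [injective_iff_map_eq_zero]
  intro p hp
  have h := Qr.nf_inj i A a (Pi.single 0 p) (by simp [Qr.nf, hp])
  have h0 := congrFun h 0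
  simpa using h0

/-- TASK `Qr.map_injective`: the canonical homomorphism `Qr i A a → Qr i B (φ a)` is injective if
`φ : A → B` is. PROOF: by `Qr.exists_nf` and `Qr.nf_inj`; the image of `nf p` is `nf (map p)`. -/
theorem Qr.map_injective {B : Type} [CommRing B] (φ : A →+* B) (hφ : Function.Injective φ) :
    Function.Injective (Qr.lift (i := i) (a := a) ((algebraMap B (Qr i B (φ a))).comp φ)
      (qb i B (φ a)) (qc i B (φ a)) (qd i B (φ a)) (qc_sq _ _ _) (qd_sq _ _ _)) := by
  set ψ := Qr.lift (i := i) (a := a) ((algebraMap B (Qr i B (φ a))).comp φ)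
      (qb i B (φ a)) (qc i B (φ a)) (qd i B (φ a)) (qc_sq _ _ _) (qd_sq _ _ _) with hψ
  have hpoly : ψ.comp (Qr.poly i A a) = (Qr.poly i B (φ a)).comp (Polynomial.mapRingHom φ) := by
    refine Polynomial.ringHom_ext (fun r => ?_) ?_
    · rw [RingHom.comp_apply, RingHom.comp_apply, Qr.poly_C, coe_mapRingHom, map_C, Qr.poly_C, hψ,
        Qr.lift_algebraMap, RingHom.comp_apply]
    · rw [RingHom.comp_apply, RingHom.comp_apply, Qr.poly_X, coe_mapRingHom, map_X, Qr.poly_X, hψ,
        Qr.lift_qb]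
  have hpoly' : ∀ p : A[X], ψ (Qr.poly i A a p) = Qr.poly i B (φ a) (p.map φ) := fun p =>
    congrArg (fun k : A[X] →+* Qr i B (φ a) => k p) hpoly
  have hc : ψ (qc i A a) = qc i B (φ a) := Qr.lift_qc _ _ _ _ _ _
  have hd : ψ (qd i A a) = qd i B (φ a) := Qr.lift_qd _ _ _ _ _ _
  rw [injective_iff_map_eq_zero]
  intro z hz
  obtain ⟨p, rfl⟩ := Qr.exists_nf i A a z
  have h1 : ψ (Qr.nf i A a p) = Qr.nf i B (φ a) (fun j => (p j).map φ) := by
    rw [Qr.nf, Qr.nf, map_add, map_add, map_add, map_mul, map_mul, map_mul, map_mul, hpoly',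
      hpoly', hpoly', hpoly', hc, hd]
  rw [h1] at hz
  have h2 := Qr.nf_inj i B (φ a) _ hz
  have h3 : p = 0 := by
    funext j
    have h4 : (p j).map φ = 0 := congrFun h2 j
    exact (Polynomial.map_eq_zero_iff hφ).1 h4
  rw [h3]
  simp [Qr.nf]

end BB37
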