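import Pool.Agent.Lib.MP_bb37eb_nt.SCH.Defs

/-!
# A graded subalgebra of `L[T]`: definitions

`ReesA g` is the subalgebra of `L[T]` generated by the elements `g i * T`. Its degree `m` part
consists of the elements of the form `l T^m`.
-/

open Polynomial AlgebraicGeometry CategoryTheory HomogeneousLocalization

namespace BB37

variable {L : Type} [Field L] [Algebra ℚ L] {n : ℕ} (g : Fin n → L)

/-- the subalgebra of `L[T]` generated by the `g i * T` -/
noncomputable def ReesA : Subalgebra ℚ L[X] := Algebra.adjoin ℚ (Set.range fun i => C (g i) * X)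

/-- the generators -/
noncomputable def reesGen (i : Fin n) : ReesA g :=
  ⟨C (g i) * X, Algebra.subset_adjoin ⟨i, rfl⟩⟩

theorem coe_reesGen (i : Fin n) : (reesGen g i : L[X]) = C (g i) * X := rfl

/-- the graded pieces -/
def reesGr (m : ℕ) : Submodule ℚ (ReesA g) where
  carrier := {r | ∃ l : L, (r : L[X]) = monomial m l}
  add_mem' := by
    rintro a b ⟨l, h⟩ ⟨l', h'⟩
    exact ⟨l + l', by rw [Subalgebra.coe_add, h, h', map_add]⟩
  zero_mem' := ⟨0, by simp⟩
  smul_mem' := by
    rintro c a ⟨l, h⟩
    refine ⟨algebraMap ℚ L c * l, ?_⟩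
    rw [Subalgebra.coe_smul, h, Algebra.smul_def, Polynomial.algebraMap_apply, C_mul_monomial]

theorem mem_reesGr {m : ℕ} {r : ReesA g} : r ∈ reesGr g m ↔ ∃ l : L, (r : L[X]) = monomial m l :=
  Iff.rfl

theorem reesGen_mem (i : Fin n) : reesGen g i ∈ reesGr g 1 :=
  ⟨g i, (coe_reesGen g i).trans C_mul_X_eq_monomial⟩

/-- the graded pieces form a graded monoid -/
instance reesGr_gradedMonoid : SetLike.GradedMonoid (reesGr g) where
  one_mem := ⟨1, by simp⟩
  mul_mem := by
    rintro i j a b ⟨l, h⟩ ⟨l', h'⟩
    exact ⟨l * l', by rw [MulMemClass.coe_mul, h, h', monomial_mul_monomial]⟩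

/-- TASK `ReesA_component`: the homogeneous components of an element of the subalgebra lie in the
subalgebra. PROOF: the set of `r ∈ L[X]` all of whose components `monomial m (r.coeff m)` lie in
`ReesA g` is a subalgebra (`coeff_mul`: the component of degree `m` of a product is
`∑ over antidiagonal of monomial i _ * monomial j _`) and contains the generators
`C (g i) * X = monomial 1 (g i)`; use `Algebra.adjoin_induction`. -/
theorem ReesA_component (r : L[X]) (hr : r ∈ ReesA g) (m : ℕ) :
    monomial m (r.coeff m) ∈ ReesA g := by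
  revert m
  refine Algebra.adjoin_induction
    (p := fun (r : L[X]) _ => ∀ m, monomial m (r.coeff m) ∈ ReesA g) ?_ ?_ ?_ ?_ hr
  · rintro _ ⟨i, rfl⟩ m
    dsimp only
    rw [C_mul_X_eq_monomial, coeff_monomial]
    split_ifs with h
    · subst h
      rw [← C_mul_X_eq_monomial]
      exact Algebra.subset_adjoin ⟨i, rfl⟩
    · rw [map_zero]
      exact zero_mem _
  · intro c m
    rw [Polynomial.algebraMap_apply, coeff_C]
    split_ifs with h
    · subst h
      rw [monomial_zero_left, ← Polynomial.algebraMap_apply]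
      exact Subalgebra.algebraMap_mem _ _
    · rw [map_zero]
      exact zero_mem _
  · intro a b _ _ ha hb m
    rw [coeff_add, map_add]
    exact add_mem (ha m) (hb m)
  · intro a b _ _ ha hb m
    rw [coeff_mul, map_sum]
    refine sum_mem fun x hx => ?_
    rw [← Finset.HasAntidiagonal.mem_antidiagonal.1 hx, ← monomial_mul_monomial]
    exact mul_mem (ha _) (hb _)

/-- the component of degree `m` -/
noncomputable def reesComp (m : ℕ) (r : ReesA g) : reesGr g m :=
  ⟨⟨monomial m ((r : L[X]).coeff m), ReesA_component g r r.2 m⟩, _, rfl⟩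

private theorem reesa_coeff (x : DirectSum ℕ fun i => reesGr g i) (m : ℕ) :
    (((DirectSum.coeAddMonoidHom (reesGr g) x : ReesA g) : L[X])).coeff m =
      (((x m : reesGr g m) : ReesA g) : L[X]).coeff m := by
  induction x using DirectSum.induction_on with
  | zero => simp
  | of i y =>
    rw [DirectSum.coeAddMonoidHom_of]
    by_cases h : i = m
    · subst h
      rw [DirectSum.of_eq_same]
    · rw [DirectSum.of_eq_of_ne _ _ _ (Ne.symm h)]
      obtain ⟨l, hl⟩ := y.2
      rw [hl, coeff_monomial, if_neg h]
      simp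
  | add x y hx hy =>
    rw [map_add, DirectSum.add_apply, Submodule.coe_add, Subalgebra.coe_add, Subalgebra.coe_add,
      coeff_add, coeff_add, hx, hy]

private noncomputable def reesa_dec (r : ReesA g) : DirectSum ℕ fun i => reesGr g i :=
  DirectSum.mk (fun i => reesGr g i) (r : L[X]).support fun m => reesComp g m r

private theorem reesa_dec_coe (r : ReesA g) (m : ℕ) :
    (((reesa_dec g r m : reesGr g m) : ReesA g) : L[X]) = monomial m ((r : L[X]).coeff m) := by
  unfold reesa_dec
  by_cases h : m ∈ (r : L[X]).support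
  · rw [DirectSum.mk_apply_of_mem h]
    rfl
  · rw [DirectSum.mk_apply_of_notMem h, notMem_support_iff.1 h, map_zero]
    rfl

/-- TASK `reesGr_decomposition`: an instance of `DirectSum.Decomposition (reesGr g)`. The map
`decompose'` sends `r` to `∑ m ∈ (r : L[X]).support, DirectSum.of _ m (reesComp g m r)` (or
`DirectSum.mk`, or use `DirectSum.Decomposition.ofLinearMap` / `ofAddHom`); the two inverse laws
follow from `Polynomial.sum_monomial_eq` and from `coeff_monomial`. -/
noncomputable instance reesGr_decomposition : DirectSum.Decomposition (reesGr g) where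
  decompose' := reesa_dec g
  left_inv r := by
    apply Subtype.ext
    ext m
    rw [reesa_coeff, reesa_dec_coe, coeff_monomial, if_pos rfl]
  right_inv x := by
    refine DFinsupp.ext fun m => Subtype.ext (Subtype.ext ?_)
    rw [reesa_dec_coe, reesa_coeff]
    obtain ⟨l, hl⟩ := (x m).2
    rw [hl, coeff_monomial, if_pos rfl]

/-- the grading -/
noncomputable instance reesGr_graded : GradedAlgebra (reesGr g) where

variable {g}

/-- the value of `T` is `1 / g i` -/
noncomputable def reesEval (i : Fin n) : ReesA g →+* L :=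
  (eval₂RingHom (RingHom.id L) (g i)⁻¹).comp (ReesA g).val.toRingHom

theorem reesEval_gen (i j : Fin n) : reesEval i (reesGen g j) = g j / g i := by
  rw [reesEval, reesGen]
  simp [eval₂_mul, div_eq_mul_inv]

theorem reesEval_of_mem (i : Fin n) (k : ℕ) (r : ReesA g) (hr : r ∈ reesGr g k) :
    reesEval i r = (r : L[X]).coeff k / g i ^ k := by
  obtain ⟨l, hl⟩ := hr
  rw [reesEval]
  simp [hl, div_eq_mul_inv]

/-- the map from the ring of the chart `i` to `L` -/
noncomputable def reesVal (i : Fin n) (hi : g i ≠ 0) : Away (reesGr g) (reesGen g i) →+* L :=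
  (IsLocalization.Away.lift (S := Localization.Away (reesGen g i)) (reesGen g i)
    (g := reesEval i) (by rw [reesEval_gen, div_self hi]; exact isUnit_one)).comp
    (algebraMap (Away (reesGr g) (reesGen g i)) (Localization.Away (reesGen g i)))

/-- TASK `reesVal_mk` -/
theorem reesVal_mk (i : Fin n) (hi : g i ≠ 0) (k : ℕ) (r : ReesA g) (hr : r ∈ reesGr g (k • 1)) :
    reesVal i hi (Away.mk (reesGr g) (reesGen_mem g i) k r hr) = (r : L[X]).coeff k / g i ^ k := by
  have hr' : r ∈ reesGr g k := by simpa using hr
  rw [← reesEval_of_mem i k r hr', reesVal, RingHom.comp_apply,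
    HomogeneousLocalization.algebraMap_apply, Away.val_mk, Localization.mk_eq_mk',
    IsLocalization.Away.lift, IsLocalization.lift_mk'_spec]
  rw [map_pow, reesEval_gen, div_self hi, one_pow, one_mul]

/-- TASK `reesVal_injective`: by `Away.mk_surjective` and `reesVal_mk`; if the value of
`Away.mk _ _ k r _` is `0` then `r = monomial k 0 = 0`. -/
theorem reesVal_injective (i : Fin n) (hi : g i ≠ 0) : Function.Injective (reesVal i hi) := by
  rw [injective_iff_map_eq_zero]
  intro z hz
  obtain ⟨k, r, hr, rfl⟩ := Away.mk_surjective (reesGr g) (reesGen_mem g i) z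
  rw [reesVal_mk, div_eq_zero_iff] at hz
  have hc : (r : L[X]).coeff k = 0 := by
    rcases hz with h | h
    · exact h
    · exact absurd h (pow_ne_zero k hi)
  have hr' : r ∈ reesGr g k := by simpa using hr
  have h0 : r = 0 := by
    obtain ⟨l, hl⟩ := hr'
    rw [hl, coeff_monomial, if_pos rfl] at hc
    apply Subtype.ext
    rw [hl, hc, map_zero]
    rfl
  subst h0
  apply HomogeneousLocalization.val_injective
  rw [Away.val_mk, HomogeneousLocalization.val_zero, Localization.mk_zero]

/-- TASK `reesVal_range`: the image is generated by the `g j / g i`. PROOF: `reesEval i` maps the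
generators `reesGen g j` to `g j / g i`, so it maps `ReesA g` into the right hand side
(`Algebra.adjoin_induction`); this gives one inclusion (`reesVal (mk k r) = reesEval i r`). The
other: `g j / g i` is the value of `Away.mk _ _ 1 (reesGen g j) _`. -/
theorem reesVal_range (i : Fin n) (hi : g i ≠ 0) (z : L) :
    z ∈ Set.range (reesVal i hi) ↔ z ∈ Algebra.adjoin ℚ (Set.range fun j => g j / g i) := by
  constructor
  · rintro ⟨w, rfl⟩
    obtain ⟨k, r, hr, rfl⟩ := Away.mk_surjective (reesGr g) (reesGen_mem g i) w
    have hr' : r ∈ reesGr g k := by simpa using hr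
    rw [reesVal_mk, ← reesEval_of_mem i k r hr']
    have key : ∀ (a : L[X]), a ∈ ReesA g →
        eval₂ (RingHom.id L) (g i)⁻¹ a ∈ Algebra.adjoin ℚ (Set.range fun j => g j / g i) := by
      intro a ha
      refine Algebra.adjoin_induction (p := fun (a : L[X]) _ =>
        eval₂ (RingHom.id L) (g i)⁻¹ a ∈ Algebra.adjoin ℚ (Set.range fun j => g j / g i))
        ?_ ?_ ?_ ?_ ha
      · rintro _ ⟨j, rfl⟩
        have e : eval₂ (RingHom.id L) (g i)⁻¹ (C (g j) * X) = g j / g i := by
          simp [eval₂_mul, div_eq_mul_inv]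
        dsimp only
        rw [e]
        exact Algebra.subset_adjoin ⟨j, rfl⟩
      · intro c
        rw [Polynomial.algebraMap_apply, eval₂_C]
        exact Subalgebra.algebraMap_mem _ c
      · intro a b _ _ ha hb
        rw [eval₂_add]
        exact add_mem ha hb
      · intro a b _ _ ha hb
        rw [eval₂_mul]
        exact mul_mem ha hb
    exact key r r.2
  · intro hz
    refine Algebra.adjoin_induction (p := fun (z : L) _ => z ∈ Set.range (reesVal i hi))
      ?_ ?_ ?_ ?_ hz
    · rintro _ ⟨j, rfl⟩
      have hj : reesGen g j ∈ reesGr g (1 • 1) := by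
        rw [smul_eq_mul, mul_one]
        exact reesGen_mem g j
      refine ⟨Away.mk (reesGr g) (reesGen_mem g i) 1 (reesGen g j) hj, ?_⟩
      rw [reesVal_mk, coe_reesGen, coeff_C_mul, coeff_X_one, mul_one, pow_one]
    · intro c
      have h0 : algebraMap ℚ (ReesA g) c ∈ reesGr g (0 • 1) := by
        refine ⟨algebraMap ℚ L c, ?_⟩
        rw [zero_smul, monomial_zero_left]
        rfl
      refine ⟨Away.mk (reesGr g) (reesGen_mem g i) 0 (algebraMap ℚ (ReesA g) c) h0, ?_⟩
      rw [reesVal_mk, pow_zero, div_one]
      have e : ((algebraMap ℚ (ReesA g) c : ReesA g) : L[X]) = C (algebraMap ℚ L c) := rfl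
      rw [e, coeff_C_zero]
    · rintro _ _ _ _ ⟨a, rfl⟩ ⟨b, rfl⟩
      exact ⟨a + b, map_add _ _ _⟩
    · rintro _ _ _ _ ⟨a, rfl⟩ ⟨b, rfl⟩
      exact ⟨a * b, map_mul _ _ _⟩

end BB37
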