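import Pool.Agent.Lib.MP_bb37eb_nt.SCH.ReesA

/-!
# The charts of the projective scheme of `ReesA g` agree at the point given by the field
-/

open Polynomial AlgebraicGeometry CategoryTheory HomogeneousLocalization

namespace BB37

variable {L : Type} [Field L] [Algebra ℚ L] {n : ℕ} {g : Fin n → L}

/-- the map to `L` from the ring of a chart -/
noncomputable def reesb_val (i : Fin n) (x : ReesA g) (hu : IsUnit (reesEval i x)) :
    Away (reesGr g) x →+* L :=
  (IsLocalization.Away.lift (S := Localization.Away x) x (g := reesEval i) hu).comp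
    (algebraMap (Away (reesGr g) x) (Localization.Away x))

theorem reesb_val_mk (i : Fin n) (x : ReesA g) (hu : IsUnit (reesEval i x)) {d : ℕ}
    (hx : x ∈ reesGr g d) (k : ℕ) (r : ReesA g) (hr : r ∈ reesGr g (k • d)) :
    reesb_val i x hu (Away.mk (reesGr g) hx k r hr) * reesEval i x ^ k = reesEval i r := by
  have h2 : (Away.mk (reesGr g) hx k r hr).val *
      algebraMap (ReesA g) (Localization.Away x) (x ^ k) =
      algebraMap (ReesA g) (Localization.Away x) r := by
    rw [Away.val_mk, Localization.mk_eq_mk']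
    exact IsLocalization.mk'_spec _ _ _
  have h3 := congrArg (IsLocalization.Away.lift (S := Localization.Away x) x
    (g := reesEval i) hu) h2
  rw [map_mul, IsLocalization.Away.lift_eq, IsLocalization.Away.lift_eq, map_pow] at h3
  exact h3

/-- the value of the image of `r / f ^ k` under the map between the charts -/
theorem reesb_awayMap (i : Fin n) (x : ReesA g) (hu : IsUnit (reesEval i x)) {f f' : ReesA g}
    (hf : f ∈ reesGr g 1) (hf' : f' ∈ reesGr g 1) (hx : x = f * f') (k : ℕ) (r : ReesA g)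
    (hr : r ∈ reesGr g (k • 1)) :
    reesb_val i x hu (awayMap (reesGr g) hf' hx (Away.mk (reesGr g) hf k r hr)) *
      reesEval i x ^ k = reesEval i r * reesEval i f' ^ k := by
  rw [awayMap_mk, reesb_val_mk, map_mul, map_pow]

theorem reesb_left (i j : Fin n) (hi : g i ≠ 0) (hj : g j ≠ 0) (x : ReesA g)
    (hu : IsUnit (reesEval i x)) (hx : x = reesGen g i * reesGen g j) :
    reesVal i hi = (reesb_val i x hu).comp (awayMap (reesGr g) (reesGen_mem g j) hx) := by
  ext q
  obtain ⟨k, r, hr, rfl⟩ := Away.mk_surjective (reesGr g) (reesGen_mem g i) q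
  have hne : (g j / g i) ^ k ≠ 0 := pow_ne_zero _ (div_ne_zero hj hi)
  have h := reesb_awayMap i x hu (reesGen_mem g i) (reesGen_mem g j) hx k r hr
  have hxe : reesEval i x = g j / g i := by
    rw [hx, map_mul, reesEval_gen, reesEval_gen, div_self hi, one_mul]
  rw [hxe, reesEval_gen] at h
  have h1 : reesEval i r = (r : L[X]).coeff k / g i ^ k :=
    reesEval_of_mem i k r (by simpa using hr)
  rw [RingHom.comp_apply, reesVal_mk, ← h1]
  exact (mul_right_cancel₀ hne h).symm

theorem reesb_right (i j : Fin n) (hi : g i ≠ 0) (hj : g j ≠ 0) (x : ReesA g)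
    (hu : IsUnit (reesEval i x)) (hx : x = reesGen g j * reesGen g i) :
    reesVal j hj = (reesb_val i x hu).comp (awayMap (reesGr g) (reesGen_mem g i) hx) := by
  ext q
  obtain ⟨k, r, hr, rfl⟩ := Away.mk_surjective (reesGr g) (reesGen_mem g j) q
  have hne : (g j / g i) ^ k ≠ 0 := pow_ne_zero _ (div_ne_zero hj hi)
  have h := reesb_awayMap i x hu (reesGen_mem g j) (reesGen_mem g i) hx k r hr
  have hxe : reesEval i x = g j / g i := by
    rw [hx, map_mul, reesEval_gen, reesEval_gen, div_self hi, mul_one]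
  rw [hxe, reesEval_gen, div_self hi, one_pow, mul_one] at h
  have h1 : reesEval i r = (r : L[X]).coeff k / g i ^ k :=
    reesEval_of_mem i k r (by simpa using hr)
  rw [h1] at h
  have h2 : (r : L[X]).coeff k / g j ^ k * (g j / g i) ^ k = (r : L[X]).coeff k / g i ^ k := by
    rw [div_pow]
    field_simp
  rw [RingHom.comp_apply, reesVal_mk]
  exact mul_right_cancel₀ hne (h2.trans h.symm)

/-- two maps to a chart which factor through the overlap -/
theorem reesb_glue {A R : Type} [CommRing A] [CommRing R] [Algebra ℚ A]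
    (𝒜 : ℕ → Submodule ℚ A) [GradedAlgebra 𝒜] {f f' x : A} (hf : f ∈ 𝒜 1) (hf' : f' ∈ 𝒜 1)
    (hx : x = f * f') (hx' : x = f' * f) (v : Away 𝒜 x →+* R) (u : Away 𝒜 f →+* R)
    (u' : Away 𝒜 f' →+* R) (hu : u = v.comp (awayMap 𝒜 hf' hx))
    (hu' : u' = v.comp (awayMap 𝒜 hf hx')) :
    Spec.map (CommRingCat.ofHom u) ≫ Proj.awayι 𝒜 f hf one_pos =
      Spec.map (CommRingCat.ofHom u') ≫ Proj.awayι 𝒜 f' hf' one_pos := by
  rw [hu, hu', CommRingCat.ofHom_comp, CommRingCat.ofHom_comp, Spec.map_comp, Spec.map_comp,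
    Category.assoc, Category.assoc, Proj.SpecMap_awayMap_awayι, Proj.SpecMap_awayMap_awayι]

theorem reesb_pt (i j : Fin n) (hi : g i ≠ 0) (hj : g j ≠ 0) :
    Spec.map (CommRingCat.ofHom (reesVal i hi)) ≫
        Proj.awayι (reesGr g) (reesGen g i) (reesGen_mem g i) one_pos =
      Spec.map (CommRingCat.ofHom (reesVal j hj)) ≫
        Proj.awayι (reesGr g) (reesGen g j) (reesGen_mem g j) one_pos := by
  obtain ⟨x, hx⟩ : ∃ x, x = reesGen g i * reesGen g j := ⟨_, rfl⟩
  have hx' : x = reesGen g j * reesGen g i := hx.trans (mul_comm _ _)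
  have hu : IsUnit (reesEval i x) := by
    rw [hx, map_mul, reesEval_gen, reesEval_gen]
    exact (mul_ne_zero (div_ne_zero hi hi) (div_ne_zero hj hi)).isUnit
  exact reesb_glue (reesGr g) (reesGen_mem g i) (reesGen_mem g j) hx hx' (reesb_val i x hu)
    (reesVal i hi) (reesVal j hj) (reesb_left i j hi hj x hu hx) (reesb_right i j hi hj x hu hx')

end BB37
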