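import Pool.Agent.Lib.MP_bb37eb_nt.SCH.ReesA
import Pool.Agent.Lib.MP_bb37eb_nt.SCH.ReesPt

/-!
# The projective scheme of `ReesA g` and its charts
-/

open Polynomial AlgebraicGeometry CategoryTheory HomogeneousLocalization

namespace BB37

variable {L : Type} [Field L] [Algebra ℚ L] {n : ℕ} (g : Fin n → L)

/-- the chart `i`, an open immersion with range the basic open set of `reesGen g i` -/
noncomputable abbrev reesChart (i : Fin n) :
    Spec (.of (Away (reesGr g) (reesGen g i))) ⟶ Proj (reesGr g) :=
  Proj.awayι (reesGr g) (reesGen g i) (reesGen_mem g i) one_pos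

/-- TASK `rees_pt`: the charts agree on the point given by the field `L`. PROOF: let
`x = reesGen g i * reesGen g j` and let `v : Away (reesGr g) x →+* L` be defined like `reesVal`
(the lift of `r ↦ r(1/g i)`, under which `x` goes to `g j / g i`, a unit). By
`Proj.SpecMap_awayMap_awayι` the two morphisms `Spec Away x ⟶ Proj` through the chart `i` and
through the chart `j` are both `awayι x`. It remains to see that
`reesVal i = v ∘ awayMap` and `reesVal j = v ∘ awayMap` as ring homomorphisms to `L`: check on
`Away.mk` (`Away.mk_surjective`, `awayMap_mk`): `v` of `mk r / x^k` (`r = monomial (2k) l`) is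
`l / (g i * g j)^k`. -/
theorem rees_pt (i j : Fin n) (hi : g i ≠ 0) (hj : g j ≠ 0) :
    Spec.map (CommRingCat.ofHom (reesVal i hi)) ≫ reesChart g i =
      Spec.map (CommRingCat.ofHom (reesVal j hj)) ≫ reesChart g j :=
  reesb_pt i j hi hj

/-- TASK `rees_overlap`: a point of the chart `i` at which the element with value `g j / g i` does
not vanish lies in the chart `j`. PROOF: by `reesVal_injective` the element `q` is
`Away.mk _ _ 1 (reesGen g j) _`. Use `Proj.awayι_preimage_basicOpen` (the preimage of
`Proj.basicOpen _ (reesGen g j)` under `awayι` is the basic open set of that element), then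
`Proj.opensRange_awayι` for `j`. -/
theorem rees_overlap (i j : Fin n) (hi : g i ≠ 0) (q : Away (reesGr g) (reesGen g i))
    (hq : reesVal i hi q = g j / g i)
    (y : Spec (.of (Away (reesGr g) (reesGen g i)))) (hy : q ∉ y.asIdeal) :
    ∃ z, reesChart g j z = reesChart g i y := by
  have hq' : q = Away.isLocalizationElem (reesGen_mem g i) (reesGen_mem g j) := by
    apply reesVal_injective i hi
    rw [hq, reesVal_mk, pow_one, pow_one, coe_reesGen, coeff_C_mul, coeff_X_one, mul_one]
  have h1 : y ∈ reesChart g i ⁻¹ᵁ Proj.basicOpen (reesGr g) (reesGen g j) := by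
    rw [Proj.awayι_preimage_basicOpen (reesGr g) (reesGen_mem g i) one_pos (reesGen_mem g j)
      one_pos, ← hq']
    exact hy
  rw [Scheme.Hom.mem_preimage, ← Proj.opensRange_awayι (reesGr g) (reesGen g j) (reesGen_mem g j)
    one_pos, Scheme.Hom.mem_opensRange] at h1
  exact h1

/-- the generators generate over the degree zero part -/
theorem reesb_adjoin : Algebra.adjoin (reesGr g 0) (Set.range (reesGen g)) = ⊤ := by
  rw [eq_top_iff]
  rintro ⟨r, hr⟩ -
  unfold ReesA at hr
  induction hr using Algebra.adjoin_induction with
  | mem x hx =>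
    obtain ⟨i, rfl⟩ := hx
    exact Algebra.subset_adjoin ⟨i, rfl⟩
  | algebraMap q =>
    have hq : algebraMap ℚ (ReesA g) q ∈ reesGr g 0 := ⟨algebraMap ℚ L q, by
      rw [Subalgebra.coe_algebraMap, Polynomial.algebraMap_apply]
      rfl⟩
    exact Subalgebra.algebraMap_mem _ (⟨algebraMap ℚ (ReesA g) q, hq⟩ : reesGr g 0)
  | add x y hx hy h1 h2 =>
    exact add_mem h1 h2
  | mul x y hx hy h1 h2 =>
    exact mul_mem h1 h2

/-- TASK `rees_cover`: if a power of every generator lies in the ideal spanned by the generators
`reesGen g (s i)`, then the charts `s i` cover. PROOF: a point `x` of `Proj` is a homogeneous prime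
ideal which does not contain the irrelevant ideal. If it contained all `reesGen g (s i)` it would
contain all `reesGen g j`, hence every homogeneous element of positive degree (an element of
`ReesA g` is a polynomial in the generators with coefficients in `ℚ`: by `Algebra.adjoin_induction`
every element is congruent modulo the ideal to a rational constant, and a constant which is
homogeneous of positive degree is `0`). Alternatively use `Proj.iSup_basicOpen_eq_top'` for all
generators (`Algebra.adjoin (reesGr g 0) (range (reesGen g)) = ⊤`). Then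
`Proj.opensRange_awayι`. -/
theorem rees_cover {ι : Type} (s : ι → Fin n)
    (hs : ∀ j : Fin n, ∃ N : ℕ, reesGen g j ^ N ∈ Ideal.span (Set.range fun i => reesGen g (s i)))
    (x : Proj (reesGr g)) : ∃ (i : ι), ∃ y, reesChart g (s i) y = x := by
  have htop := Proj.iSup_basicOpen_eq_top' (reesGr g) (reesGen g)
    (fun i => ⟨1, reesGen_mem g i⟩) (reesb_adjoin g)
  obtain ⟨j, hj⟩ : ∃ j, x ∈ Proj.basicOpen (reesGr g) (reesGen g j) := by
    rw [← TopologicalSpace.Opens.mem_iSup, htop]
    trivial
  rw [Proj.mem_basicOpen] at hj
  obtain ⟨i, hi⟩ : ∃ i : ι, reesGen g (s i) ∉ x.asHomogeneousIdeal := by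
    by_contra hcon
    push Not at hcon
    apply hj
    obtain ⟨N, hN⟩ := hs j
    have hle : Ideal.span (Set.range fun i => reesGen g (s i)) ≤
        x.asHomogeneousIdeal.toIdeal := by
      rw [Ideal.span_le, Set.range_subset_iff]
      exact hcon
    exact x.isPrime.mem_of_pow_mem N (hle hN)
  refine ⟨i, ?_⟩
  have hmem : x ∈ (reesChart g (s i)).opensRange := by
    rw [Proj.opensRange_awayι, Proj.mem_basicOpen]
    exact hi
  exact hmem

end BB37
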