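import Pool.Agent.Lib.MP_bb37eb_nt.SCH.ReesB

/-!
# The projective scheme of `ReesA g` is a closed subscheme of projective space
-/

open Polynomial AlgebraicGeometry CategoryTheory HomogeneousLocalization

namespace BB37

variable {L : Type} [Field L] [Algebra ℚ L] {n : ℕ} (g : Fin (n + 1) → L)

attribute [local instance] MvPolynomial.gradedAlgebra

/-- the surjection from the polynomial ring -/
noncomputable def reesAeval : MvPolynomial (Fin (n + 1)) ℚ →ₐ[ℚ] ReesA g :=
  MvPolynomial.aeval (reesGen g)

/-- TASK `reesAeval_surjective` -/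
theorem reesAeval_surjective : Function.Surjective (reesAeval g) := by
  rintro ⟨r, hr⟩
  have hr' := hr
  unfold ReesA at hr'
  rw [Algebra.adjoin_range_eq_range_aeval] at hr'
  obtain ⟨p, hp⟩ := hr'
  refine ⟨p, Subtype.ext ?_⟩
  have h : ((reesAeval g p : ReesA g) : L[X]) =
      MvPolynomial.aeval (fun i => C (g i) * X) p := by
    have h2 := MvPolynomial.comp_aeval_apply (R := ℚ) (reesGen g) (ReesA g).val p
    exact h2
  rw [h]
  exact hp

/-- TASK `reesAeval_mem` -/
theorem reesAeval_mem (m : ℕ) (p : MvPolynomial (Fin (n + 1)) ℚ)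
    (hp : p ∈ MvPolynomial.homogeneousSubmodule (Fin (n + 1)) ℚ m) :
    reesAeval g p ∈ reesGr g m := by
  rw [MvPolynomial.mem_homogeneousSubmodule] at hp
  rw [p.as_sum, map_sum]
  refine sum_mem fun d hd => ?_
  have hdm := hp (MvPolynomial.mem_support_iff.1 hd)
  rw [reesAeval, MvPolynomial.aeval_monomial, ← Algebra.smul_def]
  refine Submodule.smul_mem _ _ ?_
  rw [← hdm, Finsupp.weight_apply, Finsupp.prod, Finsupp.sum]
  have key : ∀ s : Finset (Fin (n + 1)), ∏ i ∈ s, reesGen g i ^ d i ∈
      reesGr g (∑ i ∈ s, d i • (1 : Fin (n + 1) → ℕ) i) := by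
    intro s
    induction s using Finset.induction_on with
    | empty =>
      rw [Finset.prod_empty, Finset.sum_empty]
      exact SetLike.GradedOne.one_mem
    | insert a s ha ih =>
      rw [Finset.prod_insert ha, Finset.sum_insert ha]
      exact SetLike.GradedMul.mul_mem (SetLike.pow_mem_graded _ (reesGen_mem g a)) ih
  exact key _

/-- the graded ring homomorphism -/
noncomputable def reesc_hom :
    MvPolynomial.homogeneousSubmodule (Fin (n + 1)) ℚ →+*ᵍ reesGr g where
  toRingHom := (reesAeval g).toRingHom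
  map_mem {m} {p} hp := reesAeval_mem g m p hp

theorem reesc_hom_apply (p : MvPolynomial (Fin (n + 1)) ℚ) : reesc_hom g p = reesAeval g p := rfl

/-- in every degree the homomorphism is surjective -/
theorem reesc_surj (m : ℕ) (r : ReesA g) (hr : r ∈ reesGr g m) :
    ∃ p ∈ MvPolynomial.homogeneousSubmodule (Fin (n + 1)) ℚ m, reesc_hom g p = r := by
  obtain ⟨p, hp⟩ := reesAeval_surjective g r
  refine ⟨DirectSum.decompose (MvPolynomial.homogeneousSubmodule (Fin (n + 1)) ℚ) p m,
    SetLike.coe_mem _, ?_⟩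
  rw [GradedRingHom.map_directSumDecompose, reesc_hom_apply, hp,
    DirectSum.decompose_of_mem_same _ hr]

/-- the irrelevant ideal is the image of the irrelevant ideal -/
theorem reesc_irrelevant :
    HomogeneousIdeal.irrelevant (reesGr g) ≤
      (HomogeneousIdeal.irrelevant
        (MvPolynomial.homogeneousSubmodule (Fin (n + 1)) ℚ)).map (reesc_hom g) := by
  intro x hx
  rw [HomogeneousIdeal.mem_irrelevant_iff] at hx
  obtain ⟨p, rfl⟩ := reesAeval_surjective g x
  set 𝒜 := MvPolynomial.homogeneousSubmodule (Fin (n + 1)) ℚ with h𝒜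
  have h0 : reesc_hom g (DirectSum.decompose 𝒜 p 0 : MvPolynomial (Fin (n + 1)) ℚ) = 0 := by
    rw [GradedRingHom.map_directSumDecompose, reesc_hom_apply]
    exact hx
  have h1 : reesAeval g p =
      reesc_hom g (p - (DirectSum.decompose 𝒜 p 0 : MvPolynomial (Fin (n + 1)) ℚ)) := by
    rw [map_sub, h0, sub_zero, reesc_hom_apply]
  rw [h1]
  refine Ideal.mem_map_of_mem _ ?_
  have h2 : p - (DirectSum.decompose 𝒜 p 0 : MvPolynomial (Fin (n + 1)) ℚ) ∈
      HomogeneousIdeal.irrelevant 𝒜 := by
    rw [HomogeneousIdeal.mem_irrelevant_iff, map_sub, GradedRing.proj_apply, GradedRing.proj_apply,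
      DirectSum.decompose_of_mem_same _ (SetLike.coe_mem _), sub_self]
  exact h2

/-- the map of the charts is surjective -/
theorem reesc_away_surj (i : Fin (n + 1)) : Function.Surjective
    (Away.map (reesc_hom g) (MvPolynomial.X i) :
      Away (MvPolynomial.homogeneousSubmodule (Fin (n + 1)) ℚ) (MvPolynomial.X i) →+*
        Away (reesGr g) (reesc_hom g (MvPolynomial.X i))) := by
  intro z
  have hX : (MvPolynomial.X i : MvPolynomial (Fin (n + 1)) ℚ) ∈
      MvPolynomial.homogeneousSubmodule (Fin (n + 1)) ℚ 1 :=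
    MvPolynomial.isHomogeneous_X _ _
  obtain ⟨k, r, hr, rfl⟩ := Away.mk_surjective (reesGr g) ((reesc_hom g).map_mem hX) z
  obtain ⟨p, hp, hpr⟩ := reesc_surj g (k • 1) r hr
  refine ⟨Away.mk _ hX k p hp, ?_⟩
  rw [Away.map_mk]
  congr 1

/-- the polynomial ring is generated by the variables -/
theorem reesc_adjoin : Algebra.adjoin (MvPolynomial.homogeneousSubmodule (Fin (n + 1)) ℚ 0)
    (Set.range (MvPolynomial.X : Fin (n + 1) → MvPolynomial (Fin (n + 1)) ℚ)) = ⊤ := by
  rw [eq_top_iff]
  intro p _
  induction p using MvPolynomial.induction_on with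
  | C a =>
    have h : (MvPolynomial.C a : MvPolynomial (Fin (n + 1)) ℚ) ∈
        MvPolynomial.homogeneousSubmodule (Fin (n + 1)) ℚ 0 := MvPolynomial.isHomogeneous_C _ _
    exact Subalgebra.algebraMap_mem _
      (⟨MvPolynomial.C a, h⟩ : MvPolynomial.homogeneousSubmodule (Fin (n + 1)) ℚ 0)
  | add p q hp hq => exact add_mem (hp trivial) (hq trivial)
  | mul_X p i hp => exact mul_mem (hp trivial) (Algebra.subset_adjoin ⟨i, rfl⟩)

theorem reesc_comp_surj {A B C : CommRingCat.{0}} (f : A ⟶ B) (g : B ⟶ C)
    (hf : Function.Surjective f) (hg : Function.Surjective g) : Function.Surjective (f ≫ g) := by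
  intro z
  obtain ⟨y, rfl⟩ := hg z
  obtain ⟨x, rfl⟩ := hf y
  exact ⟨x, rfl⟩

theorem reesc_surj_of_comp {A B C : CommRingCat.{0}} (f : A ⟶ B) (g : B ⟶ C)
    (h : Function.Surjective (f ≫ g)) : Function.Surjective g := by
  intro z
  obtain ⟨x, rfl⟩ := h z
  exact ⟨f x, rfl⟩

theorem reesc_iso_surj {A B : CommRingCat.{0}} (f : A ⟶ B) [IsIso f] : Function.Surjective f :=
  (ConcreteCategory.bijective_of_isIso f).2

theorem reesc_appTop_surj {X Y : Scheme.{0}} (f : X ⟶ Y) (U : Y.Opens)
    (h : Function.Surjective (f.app U)) : Function.Surjective ((f ∣_ U).appTop) := by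
  have h' : ∀ V : Y.Opens, V = U → Function.Surjective (f.app V) := by
    rintro _ rfl
    exact h
  have h1 : Function.Surjective (X.presheaf.map
      (eqToHom (image_morphismRestrict_preimage f U ⊤)).op) := reesc_iso_surj _
  rw [morphismRestrict_appTop]
  exact reesc_comp_surj _ _ (h' _ (by simp)) h1

/-- the morphism is surjective on the sections over the charts -/
theorem reesc_app_surj (i : Fin (n + 1)) : Function.Surjective
    ((Proj.map (reesc_hom g) (reesc_irrelevant g)).app
      (Proj.basicOpen (MvPolynomial.homogeneousSubmodule (Fin (n + 1)) ℚ)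
        (MvPolynomial.X i))) := by
  have hX : (MvPolynomial.X i : MvPolynomial (Fin (n + 1)) ℚ) ∈
      MvPolynomial.homogeneousSubmodule (Fin (n + 1)) ℚ 1 :=
    MvPolynomial.isHomogeneous_X _ _
  have h := Proj.awayToSection_comp_appLE (reesc_hom g) (reesc_irrelevant g) hX
  have h1 : Function.Surjective (CommRingCat.ofHom (Away.map (reesc_hom g) (MvPolynomial.X i) :
      Away (MvPolynomial.homogeneousSubmodule (Fin (n + 1)) ℚ) (MvPolynomial.X i) →+*
        Away (reesGr g) (reesc_hom g (MvPolynomial.X i))) ≫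
      Proj.awayToSection (reesGr g) (reesc_hom g (MvPolynomial.X i))) := by
    refine reesc_comp_surj _ _ (reesc_away_surj g i) ?_
    exact reesc_iso_surj
      (Proj.basicOpenIsoAway (reesGr g) _ ((reesc_hom g).map_mem hX) one_pos).hom
  rw [← h] at h1
  have h4 := reesc_surj_of_comp _ _ h1
  have h5 : Scheme.Hom.appLE (Proj.map (reesc_hom g) (reesc_irrelevant g))
      (Proj.basicOpen (MvPolynomial.homogeneousSubmodule (Fin (n + 1)) ℚ) (MvPolynomial.X i))
      (Proj.basicOpen (reesGr g) (reesc_hom g (MvPolynomial.X i))) le_rfl =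
      Scheme.Hom.app (Proj.map (reesc_hom g) (reesc_irrelevant g))
        (Proj.basicOpen (MvPolynomial.homogeneousSubmodule (Fin (n + 1)) ℚ) (MvPolynomial.X i)) :=
    Scheme.Hom.appLE_eq_app _
  rw [← h5]
  exact h4

/-- TASK `rees_closed`. PROOF: the graded homomorphism `reesAeval g` gives
`Proj.map : Proj (reesGr g) ⟶ PP n` (see `Mathlib/AlgebraicGeometry/ProjectiveSpectrum/Functor`;
the irrelevant ideal of `ReesA g` is the image of the irrelevant ideal because the homomorphism is
surjective and graded). `PP n` is covered by the basic open sets of the variables `X i`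
(`Proj.iSup_basicOpen_eq_top'`), the preimage of the `i`-th one is the basic open set of
`reesGen g i` (`Proj.map_preimage_basicOpen`), and over it the morphism is `Spec` of
`Away.map : Away (X i) →+* Away (reesGen g i)` (`Proj.awayι_comp_map`), which is surjective by
`Away.mk_surjective` and the surjectivity of `reesAeval g` in each degree. Being a closed immersion
is local at the target (`IsZariskiLocalAtTarget`), and `Spec.map` of a surjection is a closed
immersion. -/
theorem rees_closed : ∃ j : Proj (reesGr g) ⟶ PP n, IsClosedImmersion j := by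
  refine ⟨Proj.map (reesc_hom g) (reesc_irrelevant g), ?_⟩
  have hX : ∀ i : Fin (n + 1), (MvPolynomial.X i : MvPolynomial (Fin (n + 1)) ℚ) ∈
      MvPolynomial.homogeneousSubmodule (Fin (n + 1)) ℚ 1 := fun i =>
    MvPolynomial.isHomogeneous_X _ _
  have hcov := Proj.iSup_basicOpen_eq_top' (MvPolynomial.homogeneousSubmodule (Fin (n + 1)) ℚ)
    (MvPolynomial.X : Fin (n + 1) → MvPolynomial (Fin (n + 1)) ℚ) (fun i => ⟨1, hX i⟩) reesc_adjoin
  refine (IsZariskiLocalAtTarget.iff_of_iSup_eq_top (P := @IsClosedImmersion.{0})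
    (fun i : Fin (n + 1) => Proj.basicOpen _ (MvPolynomial.X i)) hcov).2 fun i => ?_
  have h1 : IsAffine (Proj.basicOpen (MvPolynomial.homogeneousSubmodule (Fin (n + 1)) ℚ)
    (MvPolynomial.X i)).toScheme := Proj.isAffineOpen_basicOpen _ _ (hX i) one_pos
  have h2 : IsAffine (Proj.map (reesc_hom g) (reesc_irrelevant g) ⁻¹ᵁ
      Proj.basicOpen (MvPolynomial.homogeneousSubmodule (Fin (n + 1)) ℚ)
        (MvPolynomial.X i)).toScheme :=
    Proj.isAffineOpen_basicOpen (reesGr g) _ ((reesc_hom g).map_mem (hX i)) one_pos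
  refine IsClosedImmersion.of_surjective_of_isAffine _ ?_
  exact reesc_appTop_surj _ _ (reesc_app_surj g i)

end BB37
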