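import Mathlib

/-!
# The rings of the four charts

`Er A = A[b, c] / (c^2 = b^3 + b)` and `Qr i A a = Er A [d] / (d^2 = G_i(a, b, c))`.
-/

open Polynomial

namespace BB37

/-- the four right hand sides; `i = 0`: coordinates `t, x, y, w`; `i = 1`: coordinates
`t, 1/x, y/x^2, w/x`; `i = 2`: `1/t, x, y, w/t`; `i = 3`: `1/t, 1/x, y/x^2, w/(t x)` -/
def Gf (i : Fin 4) {A : Type} [CommRing A] (a b c : A) : A :=
  match i with
  | 0 => a ^ 2 * (2 * b ^ 2 + 2) + 2 * a + (c + 2)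
  | 1 => a ^ 2 * (2 * b ^ 2 + 2) + 2 * a * b ^ 2 + (c + 2 * b ^ 2)
  | 2 => (2 * b ^ 2 + 2) + 2 * a + a ^ 2 * (c + 2)
  | 3 => (2 * b ^ 2 + 2) + 2 * a * b ^ 2 + a ^ 2 * (c + 2 * b ^ 2)

theorem map_Gf (i : Fin 4) {A B : Type} [CommRing A] [CommRing B] (φ : A →+* B) (a b c : A) :
    φ (Gf i a b c) = Gf i (φ a) (φ b) (φ c) := by
  fin_cases i <;> simp [Gf, map_add, map_mul, map_pow, map_ofNat]

/-- the affine coordinate ring of the curve -/
def Er (A : Type) [CommRing A] : Type := AdjoinRoot (X ^ 2 - C (X ^ 3 + X) : A[X][X])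

section Er

variable (A : Type) [CommRing A]

noncomputable instance : CommRing (Er A) :=
  inferInstanceAs (CommRing (AdjoinRoot (X ^ 2 - C (X ^ 3 + X) : A[X][X])))

noncomputable instance (S : Type) [CommSemiring S] [Algebra S A] : Algebra S (Er A) :=
  inferInstanceAs (Algebra S (AdjoinRoot (X ^ 2 - C (X ^ 3 + X) : A[X][X])))

instance (S : Type) [CommSemiring S] [Algebra S A] : IsScalarTower S A (Er A) :=
  inferInstanceAs (IsScalarTower S A (AdjoinRoot (X ^ 2 - C (X ^ 3 + X) : A[X][X])))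

/-- the inclusion of the polynomial ring -/
noncomputable def Er.of : A[X] →+* Er A := AdjoinRoot.of (X ^ 2 - C (X ^ 3 + X) : A[X][X])

/-- the first coordinate -/
noncomputable def eb : Er A := Er.of A X

/-- the second coordinate -/
noncomputable def ec : Er A := AdjoinRoot.root (X ^ 2 - C (X ^ 3 + X) : A[X][X])

theorem ec_sq : ec A ^ 2 = eb A ^ 3 + eb A := by
  have h := AdjoinRoot.eval₂_root (X ^ 2 - C (X ^ 3 + X) : A[X][X])
  rw [eval₂_sub, eval₂_pow, eval₂_X, eval₂_C, sub_eq_zero] at h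
  have h2 : Er.of A (X ^ 3 + X) = eb A ^ 3 + eb A := by
    rw [map_add, map_pow, eb]
  exact h.trans h2

variable {A} {B : Type} [CommRing B]

/-- the universal property -/
noncomputable def Er.lift (φ : A →+* B) (b c : B) (h : c ^ 2 = b ^ 3 + b) : Er A →+* B :=
  AdjoinRoot.lift (eval₂RingHom φ b) c (by
    rw [eval₂_sub, eval₂_pow, eval₂_X, eval₂_C, map_add, map_pow, coe_eval₂RingHom, eval₂_X, h,
      sub_self])

theorem Er.lift_algebraMap (φ : A →+* B) (b c : B) (h : c ^ 2 = b ^ 3 + b) (r : A) :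
    Er.lift φ b c h (algebraMap A (Er A) r) = φ r := by
  have e : algebraMap A (Er A) r = AdjoinRoot.of (X ^ 2 - C (X ^ 3 + X) : A[X][X]) (C r) := rfl
  rw [e, Er.lift]
  erw [AdjoinRoot.lift_of]
  simp

theorem Er.lift_eb (φ : A →+* B) (b c : B) (h : c ^ 2 = b ^ 3 + b) :
    Er.lift φ b c h (eb A) = b := by
  rw [eb, Er.of, Er.lift]
  erw [AdjoinRoot.lift_of]
  simp

theorem Er.lift_ec (φ : A →+* B) (b c : B) (h : c ^ 2 = b ^ 3 + b) :
    Er.lift φ b c h (ec A) = c := by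
  rw [ec, Er.lift]
  erw [AdjoinRoot.lift_root]

theorem Er.hom_ext {f g : Er A →+* B} (h1 : ∀ r : A, f (algebraMap A _ r) = g (algebraMap A _ r))
    (h2 : f (eb A) = g (eb A)) (h3 : f (ec A) = g (ec A)) : f = g := by
  have e : f.comp (AdjoinRoot.of (X ^ 2 - C (X ^ 3 + X) : A[X][X])) =
      g.comp (AdjoinRoot.of (X ^ 2 - C (X ^ 3 + X) : A[X][X])) := by
    refine Polynomial.ringHom_ext (fun r => h1 r) h2
  refine AdjoinRoot.ringHom_ext e h3

end Er

/-- the ring of the chart `i` over `A`, with parameter `a` -/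
def Qr (i : Fin 4) (A : Type) [CommRing A] (a : A) : Type :=
  AdjoinRoot (X ^ 2 - C (Gf i (algebraMap A (Er A) a) (eb A) (ec A)) : (Er A)[X])

section Qr

variable (i : Fin 4) (A : Type) [CommRing A] (a : A)

noncomputable instance : CommRing (Qr i A a) :=
  inferInstanceAs (CommRing (AdjoinRoot (X ^ 2 - C (Gf i (algebraMap A (Er A) a) (eb A) (ec A)) :
    (Er A)[X])))

noncomputable instance (S : Type) [CommSemiring S] [Algebra S A] : Algebra S (Qr i A a) :=
  inferInstanceAs (Algebra S (AdjoinRoot (X ^ 2 - C (Gf i (algebraMap A (Er A) a) (eb A) (ec A)) :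
    (Er A)[X])))

instance (S : Type) [CommSemiring S] [Algebra S A] : IsScalarTower S A (Qr i A a) :=
  inferInstanceAs (IsScalarTower S A (AdjoinRoot (X ^ 2 - C (Gf i (algebraMap A (Er A) a) (eb A)
    (ec A)) : (Er A)[X])))

/-- the inclusion of the ring of the curve -/
noncomputable def Qr.of : Er A →+* Qr i A a :=
  AdjoinRoot.of (X ^ 2 - C (Gf i (algebraMap A (Er A) a) (eb A) (ec A)) : (Er A)[X])

/-- the coordinate `b` -/
noncomputable def qb : Qr i A a := Qr.of i A a (eb A)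

/-- the coordinate `c` -/
noncomputable def qc : Qr i A a := Qr.of i A a (ec A)

/-- the coordinate `d` -/
noncomputable def qd : Qr i A a :=
  AdjoinRoot.root (X ^ 2 - C (Gf i (algebraMap A (Er A) a) (eb A) (ec A)) : (Er A)[X])

/-- the parameter -/
noncomputable def qa : Qr i A a := algebraMap A (Qr i A a) a

theorem Qr.of_algebraMap (r : A) : Qr.of i A a (algebraMap A (Er A) r) = algebraMap A _ r := rfl

theorem qc_sq : qc i A a ^ 2 = qb i A a ^ 3 + qb i A a := by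
  rw [qc, qb, ← map_pow, ec_sq, map_add, map_pow]

theorem qd_sq : qd i A a ^ 2 = Gf i (qa i A a) (qb i A a) (qc i A a) := by
  have h := AdjoinRoot.eval₂_root
    (X ^ 2 - C (Gf i (algebraMap A (Er A) a) (eb A) (ec A)) : (Er A)[X])
  rw [eval₂_sub, eval₂_pow, eval₂_X, eval₂_C, sub_eq_zero] at h
  exact h.trans (map_Gf i (Qr.of i A a) _ _ _)

variable {i A a} {B : Type} [CommRing B]

/-- the universal property -/
noncomputable def Qr.lift (φ : A →+* B) (b c d : B) (h : c ^ 2 = b ^ 3 + b)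
    (h' : d ^ 2 = Gf i (φ a) b c) : Qr i A a →+* B :=
  AdjoinRoot.lift (Er.lift φ b c h) d (by
    rw [eval₂_sub, eval₂_pow, eval₂_X, eval₂_C, map_Gf, Er.lift_algebraMap, Er.lift_eb,
      Er.lift_ec, h', sub_self])

variable (φ : A →+* B) (b c d : B) (h : c ^ 2 = b ^ 3 + b) (h' : d ^ 2 = Gf i (φ a) b c)

theorem Qr.lift_of (z : Er A) : Qr.lift φ b c d h h' (Qr.of i A a z) = Er.lift φ b c h z := by
  rw [Qr.lift, Qr.of]
  erw [AdjoinRoot.lift_of]

theorem Qr.lift_algebraMap (r : A) :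
    Qr.lift φ b c d h h' (algebraMap A (Qr i A a) r) = φ r := by
  rw [← Qr.of_algebraMap, Qr.lift_of, Er.lift_algebraMap]

theorem Qr.lift_qa : Qr.lift φ b c d h h' (qa i A a) = φ a := Qr.lift_algebraMap _ _ _ _ _ _ _

theorem Qr.lift_qb : Qr.lift φ b c d h h' (qb i A a) = b := by
  rw [qb, Qr.lift_of, Er.lift_eb]

theorem Qr.lift_qc : Qr.lift φ b c d h h' (qc i A a) = c := by
  rw [qc, Qr.lift_of, Er.lift_ec]

theorem Qr.lift_qd : Qr.lift φ b c d h h' (qd i A a) = d := by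
  rw [qd, Qr.lift]
  erw [AdjoinRoot.lift_root]

theorem Qr.hom_ext {f g : Qr i A a →+* B}
    (h0 : ∀ r : A, f (algebraMap A _ r) = g (algebraMap A _ r))
    (h1 : f (qb i A a) = g (qb i A a)) (h2 : f (qc i A a) = g (qc i A a))
    (h3 : f (qd i A a) = g (qd i A a)) : f = g := by
  have e : f.comp (Qr.of i A a) = g.comp (Qr.of i A a) := Er.hom_ext h0 h1 h2
  exact AdjoinRoot.ringHom_ext e h3

end Qr

/-- the ring of the chart `i` of the surface -/
abbrev Ch (i : Fin 4) : Type := Qr i ℚ[X] (X : ℚ[X])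

theorem Ch.hom_ext {i : Fin 4} {B : Type} [CommRing B] {f g : Ch i →+* B}
    (h0 : f (qa i ℚ[X] X) = g (qa i ℚ[X] X)) (h1 : f (qb i ℚ[X] X) = g (qb i ℚ[X] X))
    (h2 : f (qc i ℚ[X] X) = g (qc i ℚ[X] X)) (h3 : f (qd i ℚ[X] X) = g (qd i ℚ[X] X)) :
    f = g := by
  refine Qr.hom_ext (fun r => ?_) h1 h2 h3
  have e : f.comp (algebraMap ℚ[X] (Ch i)) = g.comp (algebraMap ℚ[X] (Ch i)) := by
    refine Polynomial.ringHom_ext' ?_ h0
    exact Subsingleton.elim _ _
  exact congrArg (fun k : ℚ[X] →+* B => k r) e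

/-- the point with coordinates `a, b, c, d` -/
noncomputable def Ch.lift {i : Fin 4} {B : Type} [CommRing B] [Algebra ℚ B] (a b c d : B)
    (h : c ^ 2 = b ^ 3 + b) (h' : d ^ 2 = Gf i a b c) : Ch i →+* B :=
  Qr.lift (eval₂RingHom (algebraMap ℚ B) a) b c d h (by rw [coe_eval₂RingHom, eval₂_X, h'])

section Ch

variable {i : Fin 4} {B : Type} [CommRing B] [Algebra ℚ B] (a b c d : B)
    (h : c ^ 2 = b ^ 3 + b) (h' : d ^ 2 = Gf i a b c)

theorem Ch.lift_qa : Ch.lift a b c d h h' (qa i ℚ[X] X) = a := by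
  rw [Ch.lift, Qr.lift_qa, coe_eval₂RingHom, eval₂_X]

theorem Ch.lift_qb : Ch.lift a b c d h h' (qb i ℚ[X] X) = b := by
  rw [Ch.lift, Qr.lift_qb]

theorem Ch.lift_qc : Ch.lift a b c d h h' (qc i ℚ[X] X) = c := by
  rw [Ch.lift, Qr.lift_qc]

theorem Ch.lift_qd : Ch.lift a b c d h h' (qd i ℚ[X] X) = d := by
  rw [Ch.lift, Qr.lift_qd]

theorem Ch.lift_C (p : ℚ[X]) :
    Ch.lift a b c d h h' (algebraMap ℚ[X] (Ch i) p) = eval₂ (algebraMap ℚ B) a p := by
  rw [Ch.lift, Qr.lift_algebraMap]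
  rfl

end Ch

end BB37
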