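import Pool.Agent.Lib.MP_bb37eb_nt.SCH.SmCert

/-!
# Smoothness of the charts
-/

open Polynomial

namespace BB37

theorem sma_map_Ga (i : Fin 4) {A B : Type} [CommRing A] [CommRing B] (φ : A →+* B) (a b c : A) :
    φ (Ga i a b c) = Ga i (φ a) (φ b) (φ c) := by
  fin_cases i <;> simp [Ga, map_add, map_mul, map_pow, map_ofNat]

theorem sma_map_DG (i : Fin 4) {A B : Type} [CommRing A] [CommRing B] (φ : A →+* B) (a b c : A) :
    φ (DG i a b c) = DG i (φ a) (φ b) (φ c) := by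
  fin_cases i <;> simp [DG, Gb, Gc, map_add, map_mul, map_pow, map_ofNat]

/-- the Newton step -/
theorem sma_newton (i : Fin 4) {B : Type} [CommRing B] (I : Ideal B) (hI : I ^ 2 = ⊥)
    (h a b c d A2 A3 A4 : B) (h2 : 2 * h = 1) (he1 : c ^ 2 - (b ^ 3 + b) ∈ I)
    (he2 : d ^ 2 - Gf i a b c ∈ I)
    (hK : A2 * d ^ 2 + A3 * Ga i a b c + A4 * DG i a b c - 1 ∈ I) :
    ∃ z β γ δ : B, z ∈ I ∧ β ∈ I ∧ γ ∈ I ∧ δ ∈ I ∧
      (c + γ) ^ 2 = (b + β) ^ 3 + (b + β) ∧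
      (d + δ) ^ 2 = Gf i (a + A3 * z) (b + β) (c + γ) := by
  have hz : ∀ {u v : B}, u ∈ I → v ∈ I → u * v = 0 := by
    intro u v hu hv
    have h3 : u * v ∈ I ^ 2 := by
      rw [pow_two]
      exact Ideal.mul_mem_mul hu hv
    rw [hI] at h3
    exact h3
  obtain ⟨e1, hE1⟩ : ∃ e1, e1 = c ^ 2 - (b ^ 3 + b) := ⟨_, rfl⟩
  obtain ⟨e2, hE2⟩ : ∃ e2, e2 = d ^ 2 - Gf i a b c := ⟨_, rfl⟩
  obtain ⟨K, hKK⟩ : ∃ K, K = A2 * d ^ 2 + A3 * Ga i a b c + A4 * DG i a b c - 1 := ⟨_, rfl⟩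
  rw [← hE1] at he1
  rw [← hE2] at he2
  rw [← hKK] at hK
  obtain ⟨β₀, hβ₀⟩ : ∃ β₀, β₀ = (1 + 3 * b ^ 2 * h) * e1 := ⟨_, rfl⟩
  obtain ⟨γ₀, hγ₀⟩ : ∃ γ₀, γ₀ = 9 * h ^ 2 * b * c * e1 := ⟨_, rfl⟩
  have mβ₀ : β₀ ∈ I := hβ₀ ▸ I.mul_mem_left _ he1
  have mγ₀ : γ₀ ∈ I := hγ₀ ▸ I.mul_mem_left _ he1
  obtain ⟨y, hy⟩ : ∃ y, y = Gb i a b * β₀ + Gc i a * γ₀ - e2 := ⟨_, rfl⟩
  have my : y ∈ I := hy ▸ I.sub_mem (I.add_mem (I.mul_mem_left _ mβ₀) (I.mul_mem_left _ mγ₀)) he2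
  have hKy : K * y = 0 := hz hK my
  have hee : e1 * e1 = 0 := hz he1 he1
  obtain ⟨β, hβ⟩ : ∃ β, β = β₀ + 2 * c * (-A4 * y) := ⟨_, rfl⟩
  obtain ⟨γ, hγ⟩ : ∃ γ, γ = γ₀ + (3 * b ^ 2 + 1) * (-A4 * y) := ⟨_, rfl⟩
  obtain ⟨δ, hδ⟩ : ∃ δ, δ = h * A2 * d * y := ⟨_, rfl⟩
  have mβ : β ∈ I := hβ ▸ I.add_mem mβ₀ (I.mul_mem_left _ (I.mul_mem_left _ my))
  have mγ : γ ∈ I := hγ ▸ I.add_mem mγ₀ (I.mul_mem_left _ (I.mul_mem_left _ my))
  have mδ : δ ∈ I := hδ ▸ I.mul_mem_left _ my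
  have mz : -y ∈ I := I.neg_mem my
  have mα : A3 * -y ∈ I := I.mul_mem_left _ mz
  have R1 : 2 * c * γ - (3 * b ^ 2 + 1) * β = -e1 := by
    rw [hγ, hβ, hγ₀, hβ₀]
    linear_combination (-18 * h ^ 2 * b * e1) * hE1 + (18 * h ^ 2 * b) * hee +
      (9 * h * b * (b ^ 3 + b) * e1 + 3 * b ^ 2 * e1) * h2
  have R2 : 2 * d * δ - Ga i a b c * (A3 * -y) - Gb i a b * β - Gc i a * γ = -e2 := by
    have hDG : DG i a b c = (3 * b ^ 2 + 1) * Gc i a + 2 * c * Gb i a b := rfl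
    rw [hδ, hβ, hγ]
    linear_combination hKy - y * hKK - A4 * y * hDG + (A2 * d ^ 2 * y) * h2 + hy
  refine ⟨-y, β, γ, δ, mz, mβ, mγ, mδ, ?_, ?_⟩
  · linear_combination -hE1 + R1 + hz mγ mγ - (3 * b + β) * hz mβ mβ
  · rw [Gf_add i a b c _ β γ (hz mα mα) (hz mα mβ) (hz mβ mβ) (hz mα mγ)]
    linear_combination -hE2 + R2 + hz mδ mδ

/-- TASK `formallySmooth_Ch`. PROOF: `Algebra.FormallySmooth.iff_comp_surjective`. Let `I` be an
ideal of `B` with `I^2 = 0` and let `ψ : Ch i → B/I`. Lift the images of `qa, qb, qc, qd` to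
`a, b, c, d ∈ B`; then `e1 = c^2 - b^3 - b` and `e2 = d^2 - Gf i a b c` lie in `I`. We look for
`α, β, γ, δ ∈ I` with `(c+γ)^2 = (b+β)^3 + (b+β)`, `(d+δ)^2 = Gf i (a+α) (b+β) (c+γ)`, i.e.
(`Gf_add`) `2cγ - (3b^2+1)β = -e1` and `2dδ - Ga α - Gb β - Gc γ = -e2`. Particular solution of the
first equation: `β = (1 + 3b^2/2) e1`, `γ = (9/4) b c e1` (because
`(3b^2+1)(1+3b^2/2) - (9/2) b (b^3+b) = 1` and `e1 c^2 = e1 (b^3+b)`). Adding
`x (2c, 3b^2+1)` to `(β, γ)` with `x ∈ I` does not change the first equation and adds `-x DG` to the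
left side of the second. With `A2, A3, A4 ∈ B` lifting the images of the elements given by `cert`
for `Ch i`, `A2 d^2 + A3 Ga + A4 DG - 1 ∈ I`, so for a given `y ∈ I` the choice `δ = A2 d y / 2`,
`α = - A3 y`, `x = - A4 y` contributes exactly `y` to the left side of the second equation. Take `y`
= minus `e2` minus the contribution of the particular solution. Then `Ch.lift` of the corrected
elements is the lift (`Ch.hom_ext`; it is a `ℚ`-algebra homomorphism automatically). -/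
theorem formallySmooth_Ch (i : Fin 4) : Algebra.FormallySmooth ℚ (Ch i) := by
  rw [Algebra.FormallySmooth.iff_comp_surjective]
  intro B _ _ I hI ψ
  obtain ⟨a, ha⟩ := Ideal.Quotient.mk_surjective (ψ (qa i ℚ[X] X))
  obtain ⟨b, hb⟩ := Ideal.Quotient.mk_surjective (ψ (qb i ℚ[X] X))
  obtain ⟨c, hc⟩ := Ideal.Quotient.mk_surjective (ψ (qc i ℚ[X] X))
  obtain ⟨d, hd⟩ := Ideal.Quotient.mk_surjective (ψ (qd i ℚ[X] X))
  obtain ⟨C2, C3, C4, hC⟩ := cert i (qa i ℚ[X] X) (qb i ℚ[X] X) (qc i ℚ[X] X) (qc_sq _ _ _)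
  obtain ⟨A2, hA2⟩ := Ideal.Quotient.mk_surjective (ψ C2)
  obtain ⟨A3, hA3⟩ := Ideal.Quotient.mk_surjective (ψ C3)
  obtain ⟨A4, hA4⟩ := Ideal.Quotient.mk_surjective (ψ C4)
  have he1 : c ^ 2 - (b ^ 3 + b) ∈ I := by
    rw [← Ideal.Quotient.eq_zero_iff_mem]
    simp only [map_sub, map_add, map_pow, hb, hc]
    rw [← map_pow, ← map_pow, ← map_add, ← map_sub, qc_sq, sub_self, map_zero]
  have he2 : d ^ 2 - Gf i a b c ∈ I := by
    rw [← Ideal.Quotient.eq_zero_iff_mem, map_sub, map_pow, map_Gf, ha, hb, hc, hd, ← map_pow,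
      qd_sq]
    have h3 := map_Gf i (ψ : Ch i →+* B ⧸ I) (qa i ℚ[X] X) (qb i ℚ[X] X) (qc i ℚ[X] X)
    exact sub_eq_zero.2 h3
  have hK : A2 * d ^ 2 + A3 * Ga i a b c + A4 * DG i a b c - 1 ∈ I := by
    rw [← Ideal.Quotient.eq_zero_iff_mem, map_sub, map_add, map_add, map_mul, map_mul, map_mul,
      map_pow, sma_map_Ga, sma_map_DG, ha, hb, hc, hd, hA2, hA3, hA4, map_one, ← map_pow, qd_sq]
    have h3 := sma_map_Ga i (ψ : Ch i →+* B ⧸ I) (qa i ℚ[X] X) (qb i ℚ[X] X) (qc i ℚ[X] X)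
    have h4 := sma_map_DG i (ψ : Ch i →+* B ⧸ I) (qa i ℚ[X] X) (qb i ℚ[X] X) (qc i ℚ[X] X)
    have h5 := congrArg ψ hC
    rw [map_add, map_add, map_mul, map_mul, map_mul, map_one] at h5
    rw [sub_eq_zero, ← h5]
    congr 1
    · congr 2
      exact h3.symm
    · congr 1
      exact h4.symm
  have h2 : (2 : B) * algebraMap ℚ B (1 / 2) = 1 := by
    rw [← map_ofNat (algebraMap ℚ B) 2, ← map_mul, ← map_one (algebraMap ℚ B)]
    norm_num
  obtain ⟨z, β, γ, δ, mz, mβ, mγ, mδ, k1, k2⟩ :=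
    sma_newton i I hI _ a b c d A2 A3 A4 h2 he1 he2 hK
  have q0 : ∀ x ∈ I, Ideal.Quotient.mk I x = 0 := fun x hx => Ideal.Quotient.eq_zero_iff_mem.2 hx
  refine ⟨(Ch.lift (a + A3 * z) (b + β) (c + γ) (d + δ) k1 k2).toRatAlgHom, ?_⟩
  apply AlgHom.coe_ringHom_injective
  refine Ch.hom_ext ?_ ?_ ?_ ?_
  · change Ideal.Quotient.mk I (Ch.lift (a + A3 * z) (b + β) (c + γ) (d + δ) k1 k2
      (qa i ℚ[X] X)) = ψ (qa i ℚ[X] X)
    rw [Ch.lift_qa, map_add, ha, q0 _ (I.mul_mem_left _ mz), add_zero]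
  · change Ideal.Quotient.mk I (Ch.lift (a + A3 * z) (b + β) (c + γ) (d + δ) k1 k2
      (qb i ℚ[X] X)) = ψ (qb i ℚ[X] X)
    rw [Ch.lift_qb, map_add, hb, q0 _ mβ, add_zero]
  · change Ideal.Quotient.mk I (Ch.lift (a + A3 * z) (b + β) (c + γ) (d + δ) k1 k2
      (qc i ℚ[X] X)) = ψ (qc i ℚ[X] X)
    rw [Ch.lift_qc, map_add, hc, q0 _ mγ, add_zero]
  · change Ideal.Quotient.mk I (Ch.lift (a + A3 * z) (b + β) (c + γ) (d + δ) k1 k2
      (qd i ℚ[X] X)) = ψ (qd i ℚ[X] X)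
    rw [Ch.lift_qd, map_add, hd, q0 _ mδ, add_zero]

/-- TASK `formallySmooth_Qr`: the same with the coordinate `a` fixed (`α = 0`). -/
theorem formallySmooth_Qr (i : Fin 4) (A : Type) [CommRing A] [Algebra ℚ A] (a : A)
    (h : ∃ A2 A4 : Qr i A a, A2 * Gf i (qa i A a) (qb i A a) (qc i A a) +
      A4 * DG i (qa i A a) (qb i A a) (qc i A a) = 1) : Algebra.FormallySmooth A (Qr i A a) := by
  rw [Algebra.FormallySmooth.iff_comp_surjective]
  intro B _ _ I hI ψ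
  have ha : Ideal.Quotient.mk I (algebraMap A B a) = ψ (qa i A a) := (ψ.commutes a).symm
  obtain ⟨b, hb⟩ := Ideal.Quotient.mk_surjective (ψ (qb i A a))
  obtain ⟨c, hc⟩ := Ideal.Quotient.mk_surjective (ψ (qc i A a))
  obtain ⟨d, hd⟩ := Ideal.Quotient.mk_surjective (ψ (qd i A a))
  obtain ⟨C2, C4, hC⟩ := h
  obtain ⟨A2, hA2⟩ := Ideal.Quotient.mk_surjective (ψ C2)
  obtain ⟨A4, hA4⟩ := Ideal.Quotient.mk_surjective (ψ C4)
  have he1 : c ^ 2 - (b ^ 3 + b) ∈ I := by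
    rw [← Ideal.Quotient.eq_zero_iff_mem]
    simp only [map_sub, map_add, map_pow, hb, hc]
    rw [← map_pow, ← map_pow, ← map_add, ← map_sub, qc_sq, sub_self, map_zero]
  have he2 : d ^ 2 - Gf i (algebraMap A B a) b c ∈ I := by
    rw [← Ideal.Quotient.eq_zero_iff_mem, map_sub, map_pow, map_Gf, ha, hb, hc, hd, ← map_pow,
      qd_sq]
    have h3 := map_Gf i (ψ : Qr i A a →+* B ⧸ I) (qa i A a) (qb i A a) (qc i A a)
    exact sub_eq_zero.2 h3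
  have hK : A2 * d ^ 2 + 0 * Ga i (algebraMap A B a) b c + A4 * DG i (algebraMap A B a) b c - 1
      ∈ I := by
    rw [← Ideal.Quotient.eq_zero_iff_mem, map_sub, map_add, map_add, map_mul, map_mul, map_mul,
      map_pow, sma_map_Ga, sma_map_DG, ha, hb, hc, hd, hA2, hA4, map_one, ← map_pow, qd_sq,
      map_zero, zero_mul, add_zero]
    have h4 := sma_map_DG i (ψ : Qr i A a →+* B ⧸ I) (qa i A a) (qb i A a) (qc i A a)
    have h5 := congrArg ψ hC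
    rw [map_add, map_mul, map_mul, map_one] at h5
    rw [sub_eq_zero, ← h5]
    congr 2
    exact h4.symm
  have h2 : (2 : B) * algebraMap A B (algebraMap ℚ A (1 / 2)) = 1 := by
    have h3 : (2 : A) * algebraMap ℚ A (1 / 2) = 1 := by
      rw [← map_ofNat (algebraMap ℚ A) 2, ← map_mul, ← map_one (algebraMap ℚ A)]
      norm_num
    rw [← map_ofNat (algebraMap A B) 2, ← map_mul, h3, map_one]
  obtain ⟨z, β, γ, δ, mz, mβ, mγ, mδ, k1, k2⟩ :=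
    sma_newton i I hI _ (algebraMap A B a) b c d A2 0 A4 h2 he1 he2 hK
  rw [zero_mul, add_zero] at k2
  have q0 : ∀ x ∈ I, Ideal.Quotient.mk I x = 0 := fun x hx => Ideal.Quotient.eq_zero_iff_mem.2 hx
  refine ⟨⟨Qr.lift (algebraMap A B) (b + β) (c + γ) (d + δ) k1 k2,
    fun r => Qr.lift_algebraMap _ _ _ _ _ _ r⟩, ?_⟩
  apply AlgHom.coe_ringHom_injective
  refine Qr.hom_ext ?_ ?_ ?_ ?_
  · intro r
    change Ideal.Quotient.mk I (Qr.lift (algebraMap A B) (b + β) (c + γ) (d + δ) k1 k2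
      (algebraMap A _ r)) = ψ (algebraMap A _ r)
    rw [Qr.lift_algebraMap, ψ.commutes]
    rfl
  · change Ideal.Quotient.mk I (Qr.lift (algebraMap A B) (b + β) (c + γ) (d + δ) k1 k2
      (qb i A a)) = ψ (qb i A a)
    rw [Qr.lift_qb, map_add, hb, q0 _ mβ, add_zero]
  · change Ideal.Quotient.mk I (Qr.lift (algebraMap A B) (b + β) (c + γ) (d + δ) k1 k2
      (qc i A a)) = ψ (qc i A a)
    rw [Qr.lift_qc, map_add, hc, q0 _ mγ, add_zero]
  · change Ideal.Quotient.mk I (Qr.lift (algebraMap A B) (b + β) (c + γ) (d + δ) k1 k2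
      (qd i A a)) = ψ (qd i A a)
    rw [Qr.lift_qd, map_add, hd, q0 _ mδ, add_zero]

theorem sma_fp (S : Type) [CommRing S] (i : Fin 4) (A : Type) [CommRing A] [Algebra S A]
    [Algebra.FinitePresentation S A] (a : A) : Algebra.FinitePresentation S (Qr i A a) := by
  have h1 : Algebra.FinitePresentation S A[X] :=
    Algebra.FinitePresentation.trans S A A[X]
  have h2 : Algebra.FinitePresentation S (Er A) :=
    AdjoinRoot.finitePresentation (S := S) (X ^ 2 - C (X ^ 3 + X) : A[X][X])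
  exact AdjoinRoot.finitePresentation (S := S)
    (X ^ 2 - C (Gf i (algebraMap A (Er A) a) (eb A) (ec A)) : (Er A)[X])

/-- TASK: finite presentation (noetherian and finitely generated) and formally smooth -/
theorem smooth_Ch (i : Fin 4) : (algebraMap ℚ (Ch i)).Smooth := by
  rw [RingHom.smooth_algebraMap]
  exact ⟨formallySmooth_Ch i, sma_fp ℚ i ℚ[X] X⟩

/-- TASK -/
theorem smooth_Qr (i : Fin 4) (K : Type) [Field K] [Algebra ℚ K] (a : K)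
    (h : ∃ A2 A4 : Qr i K a, A2 * Gf i (qa i K a) (qb i K a) (qc i K a) +
      A4 * DG i (qa i K a) (qb i K a) (qc i K a) = 1) : (algebraMap K (Qr i K a)).Smooth := by
  rw [RingHom.smooth_algebraMap]
  exact ⟨formallySmooth_Qr i K a h, sma_fp K i K a⟩

end BB37
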