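import Pool.Agent.Lib.MP_bb37eb_nt.SCH.SmDefs

/-!
# Smoothness of the generic fibre
-/

open Polynomial

namespace BB37

/-- the polynomials `α` for the charts 0 and 1 -/
noncomputable def alp (i : Fin 4) {K : Type} [CommRing K] (a : K) : K[X] :=
  if i = 0 then C (2 * a ^ 2) * (X ^ 2 + 1) + C (2 * a + 2)
  else C (2 * a ^ 2) * (X ^ 2 + 1) + C (2 * (a + 1)) * X ^ 2

/-- the derivative of `alp` -/
noncomputable def smb_dalp (i : Fin 4) {K : Type} [CommRing K] (a : K) : K[X] :=
  if i = 0 then C (2 * a ^ 2) * (2 * X)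
  else C (2 * a ^ 2) * (2 * X) + C (2 * (a + 1)) * (2 * X)

theorem smb_derivative_alp (i : Fin 4) {K : Type} [CommRing K] (a : K) :
    derivative (alp i a) = smb_dalp i a := by
  unfold alp smb_dalp
  split_ifs
  · simp only [derivative_add, derivative_mul, derivative_C, zero_mul, zero_add, derivative_X_pow,
      derivative_one, add_zero, Nat.cast_ofNat, Nat.add_one_sub_one, pow_one, C_ofNat]
  · simp only [derivative_add, derivative_mul, derivative_C, zero_mul, zero_add, derivative_X_pow,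
      derivative_one, add_zero, Nat.cast_ofNat, Nat.add_one_sub_one, pow_one, C_ofNat]

theorem smb_derivative_N (i : Fin 4) {K : Type} [CommRing K] (a : K) :
    derivative (alp i a ^ 2 - (X ^ 3 + X)) =
      2 * alp i a * smb_dalp i a - (3 * X ^ 2 + 1) := by
  rw [derivative_sub, derivative_pow, smb_derivative_alp, derivative_add, derivative_X_pow,
    derivative_X]
  simp only [Nat.cast_ofNat, C_ofNat, Nat.add_one_sub_one, pow_one]

/-- TASK `cert_of_coprime`: for `i = 0, 1` we have `G = α(b) + c`. Let `N = α^2 - (X^3+X)`. If `N`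
is coprime to its derivative and `α` is coprime to `X^3 + X`, then `G` and `DG` generate the unit
ideal. PROOF: let `I` be the ideal they generate and `Ḡ = α(b) - c`. `G Ḡ = N(b)` lies in `I`.
The derivation `D` along the curve (`D b = 2c`, `D c = 3b^2+1`) gives
`D(G Ḡ) = DG Ḡ + G DḠ = 2 c N'(b)`, so `2 c N'(b) ∈ I` (verify: `DG = (3b^2+1) + 2c α'(b)`,
`DḠ = -(3b^2+1) + 2c α'(b)`). Hence `2c ∈ I` by coprimality of `N`, `N'`, so `b^3 + b = c^2 ∈ I`,
and `α(b)^2 = N(b) + (b^3 + b) ∈ I`; `α` is coprime to `X^3 + X`, so `1 ∈ I`. -/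
theorem cert_of_coprime (i : Fin 4) (hi : i = 0 ∨ i = 1) (K : Type) [Field K] [Algebra ℚ K]
    (a : K) (h1 : IsCoprime (alp i a ^ 2 - (X ^ 3 + X)) (derivative (alp i a ^ 2 - (X ^ 3 + X))))
    (h2 : IsCoprime (alp i a) (X ^ 3 + X)) :
    ∃ A2 A4 : Qr i K a, A2 * Gf i (qa i K a) (qb i K a) (qc i K a) +
      A4 * DG i (qa i K a) (qb i K a) (qc i K a) = 1 := by
  obtain ⟨u, v, huv⟩ := h1
  obtain ⟨p, q, hpq⟩ := h2
  rw [smb_derivative_N] at huv
  set φ := Qr.poly i K a with hφ
  have hX : φ X = qb i K a := rfl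
  have hC : ∀ r : K, φ (C r) = algebraMap K (Qr i K a) r := fun r => rfl
  have ha : algebraMap K (Qr i K a) a = qa i K a := rfl
  have hG : Gf i (qa i K a) (qb i K a) (qc i K a) = φ (alp i a) + qc i K a := by
    rcases hi with rfl | rfl
    · simp only [Gf, alp, if_true, map_add, map_mul, map_pow, map_one, hX, hC, ha, map_ofNat]
      ring
    · simp only [Gf, alp, if_neg (show ¬ (1 : Fin 4) = 0 by decide), map_add, map_mul, map_pow,
        map_one, hX, hC, ha, map_ofNat]
      ring
  have hDG : DG i (qa i K a) (qb i K a) (qc i K a) =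
      (3 * qb i K a ^ 2 + 1) + 2 * qc i K a * φ (smb_dalp i a) := by
    rcases hi with rfl | rfl
    · simp only [DG, Gc, Gb, smb_dalp, if_true, map_add, map_mul, map_pow, map_one, hX, hC, ha,
        map_ofNat]
      ring
    · simp only [DG, Gc, Gb, smb_dalp, if_neg (show ¬ (1 : Fin 4) = 0 by decide), map_add,
        map_mul, map_pow, map_one, hX, hC, ha, map_ofNat]
      ring
  have e1 := congrArg φ huv
  have e2 := congrArg φ hpq
  simp only [map_add, map_mul, map_sub, map_pow, map_one, hX, map_ofNat] at e1 e2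
  have hc := qc_sq i K a
  obtain ⟨h, hh⟩ : ∃ h : Qr i K a, 2 * h = 1 := by
    refine ⟨algebraMap ℚ (Qr i K a) (1 / 2), ?_⟩
    have h2 : (2 : Qr i K a) = algebraMap ℚ (Qr i K a) 2 := by rw [map_ofNat]
    rw [h2, ← map_mul]
    norm_num
  rw [hG, hDG]
  generalize qb i K a = b at *
  generalize qc i K a = c at *
  generalize φ (alp i a) = A at *
  generalize φ (smb_dalp i a) = A' at *
  generalize φ u = U at *
  generalize φ v = V at *
  generalize φ p = P at *
  generalize φ q = Q at *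
  -- `2 c = G S + DG T`
  have hS : 2 * c = (A + c) * (2 * c * U * (A - c) + V * (2 * c * A' - (3 * b ^ 2 + 1))) +
      ((3 * b ^ 2 + 1) + 2 * c * A') * (V * (A - c)) := by
    linear_combination (-2 * c) * e1 + (2 * c * U) * hc
  have e3 : P * A + Q * c ^ 2 = 1 := by rw [hc]; exact e2
  refine ⟨P ^ 2 * (A - c) + h * (2 * c * U * (A - c) + V * (2 * c * A' - (3 * b ^ 2 + 1))) *
    (P ^ 2 * c + 2 * P * A * Q * c + Q ^ 2 * c ^ 3),
    h * (V * (A - c)) * (P ^ 2 * c + 2 * P * A * Q * c + Q ^ 2 * c ^ 3), ?_⟩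
  linear_combination (-h * (P ^ 2 * c + 2 * P * A * Q * c + Q ^ 2 * c ^ 3)) * hS +
    (c * (P ^ 2 * c + 2 * P * A * Q * c + Q ^ 2 * c ^ 3)) * hh + (P * A + Q * c ^ 2 + 1) * e3

theorem smb_map_alp (i : Fin 4) {K L : Type} [CommRing K] [CommRing L] (φ : K →+* L) (a : K) :
    (alp i a).map φ = alp i (φ a) := by
  unfold alp
  split_ifs
  · simp only [Polynomial.map_add, Polynomial.map_mul, Polynomial.map_pow, map_X, map_C,
      Polynomial.map_one, map_mul, map_add, map_pow, map_ofNat, Polynomial.map_ofNat]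
  · simp only [Polynomial.map_add, Polynomial.map_mul, Polynomial.map_pow, map_X, map_C,
      Polynomial.map_one, map_mul, map_add, map_pow, map_ofNat, map_one, Polynomial.map_ofNat]

theorem smb_map_N (i : Fin 4) {K L : Type} [CommRing K] [CommRing L] (φ : K →+* L) (a : K) :
    (alp i a ^ 2 - (X ^ 3 + X)).map φ = alp i (φ a) ^ 2 - (X ^ 3 + X) := by
  rw [Polynomial.map_sub, Polynomial.map_pow, smb_map_alp, Polynomial.map_add, Polynomial.map_pow,
    map_X]

/-- the special value `a = -1` -/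
theorem smb_N_neg_one (i : Fin 4) :
    alp i (-1 : ℚ) ^ 2 - (X ^ 3 + X) = C 4 * X ^ 4 - X ^ 3 + C 8 * X ^ 2 - X + C 4 := by
  have h : alp i (-1 : ℚ) = 2 * (X ^ 2 + 1) := by
    unfold alp
    split_ifs
    · norm_num [C_ofNat]
    · norm_num [C_ofNat]
  rw [h]
  simp only [C_ofNat]
  ring

theorem smb_D_neg_one :
    derivative (C 4 * X ^ 4 - X ^ 3 + C 8 * X ^ 2 - X + C 4 : ℚ[X]) =
      C 16 * X ^ 3 - C 3 * X ^ 2 + C 16 * X - C 1 := by
  simp only [derivative_add, derivative_sub, derivative_mul, derivative_C, zero_mul, zero_add,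
    derivative_X_pow, derivative_X, add_zero, Nat.cast_ofNat, Nat.add_one_sub_one, pow_one]
  simp only [C_ofNat, C_1]
  ring

theorem smb_resultant_ne_zero :
    resultant (C 4 * X ^ 4 - X ^ 3 + C 8 * X ^ 2 - X + C 4 : ℚ[X])
      (C 16 * X ^ 3 - C 3 * X ^ 2 + C 16 * X - C 1) 4 3 ≠ 0 := by
  have h4 : (C 4 * X ^ 4 - X ^ 3 + C 8 * X ^ 2 - X + C 4 : ℚ[X]).natDegree = 4 := by
    compute_degree!
  have h3 : (C 16 * X ^ 3 - C 3 * X ^ 2 + C 16 * X - C 1 : ℚ[X]).natDegree = 3 := by
    compute_degree!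
  have h := resultant_eq_zero_iff (f := (C 4 * X ^ 4 - X ^ 3 + C 8 * X ^ 2 - X + C 4 : ℚ[X]))
    (g := (C 16 * X ^ 3 - C 3 * X ^ 2 + C 16 * X - C 1 : ℚ[X]))
  rw [h4, h3] at h
  rw [Ne, h]
  rintro ⟨-, h5⟩
  refine h5 ⟨C (1 / 126) * (C 8 + C 503 * X - C 2000 * X ^ 2),
    C (1 / 126) * (- C 94 + C 500 * X - C 157 * X ^ 2 + C 500 * X ^ 3), ?_⟩
  have h6 : (C (1 / 126) : ℚ[X]) * 126 = 1 := by
    rw [← C_ofNat, ← C_mul]
    norm_num
  simp only [C_ofNat, C_1]
  linear_combination h6

theorem smb_coprime_C {K : Type} [Field K] (q g : K[X]) {r : K} (hr : r ≠ 0) :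
    IsCoprime (q * g + C r) g := by
  refine ⟨C r⁻¹, -q * C r⁻¹, ?_⟩
  have h : (C r⁻¹ : K[X]) * C r = 1 := by rw [← C_mul, inv_mul_cancel₀ hr, C_1]
  linear_combination h

/-- TASK `coprime_gen`: for transcendental `a` the hypotheses hold. PROOF of the first: let
`N_a = α^2 - (X^3+X)`, a polynomial of degree 4 in `X` with leading coefficient `4a^4` (`i = 0`),
`(2a^2 + 2a + 2)^2` (`i = 1`; both nonzero). Its resultant with the derivative
(`Polynomial.resultant`, `resultant_map_map`, `resultant_eq_zero_iff`) is the value at `a` of a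
polynomial `ρ ∈ ℚ[T]`, the resultant for the coefficient ring `ℚ[T]`, `a = T`. At `T = 1` the
value of `ρ` is the resultant of `N_1` and `N_1'` over `ℚ` (the degrees do not drop), and `N_1`
is separable: `i = 0`: `N_1 = (2X^2+6)^2 - X^3 - X`, `i = 1`: `N_1 = (6X^2+2)^2 - X^3 - X` (give an
explicit Bezout identity, or note that it is the same polynomial reversed). So `ρ ≠ 0` and
`ρ(a) ≠ 0` as `a` is transcendental. (Other proofs are fine.) Second: a common root of `α` and
`X(X^2+1)` in an algebraic closure: `α(0) = 2a^2+2a+2` resp. `2a^2`, and at a root of `X^2+1` the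
value is `2a+2` resp. `-2(a+1)`; or explicit Bezout identities: `α = 2a^2 (X^2+1) + (2a+2)` gives
coprimality with `X^2+1`, etc. -/
theorem coprime_gen (i : Fin 4) (hi : i = 0 ∨ i = 1) (K : Type) [Field K] [Algebra ℚ K]
    (a : K) (ha : Transcendental ℚ a) :
    IsCoprime (alp i a ^ 2 - (X ^ 3 + X)) (derivative (alp i a ^ 2 - (X ^ 3 + X))) ∧
      IsCoprime (alp i a) (X ^ 3 + X) := by
  have hne : ∀ p : ℚ[X], p ≠ 0 → aeval a p ≠ 0 := fun p hp h =>
    hp (transcendental_iff.1 ha p h)
  constructor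
  · set f : ℚ[X][X] := alp i (X : ℚ[X]) ^ 2 - (X ^ 3 + X) with hf
    have hdf : f.natDegree ≤ 4 := by
      have h1 : (alp i (X : ℚ[X])).natDegree ≤ 2 := by
        unfold alp
        split_ifs
        · compute_degree
        · compute_degree
      refine (natDegree_sub_le _ _).trans (max_le ?_ ?_)
      · refine (natDegree_pow_le).trans ?_
        omega
      · compute_degree
        norm_num
    have hdg : (derivative f).natDegree ≤ 3 := (natDegree_derivative_le f).trans (by omega)
    obtain ⟨p, q, -, -, hpq⟩ := exists_mul_add_mul_eq_C_resultant f (derivative f) hdf hdg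
      (Or.inl (by norm_num))
    set ρ := resultant f (derivative f) 4 3 with hρ
    have hρ0 : ρ ≠ 0 := by
      intro h0
      have h1 := resultant_map_map (f := f) (g := derivative f) (m := 4) (n := 3)
        (evalRingHom (-1 : ℚ))
      rw [← hρ, h0, map_zero, ← derivative_map, hf, smb_map_N, coe_evalRingHom, eval_X,
        smb_N_neg_one, smb_D_neg_one] at h1
      exact smb_resultant_ne_zero h1
    have h2 := congrArg (Polynomial.map (aeval a : ℚ[X] →ₐ[ℚ] K).toRingHom) hpq
    rw [Polynomial.map_add, Polynomial.map_mul, Polynomial.map_mul, ← derivative_map, hf,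
      smb_map_N, map_C] at h2
    have h3 : (aeval a : ℚ[X] →ₐ[ℚ] K).toRingHom X = a := aeval_X a
    rw [h3] at h2
    have h4 : (aeval a : ℚ[X] →ₐ[ℚ] K).toRingHom ρ ≠ 0 := hne ρ hρ0
    set r := (aeval a : ℚ[X] →ₐ[ℚ] K).toRingHom ρ
    have h5 : (C r⁻¹ : K[X]) * C r = 1 := by rw [← C_mul, inv_mul_cancel₀ h4, C_1]
    refine ⟨C r⁻¹ * p.map (aeval a : ℚ[X] →ₐ[ℚ] K).toRingHom,
      C r⁻¹ * q.map (aeval a : ℚ[X] →ₐ[ℚ] K).toRingHom, ?_⟩
    linear_combination C r⁻¹ * h2 + h5
  · have hX : (X ^ 3 + X : K[X]) = X * (X ^ 2 + 1) := by ring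
    have hv : ∀ p : ℚ[X], p.eval 1 ≠ 0 → aeval a p ≠ 0 := fun p hp =>
      hne p fun h => hp (by rw [h, eval_zero])
    rw [hX]
    rcases hi with rfl | rfl
    · have h1 : (2 * a ^ 2 + (2 * a + 2)) ≠ 0 := by
        have := hv (2 * X ^ 2 + (2 * X + 2)) (by norm_num)
        simpa [map_ofNat] using this
      have h2 : (2 * a + 2) ≠ 0 := by
        have := hv (2 * X + 2) (by norm_num)
        simpa [map_ofNat] using this
      refine IsCoprime.mul_right ?_ ?_
      · have h3 := smb_coprime_C (C (2 * a ^ 2) * X) X h1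
        have h4 : alp 0 a = C (2 * a ^ 2) * X * X + C (2 * a ^ 2 + (2 * a + 2)) := by
          unfold alp
          rw [if_pos rfl, C_add (a := 2 * a ^ 2)]
          ring
        rw [h4]; exact h3
      · have h3 := smb_coprime_C (C (2 * a ^ 2)) (X ^ 2 + 1) h2
        have h4 : alp 0 a = C (2 * a ^ 2) * (X ^ 2 + 1) + C (2 * a + 2) := by
          unfold alp
          rw [if_pos rfl]
        rw [h4]; exact h3
    · have h1 : (2 * a ^ 2) ≠ 0 := by
        have := hv (2 * X ^ 2) (by norm_num)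
        simpa [map_ofNat] using this
      have h2 : (-(2 * (a + 1))) ≠ 0 := by
        have := hv (-(2 * (X + 1))) (by norm_num)
        simpa [map_ofNat] using this
      refine IsCoprime.mul_right ?_ ?_
      · have h3 := smb_coprime_C ((C (2 * a ^ 2) + C (2 * (a + 1))) * X) X h1
        have h4 : alp 1 a = (C (2 * a ^ 2) + C (2 * (a + 1))) * X * X + C (2 * a ^ 2) := by
          unfold alp
          rw [if_neg (by decide)]
          ring
        rw [h4]; exact h3
      · have h3 := smb_coprime_C (C (2 * a ^ 2) + C (2 * (a + 1))) (X ^ 2 + 1) h2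
        have h4 : alp 1 a = (C (2 * a ^ 2) + C (2 * (a + 1))) * (X ^ 2 + 1) +
            C (-(2 * (a + 1))) := by
          unfold alp
          rw [if_neg (by decide), C_neg]
          ring
        rw [h4]; exact h3

end BB37
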