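import Pool.Agent.Lib.MP_bb37eb_nt.SCH.SmDefs

/-!
# The branch curve is smooth
-/

open Polynomial

namespace BB37

/-- the two polynomials in one variable have no common zero -/
theorem smcert_coprime {K : Type} [Field K] [CharZero K] (t : K)
    (hp : 8 * t ^ 3 * (t + 2) ^ 4 + 2 * t + 1 = 0) (hm : 4 * t ^ 2 + 5 * t + 2 = 0) : False := by
  have h2 : t ^ 2 = -(5 * t + 2) / 4 := by linear_combination hm / 4
  have h3 : t ^ 3 = (17 * t + 10) / 16 := by
    have : t ^ 3 = t * t ^ 2 := by ring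
    rw [this, h2]
    linear_combination (-5 / 4) * h2
  have h4 : (t + 2) ^ 2 = (11 * t + 14) / 4 := by linear_combination h2
  have h5 : (t + 2) ^ 4 = (627 * t + 542) / 64 := by
    have : (t + 2) ^ 4 = ((t + 2) ^ 2) ^ 2 := by ring
    rw [this, h4]
    linear_combination (121 / 16) * h2
  rw [h3, h5] at hp
  have h6 : 9665 * t + 874 = 0 := by
    linear_combination 512 * hp - (10659 / 128 * 512) * h2
  have h7 : (147643904 : K) = 0 := by
    linear_combination (9665 ^ 2 : K) * hm - (4 * 9665 * t + 5 * 9665 - 4 * 874) * h6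
  norm_num at h7

/-- the case `i = 0` -/
theorem smcert_core0 {K : Type} [Field K] [CharZero K] (t b c : K) (h : c ^ 2 = b ^ 3 + b)
    (h1 : t + 2 + c = 0) (h2 : 2 * t * (b ^ 2 + 1) + 1 = 0)
    (h3 : 3 * b ^ 2 + 1 + 8 * t ^ 2 * b * c = 0) : False := by
  have hc : c = -(t + 2) := by linear_combination h1
  subst hc
  have hb : b = -(2 * t * (t + 2) ^ 2) := by linear_combination (2 * t) * h + b * h2
  have hp : 8 * t ^ 3 * (t + 2) ^ 4 + 2 * t + 1 = 0 := by
    rw [hb] at h2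
    linear_combination h2
  have hq : 12 * t ^ 2 * (t + 2) ^ 4 + 16 * t ^ 3 * (t + 2) ^ 3 + 1 = 0 := by
    rw [hb] at h3
    linear_combination h3
  refine smcert_coprime t hp ?_
  linear_combination (-2 / 3 * t * (t + 2)) * hq + (t + 2 + 4 / 3 * t) * hp

/-- the case `i = 1` -/
theorem smcert_core1 {K : Type} [Field K] [CharZero K] (t b c : K) (h : c ^ 2 = b ^ 3 + b)
    (h1 : (t + 2) * b ^ 2 + c = 0) (h2 : 2 * t * (b ^ 2 + 1) + b ^ 2 = 0)
    (h3 : 3 * b ^ 2 + 1 + 8 * b * c * (t ^ 2 + t + 1) = 0) : False := by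
  have hc : c = -((t + 2) * b ^ 2) := by linear_combination h1
  subst hc
  have hb : b ≠ 0 := by
    rintro rfl
    apply one_ne_zero (α := K)
    linear_combination h3
  have h4 : 2 * t * (t + 2) ^ 2 * b + 1 = 0 := by
    have h5 : b ^ 3 * (2 * t * (t + 2) ^ 2 * b + 1) = 0 := by
      linear_combination (2 * t) * h + b * h2
    exact (mul_eq_zero.1 h5).resolve_left (pow_ne_zero _ hb)
  have hp : 8 * t ^ 3 * (t + 2) ^ 4 + 2 * t + 1 = 0 := by
    have h5 : b ^ 2 * (8 * t ^ 3 * (t + 2) ^ 4 + 2 * t + 1) = 0 := by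
      linear_combination h2 + (2 * t) * (2 * t * (t + 2) ^ 2 * b - 1) * h4
    exact (mul_eq_zero.1 h5).resolve_left (pow_ne_zero _ hb)
  have hs : t + 2 ≠ 0 := by
    intro h0
    rw [h0] at h4
    apply one_ne_zero (α := K)
    linear_combination h4
  have hm : (t + 2) * (4 * t ^ 2 + 5 * t + 2) = 0 := by
    have h5 : b ^ 3 * ((t + 2) * (4 * t ^ 2 + 5 * t + 2)) = 0 := by
      linear_combination ((3 * b ^ 2 + 1) * h4 - (t + 2) ^ 2 * b * h2 - h3) / 3
    exact (mul_eq_zero.1 h5).resolve_left (pow_ne_zero _ hb)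
  exact smcert_coprime t hp ((mul_eq_zero.1 hm).resolve_left hs)

/-- the statement in a field -/
theorem smcert_field (i : Fin 4) {K : Type} [Field K] [CharZero K] (a b c : K)
    (h : c ^ 2 = b ^ 3 + b) (hG : Gf i a b c = 0) (hGa : Ga i a b c = 0)
    (hDG : DG i a b c = 0) : False := by
  fin_cases i <;>
    simp only [Gf, Ga, DG, Gb, Gc, Fin.zero_eta, Fin.mk_one, Fin.reduceFinMk] at hG hGa hDG
  · refine smcert_core0 a b c h ?_ ?_ ?_
    · linear_combination hG - a / 2 * hGa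
    · linear_combination hGa / 2
    · linear_combination hDG
  · refine smcert_core1 a b c h ?_ ?_ ?_
    · linear_combination hG - a / 2 * hGa
    · linear_combination hGa / 2
    · linear_combination hDG
  · have ha : a ≠ 0 := by
      rintro rfl
      apply one_ne_zero (α := K)
      linear_combination hGa / 2
    have hi : a * a⁻¹ = 1 := mul_inv_cancel₀ ha
    refine smcert_core0 a⁻¹ b c h ?_ ?_ ?_
    · linear_combination a⁻¹ * hGa / 2 - (c + 2) * hi
    · linear_combination a⁻¹ * (hG - a / 2 * hGa) - (1 : K) * hi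
    · linear_combination a⁻¹ ^ 2 * hDG - (3 * b ^ 2 + 1) * (a * a⁻¹ + 1) * hi
  · have hb : b ≠ 0 := by
      rintro rfl
      apply two_ne_zero (α := K)
      linear_combination hG - a / 2 * hGa
    have ha : a ≠ 0 := by
      rintro rfl
      have h5 : b ^ 2 = 0 := by linear_combination hGa / 2
      exact pow_ne_zero 2 hb h5
    have hi : a * a⁻¹ = 1 := mul_inv_cancel₀ ha
    refine smcert_core1 a⁻¹ b c h ?_ ?_ ?_
    · linear_combination a⁻¹ * hGa / 2 - (c + 2 * b ^ 2) * hi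
    · linear_combination a⁻¹ * (hG - a / 2 * hGa) - b ^ 2 * hi
    · linear_combination a⁻¹ ^ 2 * hDG -
        ((3 * b ^ 2 + 1 + 8 * b * c) * (a * a⁻¹ + 1) + 8 * b * c * a⁻¹) * hi

/-- TASK `cert`: `G`, its derivative with respect to `a` and its derivative along the curve generate
the unit ideal. PROOF: let `I` be the ideal generated by the three elements. Show `1 ∈ I`
(`Ideal.mem_span_insert`, `Ideal.mem_span_triple` or similar at the end).
`i = 0`: `e1 := G - (a/2) Ga = a + 2 + c ∈ I`; `e2 := Ga / 2 = 2a(b^2+1) + 1 ∈ I`;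
`(c - (a+2)) e1 = b(b^2+1) - (a+2)^2`, so (times `2a`, minus `b e2`) `e3 := b + 2a(a+2)^2 ∈ I`.
Substituting `b = -2a(a+2)^2`, `c = -(a+2)` in `e2` and in `DG = 3b^2 + 1 + 8a^2bc`:
`p = 8a^3(a+2)^4 + 2a + 1 ∈ I`, `q = 12a^2(a+2)^4 + 16a^3(a+2)^3 + 1 ∈ I`. Now
`a(a+2) q - (3/2)(a+2) p - 2a p = -(6a^2 + (15/2)a + 3)`, so `m := 4a^2 + 5a + 2 ∈ I`; `m` and `p`
are coprime in `ℚ[a]` (reduce `p` modulo `m`: `a^2 = -(5a+2)/4`; the remainder `r a + s` and `m`
have a nonzero resultant), which gives a rational Bezout identity, so `1 ∈ I`.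
`i = 1`: `G - (a/2) Ga = (a+2) b^2 + c`, `Ga/2 = 2a(b^2+1) + b^2`,
`DG = 3b^2 + 1 + 8bc(a^2+a+1)`; substituting `c = -(a+2)b^2` in `DG` shows that `b` is invertible
modulo `I`: `1 ≡ b (-3b + 8b^2(a+2)(a^2+a+1))`. With `β = 1/b`: `c^2 = b^3 + b` times `2a` gives
`b^3 (1 + 2a(a+2)^2 b) ∈ I`, so `β ≡ -2a(a+2)^2`, and `2a(1+β^2) + 1 ∈ I` gives `p ∈ I`; `DG β^3`
gives `3β + β^3 - 8(a+2)(a^2+a+1) ∈ I`, hence `(a+2)(4a^2+5a+2) ∈ I` and one finishes as before.
`i = 2`: `G - (a/2) Ga = 2b^2 + 2 + a`, `Ga/2 = 1 + a(c+2)`, so `a` is invertible modulo `I` with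
inverse `t = -(c+2)`, and one is in the situation `i = 0` with `t` in place of `a` (multiply by
powers of `t`). `i = 3`: `G - (a/2) Ga = 2 + b^2(2+a)`, `Ga/2 = b^2 + a(c+2b^2)`, so `a` and `b`
are invertible modulo `I` and one is in the situation `i = 1` with `t = 1/a`.
(A computer algebra certificate `A2, A3, A4` as polynomials in `a, b, c` with `linear_combination`
is equally fine. One may first prove a general statement for a ring in which the three elements are
zero: then `1 = 0` in the quotient `R / I`, which avoids ideals: apply it to `R ⧸ I`.) -/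
theorem cert (i : Fin 4) {R : Type} [CommRing R] [Algebra ℚ R] (a b c : R)
    (h : c ^ 2 = b ^ 3 + b) :
    ∃ A2 A3 A4 : R, A2 * Gf i a b c + A3 * Ga i a b c + A4 * DG i a b c = 1 := by
  suffices htop : Ideal.span {Gf i a b c, Ga i a b c, DG i a b c} = ⊤ by
    have h1 : (1 : R) ∈ Ideal.span {Gf i a b c, Ga i a b c, DG i a b c} := by
      rw [htop]
      trivial
    obtain ⟨x, y, z, hxyz⟩ := Submodule.mem_span_triple.1 h1
    exact ⟨x, y, z, hxyz⟩
  by_contra hne
  obtain ⟨M, hM, hle⟩ := Ideal.exists_le_maximal _ hne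
  let _ : Field (R ⧸ M) := Ideal.Quotient.field M
  have _ : CharZero (R ⧸ M) := algebraRat.charZero (R ⧸ M)
  have hz : ∀ r ∈ ({Gf i a b c, Ga i a b c, DG i a b c} : Set R), Ideal.Quotient.mk M r = 0 :=
    fun r hr => Ideal.Quotient.eq_zero_iff_mem.2 (hle (Ideal.subset_span hr))
  have hG := hz _ (Set.mem_insert _ _)
  have hGa := hz _ (Set.mem_insert_of_mem _ (Set.mem_insert _ _))
  have hDG := hz _ (Set.mem_insert_of_mem _ (Set.mem_insert_of_mem _ (Set.mem_singleton _)))
  have hE : Ideal.Quotient.mk M c ^ 2 = Ideal.Quotient.mk M b ^ 3 + Ideal.Quotient.mk M b := by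
    rw [← map_pow, h, map_add, map_pow]
  rw [map_Gf] at hG
  have hGa' : Ga i (Ideal.Quotient.mk M a) (Ideal.Quotient.mk M b) (Ideal.Quotient.mk M c) = 0 := by
    rw [← hGa]
    fin_cases i <;> simp [Ga, map_add, map_mul, map_pow, map_ofNat]
  have hDG' : DG i (Ideal.Quotient.mk M a) (Ideal.Quotient.mk M b) (Ideal.Quotient.mk M c) = 0 := by
    rw [← hDG]
    fin_cases i <;> simp [DG, Gb, Gc, map_add, map_mul, map_pow, map_ofNat]
  exact smcert_field i _ _ _ hE hG hGa' hDG'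

end BB37
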