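import Pool.Agent.Lib.MP_bb37eb_nt.SCH.SmA
import Pool.Agent.Lib.MP_bb37eb_nt.SCH.SmB
import Pool.Agent.Lib.MP_bb37eb_nt.AR.CertRel

/-!
# The certificate for the smoothness of the fibres
-/

open Polynomial

namespace BB37

theorem smd_map_dB {A B : Type} [CommRing A] [CommRing B] (φ : A →+* B) (t : A) :
    φ (Cert.dB t) = Cert.dB (φ t) := by
  simp only [Cert.dB, Cert.dA, map_mul, map_add, map_sub, map_neg, map_pow, map_one, map_ofNat]

/-- TASK `cert_of_dB`. PROOF: let `C` be the quotient of `Qr i K a` by the ideal generated by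
`Gf i qa qb qc` and `DG i qa qb qc`. `Cert.relA` (`i = 0`) resp. `Cert.relB` (`i = 1`) in `C` with
`w = 0` gives `Cert.dA a = 0` resp. `Cert.dB a = 0` in `C`; this is the image of a nonzero element
of the field `K` (`dB = (t^2+t+1)^2 * dA`), so `1 = 0` in `C`. -/
theorem cert_of_dB (i : Fin 4) (hi : i = 0 ∨ i = 1) {K : Type} [Field K] [Algebra ℚ K] (a : K)
    (h : Cert.dB a ≠ 0) :
    ∃ A2 A4 : Qr i K a, A2 * Gf i (qa i K a) (qb i K a) (qc i K a) +
      A4 * DG i (qa i K a) (qb i K a) (qc i K a) = 1 := by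
  set G := Gf i (qa i K a) (qb i K a) (qc i K a) with hG
  set D := DG i (qa i K a) (qb i K a) (qc i K a) with hD
  let J : Ideal (Qr i K a) := Ideal.span {G, D}
  have hGJ : Ideal.Quotient.mk J G = 0 :=
    Ideal.Quotient.eq_zero_iff_mem.2 (Ideal.subset_span (by simp))
  have hDJ : Ideal.Quotient.mk J D = 0 :=
    Ideal.Quotient.eq_zero_iff_mem.2 (Ideal.subset_span (by simp))
  set φ : Qr i K a →+* (Qr i K a ⧸ J) := Ideal.Quotient.mk J with hφ
  have hG' : Gf i (φ (qa i K a)) (φ (qb i K a)) (φ (qc i K a)) = 0 := by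
    rw [← map_Gf]; exact hGJ
  have hD' : DG i (φ (qa i K a)) (φ (qb i K a)) (φ (qc i K a)) = 0 := by
    rw [← sma_map_DG]; exact hDJ
  have hc : φ (qc i K a) ^ 2 = φ (qb i K a) ^ 3 + φ (qb i K a) := by
    rw [← map_pow, ← map_pow, ← map_add, qc_sq]
  have key : Cert.dB (φ (qa i K a)) = 0 := by
    rcases hi with rfl | rfl
    · have h1 : Cert.dA (φ (qa 0 K a)) = 0 := by
        refine Cert.relA (w := 0) hc ?_ ?_ ?_ ?_
        · have h2 := hG'
          simp only [Gf] at h2
          linear_combination -h2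
        · ring
        · ring
        · have h2 := hD'
          simp only [DG, Gb, Gc] at h2
          linear_combination h2
      rw [Cert.dB, h1, mul_zero]
    · refine Cert.relB (w := 0) hc ?_ ?_ ?_ ?_
      · have h2 := hG'
        simp only [Gf] at h2
        linear_combination -h2
      · ring
      · ring
      · have h2 := hD'
        simp only [DG, Gb, Gc] at h2
        linear_combination h2
  have h3 : φ (algebraMap K (Qr i K a) (Cert.dB a)) = 0 := by
    rw [smd_map_dB, smd_map_dB]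
    exact key
  have h4 : (1 : Qr i K a) ∈ J := by
    rw [← Ideal.Quotient.eq_zero_iff_mem]
    have h5 : (1 : Qr i K a) =
        algebraMap K (Qr i K a) (Cert.dB a)⁻¹ * algebraMap K (Qr i K a) (Cert.dB a) := by
      rw [← map_mul, inv_mul_cancel₀ h, map_one]
    rw [h5, map_mul]
    rw [hφ] at h3
    rw [h3, mul_zero]
  obtain ⟨A2, A4, h6⟩ := Ideal.mem_span_pair.1 h4
  exact ⟨A2, A4, h6⟩

end BB37
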