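import Pool.Agent.Lib.MP_bb37eb_nt.SCH.Nf

/-!
# Partial derivatives of the right hand sides
-/

open Polynomial

namespace BB37

variable (i : Fin 4) {R : Type} [CommRing R] (a b c : R)

/-- derivative with respect to `a` -/
def Ga : R :=
  match i with
  | 0 => 4 * a * (b ^ 2 + 1) + 2
  | 1 => 4 * a * (b ^ 2 + 1) + 2 * b ^ 2
  | 2 => 2 + 2 * a * (c + 2)
  | 3 => 2 * b ^ 2 + 2 * a * (c + 2 * b ^ 2)

/-- derivative with respect to `b` -/
def Gb : R :=
  match i with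
  | 0 => 4 * a ^ 2 * b
  | 1 => 4 * a ^ 2 * b + 4 * a * b + 4 * b
  | 2 => 4 * b
  | 3 => 4 * b + 4 * a * b + 4 * a ^ 2 * b

/-- derivative with respect to `c` -/
def Gc : R :=
  match i with
  | 0 => 1
  | 1 => 1
  | 2 => a ^ 2
  | 3 => a ^ 2

/-- derivative along the curve `c^2 = b^3 + b` -/
def DG : R := (3 * b ^ 2 + 1) * Gc i a + 2 * c * Gb i a b

/-- Taylor expansion to first order -/
theorem Gf_add (α β γ : R) (h1 : α * α = 0) (h2 : α * β = 0) (h3 : β * β = 0) (h4 : α * γ = 0) :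
    Gf i (a + α) (b + β) (c + γ) =
      Gf i a b c + Ga i a b c * α + Gb i a b * β + Gc i a * γ := by
  have h5 : α * β * β = 0 := by rw [h2, zero_mul]
  have h6 : α * α * β = 0 := by rw [h1, zero_mul]
  fin_cases i <;> simp only [Gf, Ga, Gb, Gc, Fin.zero_eta, Fin.mk_one, Fin.reduceFinMk]
  · linear_combination (2 * (b + β) ^ 2 + 2) * h1 + 8 * a * b * h2 + (2 * a ^ 2 + 4 * a * α) * h3
  · linear_combination (2 * (b + β) ^ 2 + 2) * h1 + (8 * a * b + 4 * b) * h2 +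
      (2 * a ^ 2 + 4 * a * α + 2 * a + 2 * α + 2) * h3
  · linear_combination (c + γ + 2) * h1 + 2 * h3 + 2 * a * h4
  · linear_combination (c + γ + 2 * (b + β) ^ 2) * h1 + (4 * b + 8 * a * b) * h2 +
      (2 + 2 * a + 2 * α + 2 * a ^ 2 + 4 * a * α) * h3 + 2 * a * h4

end BB37
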