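import Pool.Agent.Lib.MP_bb37eb_nt.SCH.SurfC

/-!
# The fibres
-/

open AlgebraicGeometry CategoryTheory Polynomial Limits

namespace BB37

theorem surff_isPullback (S : Surf) (i : Fin 4) {B : Type} [CommRing B] [Algebra ℚ B] (a : B) :
    IsPullback (spMap (toQr i a)) (spMap (algebraMap B (Qr i B a)))
      (S.c i ≫ S.p) (spMap (evQ a) ≫ kap (tau i)) := by
  rw [S.c_p i]
  have h := isPullback_Qr i a
  have hl := PullbackCone.isLimitOfCompMono (spMap (algebraMap ℚ[X] (Ch i))) (spMap (evQ a))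
    (kap (tau i)) h.cone h.isLimit
  exact ⟨⟨by rw [← Category.assoc, h.w, Category.assoc]⟩, ⟨hl⟩⟩

/-- TASK `fibre_charts`: the charts of the fibre over a point of the chart `tau i` with values in a
ring `B`. PROOF: `fibreChart` is the base change of `S.c i` along `pullback.fst`: paste the pullback
square `isPullback_Qr` with the square of the monomorphism `kap (tau i)`. -/
theorem exists_fibreChart (S : Surf) (i : Fin 4) {B : Type} [CommRing B] [Algebra ℚ B] (a : B) :
    ∃ d : Sp (Qr i B a) ⟶ pullback S.p (spMap (evQ a) ≫ kap (tau i)), IsOpenImmersion d ∧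
      d ≫ pullback.fst _ _ = spMap (toQr i a) ≫ S.c i ∧
      d ≫ pullback.snd _ _ = spMap (algebraMap B (Qr i B a)) ∧
      ∀ x y, S.c i y = (pullback.fst S.p (spMap (evQ a) ≫ kap (tau i))) x → ∃ z, d z = x := by
  have h1 := surff_isPullback S i a
  have h2 : (spMap (toQr i a) ≫ S.c i) ≫ S.p =
      spMap (algebraMap B (Qr i B a)) ≫ (spMap (evQ a) ≫ kap (tau i)) := by
    rw [Category.assoc]
    exact h1.w
  have h3 : spMap (toQr i a) ≫ S.c i =
      pullback.lift (f := S.p) (g := spMap (evQ a) ≫ kap (tau i)) (spMap (toQr i a) ≫ S.c i)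
        (spMap (algebraMap B (Qr i B a))) h2 ≫ pullback.fst _ _ := by
    rw [pullback.lift_fst]
  have h4 : pullback.lift (f := S.p) (g := spMap (evQ a) ≫ kap (tau i))
      (spMap (toQr i a) ≫ S.c i) (spMap (algebraMap B (Qr i B a))) h2 ≫ pullback.snd _ _ =
      spMap (algebraMap B (Qr i B a)) := by
    rw [pullback.lift_snd]
  have h5 : IsPullback (spMap (toQr i a)) (pullback.lift (f := S.p)
      (g := spMap (evQ a) ≫ kap (tau i)) (spMap (toQr i a) ≫ S.c i)
      (spMap (algebraMap B (Qr i B a))) h2) (S.c i)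
      (pullback.fst S.p (spMap (evQ a) ≫ kap (tau i))) := by
    refine IsPullback.of_bot (v₂₁ := pullback.snd _ _) (v₂₂ := S.p)
      (h₃₁ := spMap (evQ a) ≫ kap (tau i)) ?_ h3 (IsPullback.of_hasPullback _ _)
    rw [h4]
    exact h1
  refine ⟨pullback.lift (f := S.p) (g := spMap (evQ a) ≫ kap (tau i))
      (spMap (toQr i a) ≫ S.c i) (spMap (algebraMap B (Qr i B a))) h2, ?_, h3.symm, h4, ?_⟩
  · exact MorphismProperty.of_isPullback (P := @IsOpenImmersion) h5 (S.op i)
  · intro x y hxy
    obtain ⟨z, -, hz⟩ := Scheme.Pullback.exists_preimage_pullback (f := S.c i)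
      (g := pullback.fst S.p (spMap (evQ a) ≫ kap (tau i))) y x hxy
    refine ⟨h5.isoPullback.inv z, ?_⟩
    rw [← hz, ← Scheme.Hom.comp_apply, h5.isoPullback_inv_snd]

/-- TASK `fibre_cover`: the charts `i` with `tau i = j` cover the fibre (from
`Surf.chart_of_p` and the last statement of `exists_fibreChart`). -/
theorem fibre_cover (S : Surf) (j : Fin 2) {B : Type} [CommRing B] [Algebra ℚ B] (a : B)
    (x : ↥(pullback S.p (spMap (evQ a) ≫ kap j))) :
    ∃ i, tau i = j ∧ ∃ y, S.c i y = (pullback.fst S.p (spMap (evQ a) ≫ kap j)) x := by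
  refine S.chart_of_p j _ (spMap (evQ a) (pullback.snd S.p (spMap (evQ a) ≫ kap j) x)) ?_
  rw [← Scheme.Hom.comp_apply, ← Scheme.Hom.comp_apply, ← pullback.condition,
    Scheme.Hom.comp_apply]

end BB37
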