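import Pool.Agent.Lib.MP_bb37eb_nt.SCH.SmD
import Pool.Agent.Lib.MP_bb37eb_nt.SCH.SurfF
import Pool.Agent.Lib.MP_bb37eb_nt.SCH.FlatP

/-!
# Smoothness of the surface, of the generic fibre and of the fibres over rational points
-/

open AlgebraicGeometry CategoryTheory Polynomial Limits

namespace BB37

/-- the surface is smooth over the rational numbers -/
theorem Surf.smooth_f (S : Surf) (f : S.X ⟶ Sp ℚ) : Smooth f := by
  have hloc : IsZariskiLocalAtSource @Smooth :=
    AlgebraicGeometry.HasRingHomProperty.instIsZariskiLocalAtSource (Q := RingHom.Smooth)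
  rw [IsZariskiLocalAtSource.iff_of_openCover (P := @Smooth) (flatp_cover S)]
  intro (i : Fin 4)
  change Smooth (S.c i ≫ f)
  rw [toSpQ_unique (S.c i ≫ f) (spMap (algebraMap ℚ (Ch i)))]
  exact (HasRingHomProperty.Spec_iff (P := @Smooth)).2 (smooth_Ch i)

/-- smoothness of a fibre from the certificates -/
theorem Surf.smooth_fibre (S : Surf) {K : Type} [Field K] [Algebra ℚ K] (a : K)
    (h : ∀ i : Fin 4, i = 0 ∨ i = 1 →
      ∃ A2 A4 : Qr i K a, A2 * Gf i (qa i K a) (qb i K a) (qc i K a) +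
        A4 * DG i (qa i K a) (qb i K a) (qc i K a) = 1) :
    Smooth (pullback.snd S.p (spMap (evQ a) ≫ kap 0)) := by
  have hloc : IsZariskiLocalAtSource @Smooth :=
    AlgebraicGeometry.HasRingHomProperty.instIsZariskiLocalAtSource (Q := RingHom.Smooth)
  have key : ∀ (j : Fin 2) (i : Fin 4) (_ : tau i = j),
      ∃ d : Sp (Qr i K a) ⟶ pullback S.p (spMap (evQ a) ≫ kap j), IsOpenImmersion d ∧
      d ≫ pullback.snd _ _ = spMap (algebraMap K (Qr i K a)) ∧
      ∀ x y, S.c i y = (pullback.fst S.p (spMap (evQ a) ≫ kap j)) x → ∃ z, d z = x := by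
    rintro j i rfl
    obtain ⟨d, h1, h2, h3, h4⟩ := exists_fibreChart S i a
    exact ⟨d, h1, h3, h4⟩
  obtain ⟨d0, h01, h02, h03⟩ := key 0 0 rfl
  obtain ⟨d1, h11, h12, h13⟩ := key 0 1 rfl
  let U : (pullback S.p (spMap (evQ a) ≫ kap 0)).OpenCover :=
    .mkOfCovers (Fin 2) (fun i => Sp (Qr (![0, 1] i) K a))
      (fun i => match i with | 0 => d0 | 1 => d1) (by
        intro x
        obtain ⟨i, hi, y, hy⟩ := fibre_cover S 0 a x
        have hi' : i = 0 ∨ i = 1 := by
          fin_cases i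
          · exact Or.inl rfl
          · exact Or.inr rfl
          · exact absurd hi (by decide)
          · exact absurd hi (by decide)
        rcases hi' with rfl | rfl
        · obtain ⟨z, hz⟩ := h03 x y hy
          exact ⟨0, z, hz⟩
        · obtain ⟨z, hz⟩ := h13 x y hy
          exact ⟨1, z, hz⟩) (by
        intro i
        match i with
        | 0 => exact h01
        | 1 => exact h11)
  rw [IsZariskiLocalAtSource.iff_of_openCover (P := @Smooth) U]
  intro (i : Fin 2)
  match i with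
  | 0 =>
    change Smooth (d0 ≫ _)
    rw [h02]
    exact (HasRingHomProperty.Spec_iff (P := @Smooth)).2 (smooth_Qr 0 K a (h 0 (Or.inl rfl)))
  | 1 =>
    change Smooth (d1 ≫ _)
    rw [h12]
    exact (HasRingHomProperty.Spec_iff (P := @Smooth)).2 (smooth_Qr 1 K a (h 1 (Or.inr rfl)))

/-- the generic point of the projective line -/
theorem smf_generic (y : PP 1) (hy : IsGenericPoint y Set.univ) :
    ∃ z : Sp ℚ[X], kap 0 z = y ∧ z.asIdeal = ⊥ := by
  have hz : y ∈ Set.range (kap 0) := by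
    have ho : IsOpen (Set.range (kap 0)) := (kap 0).isOpenEmbedding.isOpen_range
    rw [hy.mem_open_set_iff ho, Set.univ_inter]
    obtain ⟨z⟩ : Nonempty (Sp ℚ[X]) := inferInstanceAs (Nonempty (PrimeSpectrum ℚ[X]))
    exact ⟨_, z, rfl⟩
  obtain ⟨z, hz⟩ := hz
  refine ⟨z, hz, ?_⟩
  rw [eq_bot_iff]
  intro q hq
  rw [Ideal.mem_bot]
  by_contra hne
  have ho : IsOpen ((kap 0) '' (PrimeSpectrum.basicOpen q : Set (PrimeSpectrum ℚ[X]))) :=
    (kap 0).isOpenEmbedding.isOpenMap _ (PrimeSpectrum.basicOpen q).2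
  have hb : (⊥ : PrimeSpectrum ℚ[X]) ∈ (PrimeSpectrum.basicOpen q : Set (PrimeSpectrum ℚ[X])) := by
    intro h
    exact hne h
  have hm : y ∈ (kap 0) '' (PrimeSpectrum.basicOpen q : Set (PrimeSpectrum ℚ[X])) := by
    rw [hy.mem_open_set_iff ho, Set.univ_inter]
    exact ⟨_, (⊥ : PrimeSpectrum ℚ[X]), hb, rfl⟩
  obtain ⟨z', hz', e⟩ := hm
  have e2 : z' = z := (kap 0).isOpenEmbedding.injective (e.trans hz.symm)
  rw [e2] at hz'
  exact hz' hq

/-- the fibre over a point with dense image -/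
theorem smf_gen_aux (S : Surf) (z : Sp ℚ[X]) (hz0 : z.asIdeal = ⊥) {K : Type} [Field K]
    (P : Sp K ⟶ PP 1) (x : Sp K) (hP : P x = kap 0 z) : Smooth (pullback.snd S.p P) := by
  obtain ⟨φ, hφ⟩ := exists_lift_point (kap 0) P x z hP.symm
  have hx : (spMap φ) x = z := by
    apply (kap 0).isOpenEmbedding.injective
    rw [← hP, hφ]
    rfl
  have hinj : Function.Injective φ := by
    rw [injective_iff_map_eq_zero]
    intro q hq
    have h1 : q ∈ ((spMap φ) x).asIdeal := by
      change φ q ∈ x.asIdeal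
      rw [hq]
      exact x.asIdeal.zero_mem
    rw [hx, hz0, Ideal.mem_bot] at h1
    exact h1
  let _ : Algebra ℚ K := (φ.comp C).toAlgebra
  have e : φ = evQ (φ (X : ℚ[X])) := by
    refine Polynomial.ringHom_ext' (Subsingleton.elim _ _) ?_
    rw [evQ_X]
  have ha : Transcendental ℚ (φ (X : ℚ[X])) := by
    rw [transcendental_iff]
    intro p hp
    apply hinj
    rw [map_zero, e]
    exact hp
  have h : P = spMap (evQ (φ (X : ℚ[X]))) ≫ kap 0 := by rw [← e]; exact hφ
  rw [h]
  refine S.smooth_fibre _ fun i hi => ?_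
  obtain ⟨h1, h2⟩ := coprime_gen i hi K (φ (X : ℚ[X])) ha
  exact cert_of_coprime i hi K (φ (X : ℚ[X])) h1 h2

/-- the generic fibre is smooth -/
theorem Surf.smooth_gen (S : Surf) (y : PP 1) (hy : IsGenericPoint y Set.univ) :
    Smooth (S.p.fiberToSpecResidueField y) := by
  obtain ⟨z, hz, hz0⟩ := smf_generic y hy
  obtain ⟨x⟩ : Nonempty (Sp ((PP 1).residueField y)) :=
    inferInstanceAs (Nonempty (PrimeSpectrum ((PP 1).residueField y)))
  exact smf_gen_aux S z hz0 ((PP 1).fromSpecResidueField y) x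
    ((Scheme.fromSpecResidueField_apply _ _).trans hz.symm)

/-- only the fibre over the point at infinity is not smooth -/
theorem Surf.smooth_rat_finite (S : Surf) :
    {P : Sp ℚ ⟶ PP 1 | ¬ Smooth (pullback.snd S.p P)}.Finite := by
  have h0 : ∀ a : ℚ, Smooth (pullback.snd S.p (spMap (evQ a) ≫ kap 0)) := fun a =>
    S.smooth_fibre a fun i hi => cert_of_dB i hi a (Cert.dB_ne a)
  refine (Set.finite_singleton (spMap (evQ (0 : ℚ)) ≫ kap 1)).subset ?_
  intro P hP
  rw [Set.mem_singleton_iff]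
  change ¬ Smooth (pullback.snd S.p P) at hP
  obtain ⟨j, a, ha⟩ := P1_point P
  have hj : j = 0 ∨ j = 1 := by omega
  rcases hj with rfl | rfl
  · exact absurd (ha ▸ h0 a) hP
  · by_cases ha0 : a = 0
    · rw [ha, ha0]
    · refine absurd ?_ hP
      have h1 := h0 a⁻¹
      rw [kap_swap a⁻¹ a (inv_mul_cancel₀ ha0), ← ha] at h1
      exact h1

end BB37
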