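import Pool.Agent.Lib.MP_bb37eb_nt.SCH.Surf

/-!
# The surface is integral
-/

open AlgebraicGeometry CategoryTheory Polynomial Limits

namespace BB37

private theorem surfint_reduced (S : Surf) : IsReduced S.X := by
  refine @isReduced_of_isReduced_stalk _ fun x => ?_
  obtain ⟨i, y, rfl⟩ := S.cov x
  have : _root_.IsReduced ((Sp (Ch i)).presheaf.stalk y) := isReduced_stalk_of_isReduced _ y
  exact isReduced_of_injective ((S.c i).stalkMap y).hom
    (asIso ((S.c i).stalkMap y)).commRingCatIsoToRingEquiv.injective

private theorem surfint_ps (i : Fin 4) (pt : PrimeSpectrum FL) (y : PrimeSpectrum (Ch i)) :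
    PrimeSpectrum.comap (gen i) pt ⤳ y := by
  rw [← PrimeSpectrum.le_iff_specializes]
  intro z hz
  have hz' : gen i z ∈ pt.asIdeal := hz
  have h0 : gen i z = 0 := by
    by_contra hne
    exact pt.2.ne_top (Ideal.eq_top_of_isUnit_mem _ hz' (IsUnit.mk0 _ hne))
  have h1 : z = 0 := gen_injective i (h0.trans (map_zero _).symm)
  rw [h1]
  exact Ideal.zero_mem _

private theorem surfint_spec (i : Fin 4) (pt : Sp FL) (y : Sp (Ch i)) :
    (spMap (gen i)) pt ⤳ y := surfint_ps i pt y

private theorem surfint_irreducible (S : Surf) : IrreducibleSpace S.X := by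
  obtain ⟨pt⟩ : Nonempty (Sp FL) := inferInstance
  have h : closure {(spMap (gen 0) ≫ S.c 0) pt} = (Set.univ : Set S.X) := by
    rw [Set.eq_univ_iff_forall]
    intro x
    obtain ⟨i, y, rfl⟩ := S.cov x
    rw [← specializes_iff_mem_closure, S.gen_eq 0 i]
    have h1 := (surfint_spec i pt y).map (S.c i).continuous
    exact h1
  rw [irreducibleSpace_def, Set.top_eq_univ, ← h]
  exact isIrreducible_singleton.closure

/-- PROOF: reduced because the charts are domains (`IsReduced` is local:
`isReduced_of_isOpenImmersion`, `IsReduced.of_openCover`); irreducible because all charts contain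
the image of `Spec FL`, which is dense in every chart (`gen_injective`), hence dense in `X`
(closure of a point is irreducible). Then `isIntegral_of_irreducibleSpace_of_isReduced`. -/
theorem Surf.integral (S : Surf) : IsIntegral S.X := by
  have := surfint_reduced S
  have := surfint_irreducible S
  exact isIntegral_of_irreducibleSpace_of_isReduced _

end BB37
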