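import Pool.Agent.Lib.MP_bb37eb_nt.SCH.Surf

/-!
# The projection to the projective line
-/

open AlgebraicGeometry CategoryTheory Polynomial Limits

namespace BB37

/-- a point with values in a field which lies over the generic point of a domain is dominant -/
theorem surfp_dominant {Q L : Type} [CommRing Q] [IsDomain Q] [Field L] {W : Scheme.{0}}
    (g : W ⟶ Sp Q) [IsOpenImmersion g] (w : Sp L ⟶ W) (γ : Q →+* L)
    (hγ : Function.Injective γ) (h : w ≫ g = spMap γ) : IsDominant w := by
  constructor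
  intro y
  rw [mem_closure_iff]
  intro o ho hy
  obtain ⟨x⟩ : Nonempty (Sp L) := inferInstance
  have hx : g (w x) = (⊥ : PrimeSpectrum Q) := by
    have h1 : g (w x) = (w ≫ g) x := rfl
    rw [h1, h]
    apply PrimeSpectrum.ext
    have h3 : ((spMap γ) x).asIdeal = Ideal.comap γ x.asIdeal := rfl
    have h4 : x.asIdeal = ⊥ := by
      rcases Ideal.eq_bot_or_top x.asIdeal with h5 | h5
      · exact h5
      · exact absurd h5 x.2.ne_top
    rw [h3, h4]
    exact (RingHom.injective_iff_ker_eq_bot γ).1 hγ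
  have hop : IsOpen (g '' o) := g.isOpenEmbedding.isOpenMap _ ho
  have hsp : ((⊥ : PrimeSpectrum Q)) ⤳ (g y : PrimeSpectrum Q) :=
    (PrimeSpectrum.le_iff_specializes _ _).1 bot_le
  obtain ⟨z, hz, hz'⟩ := hsp.mem_open hop ⟨y, hy, rfl⟩
  have hzw : z = w x := g.isOpenEmbedding.injective (hz'.trans hx.symm)
  exact ⟨w x, hzw ▸ hz, x, rfl⟩

theorem surfp_gen (i : Fin 4) : (gen i).comp (algebraMap ℚ[X] (Ch i)) = evQ (fa i) :=
  RingHom.ext fun p => Ch.lift_C (fa i) (fb i) (fc i) (fd i) (fc_sq i) (fd_sq i) p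

theorem surfp_point (i : Fin 4) :
    spMap (gen i) ≫ spMap (algebraMap ℚ[X] (Ch i)) ≫ kap (tau i) =
      spMap (evQ (fa i)) ≫ kap (tau i) := by
  rw [← Category.assoc, ← Spec.map_comp, ← CommRingCat.ofHom_comp, surfp_gen]

theorem surfp_base (i : Fin 4) :
    spMap (evQ (fa i)) ≫ kap (tau i) = spMap (evQ ft) ≫ kap 0 := by
  have h := kap_swap ft ft⁻¹ (mul_inv_cancel₀ ft_ne_zero)
  fin_cases i
  · rfl
  · rfl
  · exact h.symm
  · exact h.symm

/-- TASK `exists_p`. PROOF: glue (`Scheme.Cover.glueMorphisms`) the morphisms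
`spMap (algebraMap ℚ[X] (Ch i)) ≫ kap (tau i)` over the open cover by the `S.c i`. On the pullback
`W` of `S.c i` and `S.c j`, which is an open subscheme of `Sp (Ch i)`, hence reduced, the two
morphisms to `PP 1` (separated, `PP1_separated`) agree because they agree after composition with
the dominant morphism `Sp FL ⟶ W` given by `gen i`, `gen j` (`S.gen_eq`, `gen_injective`;
`ext_of_isDominant`): there they are `spMap (evQ (fa i)) ≫ kap (tau i)` and the same with `j`, and
`fa i = fa j`, `tau i = tau j` or `fa i * fa j = 1` and `tau i ≠ tau j` (`kap_swap`). -/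
theorem exists_p (S : Surf) : ∃ p : S.X ⟶ PP 1,
    ∀ i, S.c i ≫ p = spMap (algebraMap ℚ[X] (Ch i)) ≫ kap (tau i) := by
  let 𝒰 : S.X.OpenCover :=
    Scheme.Cover.mkOfCovers (Fin 4) (fun i => Sp (Ch i)) S.c S.cov S.op
  have hf : ∀ i j : Fin 4, pullback.fst (S.c i) (S.c j) ≫
      (spMap (algebraMap ℚ[X] (Ch i)) ≫ kap (tau i)) =
      pullback.snd (S.c i) (S.c j) ≫ (spMap (algebraMap ℚ[X] (Ch j)) ≫ kap (tau j)) := by
    intro i j
    have hred : IsReduced (pullback (S.c i) (S.c j)) :=
      isReduced_of_isOpenImmersion (pullback.fst (S.c i) (S.c j))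
    have hw : pullback.lift (spMap (gen i)) (spMap (gen j)) (S.gen_eq i j) ≫
        pullback.fst (S.c i) (S.c j) = spMap (gen i) := pullback.lift_fst _ _ _
    have hw' : pullback.lift (spMap (gen i)) (spMap (gen j)) (S.gen_eq i j) ≫
        pullback.snd (S.c i) (S.c j) = spMap (gen j) := pullback.lift_snd _ _ _
    have hdom : IsDominant (pullback.lift (spMap (gen i)) (spMap (gen j)) (S.gen_eq i j)) :=
      surfp_dominant (pullback.fst (S.c i) (S.c j)) _ (gen i) (gen_injective i) hw
    have hsep : Scheme.IsSeparated (PP 1) := PP1_separated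
    refine ext_of_isDominant
      (pullback.lift (spMap (gen i)) (spMap (gen j)) (S.gen_eq i j)) ?_
    rw [← Category.assoc, hw, ← Category.assoc _ (pullback.snd (S.c i) (S.c j)), hw',
      surfp_point, surfp_point, surfp_base, surfp_base]
  exact ⟨𝒰.glueMorphisms (fun i : Fin 4 => spMap (algebraMap ℚ[X] (Ch i)) ≫ kap (tau i)) hf,
    fun i => 𝒰.ι_glueMorphisms
      (fun i : Fin 4 => spMap (algebraMap ℚ[X] (Ch i)) ≫ kap (tau i)) hf i⟩

/-- the projection -/
noncomputable def Surf.p (S : Surf) : S.X ⟶ PP 1 := (exists_p S).choose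

theorem Surf.c_p (S : Surf) (i : Fin 4) :
    S.c i ≫ S.p = spMap (algebraMap ℚ[X] (Ch i)) ≫ kap (tau i) := (exists_p S).choose_spec i

end BB37
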